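import Mathlib

/-!
# The bounding number

The bounding number `bb`, its regularity, and a well-ordered set `K` of type `bb`.
-/

open Set Cardinal Filter

namespace Q175.B1

/-- Eventual domination. -/
def LEE (f g : ℕ → ℕ) : Prop := ∀ᶠ n in atTop, f n ≤ g n

theorem LEE.trans {f g h : ℕ → ℕ} (h1 : LEE f g) (h2 : LEE g h) : LEE f h :=
  h1.mp (h2.mono fun _ a b => b.trans a)

/-- A family bounded in the order of eventual domination. -/
def Bounded (F : Set (ℕ → ℕ)) : Prop := ∃ g, ∀ f ∈ F, LEE f g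

theorem not_bounded_univ : ¬ Bounded univ := by
  rintro ⟨g, hg⟩
  obtain ⟨n, hn⟩ := (hg (fun n => g n + 1) (mem_univ _)).exists
  exact absurd hn (Nat.not_succ_le_self _)

/-- The bounding number. -/
noncomputable def bb : Cardinal.{0} := sInf {c | ∃ F : Set (ℕ → ℕ), ¬ Bounded F ∧ #F = c}

theorem exists_family : ∃ F : Set (ℕ → ℕ), ¬ Bounded F ∧ #F = bb :=
  csInf_mem (s := {c | ∃ F : Set (ℕ → ℕ), ¬ Bounded F ∧ #F = c}) ⟨_, univ, not_bounded_univ, rfl⟩

theorem bounded_of_lt {F : Set (ℕ → ℕ)} (hF : #F < bb) : Bounded F := by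
  by_contra hcon
  exact absurd (csInf_le' (s := {c | ∃ F : Set (ℕ → ℕ), ¬ Bounded F ∧ #F = c}) ⟨F, hcon, rfl⟩)
    (not_le.2 hF)

theorem bounded_countable {F : Set (ℕ → ℕ)} (hF : F.Countable) : Bounded F := by
  rcases F.eq_empty_or_nonempty with rfl | hne
  · exact ⟨0, fun f hf => absurd hf (notMem_empty _)⟩
  obtain ⟨u, rfl⟩ := hF.exists_eq_range hne
  refine ⟨fun n => ∑ i ∈ Finset.range (n + 1), u i n, ?_⟩
  rintro _ ⟨k, rfl⟩
  refine (eventually_ge_atTop k).mono fun n hn => ?_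
  exact Finset.single_le_sum (f := fun i => u i n) (fun _ _ => Nat.zero_le _)
    (Finset.mem_range.2 (by omega))

theorem aleph0_lt_bb : ℵ₀ < bb := by
  obtain ⟨F, hF, hc⟩ := exists_family
  rw [← hc]
  by_contra hcon
  exact hF (bounded_countable (le_aleph0_iff_set_countable.1 (not_lt.1 hcon)))

/-- The well-ordered set of type `bb`. -/
abbrev K : Type := bb.ord.ToType

theorem mk_K : #K = bb := by simp

theorem mk_Iio (a : K) : #(Iio a) < bb := mk_Iio_toType_ord_lt a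

theorem mk_insert_lt {α : Type} {S : Set α} (hS : #S < bb) (a : α) : #(insert a S : Set α) < bb :=
  (mk_insert_le).trans_lt (add_lt_of_lt aleph0_lt_bb.le hS (one_lt_aleph0.trans aleph0_lt_bb))

theorem mk_union_lt {α : Type} {S T : Set α} (hS : #S < bb) (hT : #T < bb) :
    #(S ∪ T : Set α) < bb :=
  (mk_union_le _ _).trans_lt (add_lt_of_lt aleph0_lt_bb.le hS hT)

theorem mk_image_lt {α β : Type} {S : Set α} (hS : #S < bb) (f : α → β) : #(f '' S) < bb :=
  mk_image_le.trans_lt hS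

theorem mk_lt_of_countable {α : Type} {S : Set α} (hS : S.Countable) : #S < bb :=
  (le_aleph0_iff_set_countable.2 hS).trans_lt aleph0_lt_bb

theorem mk_Iic (a : K) : #(Iic a) < bb := by
  have : Set.Iic a = insert a (Set.Iio a) := by
    ext x
    simp [le_iff_eq_or_lt]
  rw [this]
  exact mk_insert_lt (mk_Iio a) a

/-- An unbounded family indexed by `K`. -/
theorem exists_b : ∃ b : K → ℕ → ℕ, ¬ Bounded (range b) := by
  obtain ⟨F, hF, hc⟩ := exists_family
  have h1 : #K = #F := by rw [mk_K, hc]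
  obtain ⟨e⟩ := Cardinal.eq.1 h1
  refine ⟨fun k => (e k).1, ?_⟩
  have : range (fun k => (e k).1) = F := by
    ext f
    constructor
    · rintro ⟨k, rfl⟩
      exact (e k).2
    · intro hf
      exact ⟨e.symm ⟨f, hf⟩, by simp⟩
  rwa [this]

/-- Subsets of `K` of size less than `bb` have strict upper bounds. -/
theorem exists_bound {S : Set K} (hS : #S < bb) : ∃ a : K, ∀ s ∈ S, s < a := by
  by_contra hc
  push Not at hc
  obtain ⟨b, hb⟩ := exists_b
  apply hb
  have h1 : ∀ s : K, Bounded (b '' Iic s) := fun s => bounded_of_lt (mk_image_lt (mk_Iic s) b)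
  choose g hg using h1
  obtain ⟨g', hg'⟩ := bounded_of_lt (mk_image_lt hS g)
  refine ⟨g', ?_⟩
  rintro _ ⟨a, rfl⟩
  obtain ⟨s, hs, h⟩ := hc a
  exact (hg s _ ⟨a, h, rfl⟩).trans (hg' _ ⟨s, hs, rfl⟩)

theorem exists_bound_countable {S : Set K} (hS : S.Countable) : ∃ a : K, ∀ s ∈ S, s < a :=
  exists_bound (mk_lt_of_countable hS)

theorem exists_bound_seq (f : ℕ → K) : ∃ a : K, ∀ n, f n < a := by
  obtain ⟨a, ha⟩ := exists_bound_countable (countable_range f)
  exact ⟨a, fun n => ha _ ⟨n, rfl⟩⟩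

instance : NoMaxOrder K := ⟨fun a => by
  obtain ⟨b, hb⟩ := exists_bound_seq fun _ => a
  exact ⟨b, hb 0⟩⟩

instance : Nonempty K := by
  have : #K ≠ 0 := by
    rw [mk_K]
    exact (aleph0_pos.trans aleph0_lt_bb).ne'
  exact mk_ne_zero_iff.1 this

theorem isRegular_bb : bb.IsRegular := by
  refine ⟨aleph0_lt_bb.le, ?_⟩
  rw [← Ordinal.cof_toType, Order.le_cof_iff]
  intro s hs
  by_contra hcon
  obtain ⟨a, ha⟩ := exists_bound (not_le.1 hcon)
  obtain ⟨c, hc, hac⟩ := hs a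
  exact absurd (ha c hc) (not_lt.2 hac)

theorem mk_iUnion_nat_lt {α : Type} {t : ℕ → Set α} (h : ∀ n, #(t n) < bb) :
    #(⋃ n, t n) < bb := by
  refine (card_iUnion_lt_iff_forall_of_isRegular isRegular_bb ?_).2 h
  rw [mk_nat]
  exact aleph0_lt_bb

/-- The least upper bound. -/
theorem exists_lub {S : Set K} (hS : #S < bb) :
    ∃ a : K, (∀ s ∈ S, s < a) ∧ ∀ b < a, ∃ s ∈ S, b ≤ s := by
  classical
  let wf : WellFounded ((· < ·) : K → K → Prop) := wellFounded_lt
  have hne : ({a | ∀ s ∈ S, s < a} : Set K).Nonempty := exists_bound hS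
  refine ⟨wf.min _ hne, wf.min_mem _ hne, ?_⟩
  intro b hb
  by_contra hcon
  push Not at hcon
  exact wf.not_lt_min _ (show b ∈ ({a | ∀ s ∈ S, s < a} : Set K) from hcon) hb

/-- Limits of countable cofinality, with a ladder. -/
def IsLim (δ : K) : Prop :=
  ∃ b : ℕ → K, StrictMono b ∧ (∀ n, b n < δ) ∧ ∀ γ < δ, ∃ n, γ < b n

theorem IsLim.nonempty {δ : K} (h : IsLim δ) : ∃ β, β < δ := by
  obtain ⟨b, _, h2, _⟩ := h
  exact ⟨b 0, h2 0⟩

theorem IsLim.exists_between {δ : K} (h : IsLim δ) {β : K} (hβ : β < δ) :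
    ∃ γ < δ, β < γ := by
  obtain ⟨b, _, h2, h3⟩ := h
  obtain ⟨n, hn⟩ := h3 β hβ
  exact ⟨b n, h2 n, hn⟩

theorem exists_lim_of_strictMono {b : ℕ → K} (hb : StrictMono b) :
    ∃ δ, IsLim δ ∧ (∀ n, b n < δ) ∧ ∀ γ < δ, ∃ n, γ < b n := by
  obtain ⟨δ, h1, h2⟩ := exists_lub (mk_lt_of_countable (countable_range b))
  have h3 : ∀ n, b n < δ := fun n => h1 _ ⟨n, rfl⟩
  have h4 : ∀ γ < δ, ∃ n, γ < b n := by
    intro γ hγ
    obtain ⟨_, ⟨n, rfl⟩, hn⟩ := h2 γ hγ
    exact ⟨n + 1, hn.trans_lt (hb (Nat.lt_succ_self n))⟩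
  exact ⟨δ, ⟨b, hb, h3, h4⟩, h3, h4⟩

/-- Above every point there is a limit closed under a given function. -/
theorem exists_closed (f : K → K) (β : K) :
    ∃ δ, β < δ ∧ IsLim δ ∧ ∀ γ < δ, f γ < δ := by
  classical
  have h1 : ∀ γ : K, ∃ γ' : K, γ < γ' ∧ ∀ x ≤ γ, f x < γ' := by
    intro γ
    obtain ⟨a, ha⟩ := exists_bound (mk_insert_lt (mk_image_lt (mk_Iic γ) f) γ)
    exact ⟨a, ha _ (mem_insert _ _), fun x hx => ha _ (mem_insert_of_mem _ ⟨x, hx, rfl⟩)⟩
  choose g hg1 hg2 using h1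
  obtain ⟨β', hβ'⟩ := exists_gt β
  let b : ℕ → K := fun n => Nat.rec β' (fun _ x => g x) n
  have hb : StrictMono b := strictMono_nat_of_lt_succ fun n => hg1 (b n)
  obtain ⟨δ, hδ, hlt, hcof⟩ := exists_lim_of_strictMono hb
  refine ⟨δ, hβ'.trans (hlt 0), hδ, ?_⟩
  intro γ hγ
  obtain ⟨n, hn⟩ := hcof γ hγ
  exact (hg2 (b n) γ hn.le).trans (hlt (n + 1))

/-- A monotone cofinal map from the irrationals to `K`. -/
theorem exists_mono_cofinal :
    ∃ f : (ℕ → ℕ) → K, (∀ α β, (∀ n, α n ≤ β n) → f α ≤ f β) ∧ ∀ ξ, ∃ α, ξ < f α := by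
  classical
  obtain ⟨b, hb⟩ := exists_b
  have hne : ∀ α : ℕ → ℕ, ({ξ | ¬ LEE (b ξ) α} : Set K).Nonempty := by
    intro α
    by_contra hcon
    rw [not_nonempty_iff_eq_empty] at hcon
    apply hb
    refine ⟨α, ?_⟩
    rintro _ ⟨ξ, rfl⟩
    by_contra h
    have : ξ ∈ ({ξ | ¬ LEE (b ξ) α} : Set K) := h
    rw [hcon] at this
    exact this
  let wf : WellFounded ((· < ·) : K → K → Prop) := wellFounded_lt
  refine ⟨fun α => wf.min _ (hne α), ?_, ?_⟩
  · intro α β hαβ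
    have h1 : wf.min _ (hne β) ∈ ({ξ | ¬ LEE (b ξ) β} : Set K) := wf.min_mem _ (hne β)
    have h2 : wf.min _ (hne β) ∈ ({ξ | ¬ LEE (b ξ) α} : Set K) :=
      fun h => h1 (h.mono fun n hn => hn.trans (hαβ n))
    exact not_lt.1 (wf.not_lt_min _ h2)
  · intro ξ
    obtain ⟨α, hα⟩ := bounded_of_lt (mk_image_lt (mk_Iic ξ) b)
    refine ⟨α, ?_⟩
    by_contra hcon
    exact wf.min_mem _ (hne α) (hα _ ⟨_, not_lt.1 hcon, rfl⟩)

/-! ### Cardinalities of some sets -/

theorem mk_finset_lt {α : Type} (h : #α < bb) : #(Finset α) < bb := by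
  rcases finite_or_infinite α with hα | hα
  · exact (lt_aleph0_of_finite _).trans aleph0_lt_bb
  · rwa [mk_finset_of_infinite]

theorem mk_finite_subsets_lt {α : Type} {S : Set α} (hS : #S < bb) :
    #({A | A.Finite ∧ A ⊆ S} : Set (Set α)) < bb := by
  classical
  have h : ({A | A.Finite ∧ A ⊆ S} : Set (Set α)) ⊆
      range (fun F : Finset S => ((↑) : S → α) '' (F : Set S)) := by
    rintro A ⟨hA, hAS⟩
    have hfin : (((↑) : S → α) ⁻¹' A).Finite := hA.preimage Subtype.val_injective.injOn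
    refine ⟨hfin.toFinset, ?_⟩
    simp only [Finite.coe_toFinset]
    rw [Subtype.image_preimage_coe]
    exact inter_eq_right.2 hAS
  exact (mk_le_mk_of_subset h).trans_lt (mk_range_le.trans_lt (mk_finset_lt hS))

theorem mk_closure_lt {A : Type} [AddCommGroup A] {S : Set A} (hS : #S < bb) :
    #(AddSubgroup.closure S : Set A) < bb := by
  have h : (AddSubgroup.closure S : Set A) ⊆
      range (Finsupp.linearCombination ℤ ((↑) : S → A)) := by
    intro x hx
    rw [← Submodule.span_int_eq_addSubgroupClosure] at hx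
    exact (Finsupp.mem_span_iff_linearCombination ℤ S x).1 hx
  refine (mk_le_mk_of_subset h).trans_lt (mk_range_le.trans_lt ?_)
  rcases finite_or_infinite S with hfin | hinf
  · exact (mk_le_aleph0).trans_lt aleph0_lt_bb
  · rw [mk_finsupp_of_infinite]
    refine max_lt hS ?_
    rw [mk_int]
    exact aleph0_lt_bb

end Q175.B1
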