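import Mathlib

/-!
# Cells, typical sets and the coin-tossing measure on the Cantor space
-/

open Set Filter Topology MeasureTheory
open scoped ENNReal

namespace Q175.Cells

/-- The Cantor space. -/
abbrev C : Type := ℕ → Bool

instance polishC : PolishSpace C := by
  let _ := TopologicalSpace.metrizableSpaceMetric C
  infer_instance

/-- The coin-tossing measure. -/
noncomputable def μ : Measure C :=
  Measure.infinitePi fun _ : ℕ => (PMF.uniformOfFintype Bool).toMeasure

instance : IsProbabilityMeasure μ := by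
  unfold μ
  infer_instance

theorem unif (b : Bool) : (PMF.uniformOfFintype Bool).toMeasure {b} = (2 : ℝ≥0∞)⁻¹ := by
  rw [PMF.toMeasure_apply_singleton _ _ (measurableSet_singleton _),
    PMF.uniformOfFintype_apply]
  simp

/-- The measure of a finite system of conditions. -/
theorem μ_cyl (F : Finset ℕ) (x : C) : μ {y | ∀ i ∈ F, y i = x i} = (2 : ℝ≥0∞)⁻¹ ^ F.card := by
  have h1 : {y : C | ∀ i ∈ F, y i = x i} = Set.pi F fun i => {x i} := by
    ext y
    simp
  rw [h1, μ, Measure.infinitePi_pi _ fun _ _ => measurableSet_singleton _]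
  simp

/-- Coordinatewise addition modulo 2. -/
def add (w x : C) : C := fun n => xor (w n) (x n)

theorem add_add (w x : C) : add w (add w x) = x := by
  funext n
  simp only [add]
  cases w n <;> cases x n <;> rfl

theorem add_comm' (w x : C) : add w x = add x w := by
  funext n
  simp only [add]
  cases w n <;> cases x n <;> rfl

theorem continuous_add : Continuous fun p : C × C => add p.1 p.2 := by
  refine continuous_pi fun n => ?_
  have h1 : Continuous fun p : Bool × Bool => xor p.1 p.2 := continuous_of_discreteTopology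
  have h2 : Continuous fun p : C × C => (p.1 n, p.2 n) := by fun_prop
  exact h1.comp h2

theorem continuous_add_left (w : C) : Continuous (add w) :=
  continuous_add.comp (Continuous.prodMk_right w)

/-- Addition of a fixed element preserves the measure. -/
theorem measurePreserving_add (w : C) : MeasurePreserving (add w) μ μ := by
  refine ⟨(continuous_add_left w).measurable, ?_⟩
  have h1 : ∀ n, Measurable (fun b : Bool => xor (w n) b) := fun n => measurable_of_countable _
  have h2 := Measure.infinitePi_map_pi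
    (μ := fun _ : ℕ => (PMF.uniformOfFintype Bool).toMeasure) (f := fun n b => xor (w n) b) h1
  have h3 : ∀ n, Measure.map (fun b : Bool => xor (w n) b)
      (PMF.uniformOfFintype Bool).toMeasure = (PMF.uniformOfFintype Bool).toMeasure := by
    intro n
    refine Measure.ext_of_singleton fun b => ?_
    rw [Measure.map_apply (h1 n) (measurableSet_singleton _), unif]
    have : (fun b : Bool => xor (w n) b) ⁻¹' {b} = {xor (w n) b} := by
      ext c
      cases w n <;> cases b <;> cases c <;> simp
    rw [this, unif]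
  simp_rw [h3] at h2
  exact h2

theorem μ_add_preimage (w : C) {A : Set C} (hA : MeasurableSet A) : μ (add w ⁻¹' A) = μ A :=
  (measurePreserving_add w).measure_preimage hA.nullMeasurableSet

theorem add_image (w : C) (A : Set C) : add w '' A = add w ⁻¹' A := by
  ext x
  constructor
  · rintro ⟨y, hy, rfl⟩
    show add w (add w y) ∈ A
    rwa [add_add]
  · intro h
    exact ⟨add w x, h, add_add w x⟩

/-- Almost inclusion. -/
def Sub (x y : C) : Prop := {n | x n = true ∧ y n = false}.Finite

theorem Sub.refl (x : C) : Sub x x := by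
  refine finite_empty.subset ?_
  rintro n ⟨h1, h2⟩
  rw [h1] at h2
  cases h2

theorem Sub.trans {x y z : C} (h1 : Sub x y) (h2 : Sub y z) : Sub x z := by
  refine (h1.union h2).subset ?_
  rintro n ⟨hx, hz⟩
  rcases hy : y n with _ | _
  · exact Or.inl ⟨hx, hy⟩
  · exact Or.inr ⟨hy, hz⟩

/-! ### Cells -/

/-- The index set of the points of the cells. -/
abbrev Ix : Type := Σ k : ℕ, Fin k × Fin k

instance : Infinite Ix := Infinite.of_injective (fun k : ℕ => (⟨k + 1, (0, 0)⟩ : Ix)) fun a b h => by
  have := congrArg Sigma.fst h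
  simpa using this

/-- A bijection between the natural numbers and the points of the cells. -/
noncomputable def en : ℕ ≃ Ix := (nonempty_equiv_of_countable (α := ℕ) (β := Ix)).some

/-- The `j`-th point of the cell `(k, i)`. -/
noncomputable def pt (k : ℕ) (i j : Fin k) : ℕ := en.symm ⟨k, (i, j)⟩

/-- The union of the cells `(k, i)` with `β i = true`. -/
noncomputable def xb (β : C) : C := fun n => β (en n).2.1

theorem xb_pt (β : C) (k : ℕ) (i j : Fin k) : xb β (pt k i j) = β i := by
  have h : en (pt k i j) = ⟨k, (i, j)⟩ := en.apply_symm_apply _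
  exact congrArg (fun s : Ix => β (s.2.1 : ℕ)) h

/-- No cell `(k, i)` is monochromatic, for almost all `k`. -/
def Typ (x : C) : Prop :=
  ∀ᶠ k in atTop, ∀ i : Fin k, (∃ j, x (pt k i j) = true) ∧ ∃ j, x (pt k i j) = false

/-- Infinitely many cells are contained in `x`. -/
def Large (x : C) : Prop := ∃ᶠ k in atTop, ∃ i : Fin k, ∀ j, x (pt k i j) = true

/-- Infinitely many cells are disjoint from `x`. -/
def Small (x : C) : Prop := ∃ᶠ k in atTop, ∃ i : Fin k, ∀ j, x (pt k i j) = false

theorem trichotomy (x : C) : Large x ∨ Small x ∨ Typ x := by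
  by_cases h1 : Large x
  · exact Or.inl h1
  by_cases h2 : Small x
  · exact Or.inr (Or.inl h2)
  refine Or.inr (Or.inr ?_)
  rw [Large, not_frequently] at h1
  rw [Small, not_frequently] at h2
  filter_upwards [h1, h2] with k hk1 hk2 i
  push Not at hk1 hk2
  obtain ⟨j, hj⟩ := hk1 i
  obtain ⟨j', hj'⟩ := hk2 i
  exact ⟨⟨j', by simpa using hj'⟩, ⟨j, by simpa using hj⟩⟩

/-- Only finitely many `k` have a point of a finite set in the cells `(k, i)`. -/
theorem eventually_notMem {F : Set ℕ} (hF : F.Finite) :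
    ∀ᶠ k in atTop, ∀ i j : Fin k, pt k i j ∉ F := by
  have h1 : {k | ∃ i j : Fin k, pt k i j ∈ F}.Finite := by
    refine (hF.image fun n => (en n).1).subset ?_
    rintro k ⟨i, j, h⟩
    exact ⟨_, h, by simp [pt]⟩
  have h2 := h1.eventually_cofinite_notMem
  rw [Nat.cofinite_eq_atTop] at h2
  filter_upwards [h2] with k hk i j h
  exact hk ⟨i, j, h⟩

theorem not_sub_of_large {v y : C} (hv : Large v) (hy : Typ y) : ¬ Sub v y := by
  intro h
  obtain ⟨k, ⟨i, hi⟩, hk, hn⟩ := (hv.and_eventually (hy.and (eventually_notMem h))).exists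
  obtain ⟨j, hj⟩ := (hk i).2
  exact hn i j ⟨hi j, hj⟩

theorem not_sub_of_small {v y : C} (hv : Small v) (hy : Typ y) : ¬ Sub y v := by
  intro h
  obtain ⟨k, ⟨i, hi⟩, hk, hn⟩ := (hv.and_eventually (hy.and (eventually_notMem h))).exists
  obtain ⟨j, hj⟩ := (hk i).1
  exact hn i j ⟨hj, hi j⟩

/-- `p` may be put into the positive part. -/
def OKP (p : C) : Prop := ∀ w β β', Typ (add w (xb β)) → Typ (add w (xb β')) →
  Sub p (add w (xb β)) → Sub p (add w (xb β')) → β = β'

/-- `p` may be put into the negative part. -/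
def OKN (p : C) : Prop := ∀ w β β', Typ (add w (xb β)) → Typ (add w (xb β')) →
  Sub (add w (xb β)) p → Sub (add w (xb β')) p → β = β'

theorem okp_of_large {p : C} (h : Large p) : OKP p := fun _ _ _ h1 _ h2 _ =>
  absurd h2 (not_sub_of_large h h1)

theorem okn_of_small {p : C} (h : Small p) : OKN p := fun _ _ _ h1 _ h2 _ =>
  absurd h2 (not_sub_of_small h h1)

theorem okp_of_typ {p : C} (h : Typ p) : OKP p := by
  intro w β β' _ _ h1 h2
  by_contra hne
  obtain ⟨i, hi⟩ := Function.ne_iff.1 hne
  obtain ⟨k, hk, hn1, hn2, hik⟩ := (h.and ((eventually_notMem h1).and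
    ((eventually_notMem h2).and (eventually_gt_atTop i)))).exists
  obtain ⟨j, hj⟩ := (hk ⟨i, hik⟩).1
  have e1 := hn1 ⟨i, hik⟩ j
  have e2 := hn2 ⟨i, hik⟩ j
  simp only [mem_ofPred_eq, hj, true_and, add, xb_pt] at e1 e2
  apply hi
  revert e1 e2
  cases w (pt k ⟨i, hik⟩ j) <;> cases β i <;> cases β' i <;> simp

theorem okn_of_typ {p : C} (h : Typ p) : OKN p := by
  intro w β β' _ _ h1 h2
  by_contra hne
  obtain ⟨i, hi⟩ := Function.ne_iff.1 hne
  obtain ⟨k, hk, hn1, hn2, hik⟩ := (h.and ((eventually_notMem h1).and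
    ((eventually_notMem h2).and (eventually_gt_atTop i)))).exists
  obtain ⟨j, hj⟩ := (hk ⟨i, hik⟩).2
  have e1 := hn1 ⟨i, hik⟩ j
  have e2 := hn2 ⟨i, hik⟩ j
  simp only [mem_ofPred_eq, hj, and_true, add, xb_pt] at e1 e2
  apply hi
  revert e1 e2
  cases w (pt k ⟨i, hik⟩ j) <;> cases β i <;> cases β' i <;> simp

theorem infinite_of_not_small {p : C} (h : ¬ Small p) : {n | p n = true}.Infinite := by
  intro hfin
  apply h
  rw [Small]
  refine Eventually.frequently ?_
  filter_upwards [eventually_notMem hfin, eventually_gt_atTop 0] with k hk hk0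
  exact ⟨⟨0, hk0⟩, fun j => by simpa using hk ⟨0, hk0⟩ j⟩

theorem infinite_of_large {p : C} (h : Large p) : {n | p n = true}.Infinite := by
  intro hfin
  obtain ⟨k, ⟨i, hi⟩, hk⟩ := (h.and_eventually (eventually_notMem hfin)).exists
  exact hk i ⟨0, i.pos⟩ (hi _)

theorem infinite_of_typ {p : C} (h : Typ p) : {n | p n = true}.Infinite := by
  intro hfin
  obtain ⟨k, hk, hn, hk0⟩ := (h.and ((eventually_notMem hfin).and (eventually_gt_atTop 0))).exists
  obtain ⟨j, hj⟩ := (hk ⟨0, hk0⟩).1
  exact hn _ _ hj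

theorem coinfinite_of_typ {p : C} (h : Typ p) : {n | p n = false}.Infinite := by
  intro hfin
  obtain ⟨k, hk, hn, hk0⟩ := (h.and ((eventually_notMem hfin).and (eventually_gt_atTop 0))).exists
  obtain ⟨j, hj⟩ := (hk ⟨0, hk0⟩).2
  exact hn _ _ hj

theorem coinfinite_of_small {p : C} (h : Small p) : {n | p n = false}.Infinite := by
  intro hfin
  obtain ⟨k, ⟨i, hi⟩, hk⟩ := (h.and_eventually (eventually_notMem hfin)).exists
  exact hk i ⟨0, i.pos⟩ (hi _)

/-! ### Almost all sets are typical -/

theorem pt_inj {k : ℕ} (i : Fin k) : Function.Injective (pt k i) := by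
  intro j j' h
  have := en.symm.injective h
  simpa using this

theorem summable_aux : ∑' k : ℕ, (k : ℝ≥0∞) * (2 : ℝ≥0∞)⁻¹ ^ k ≠ ∞ := by
  have h1 : Summable fun k : ℕ => (k : ℝ) * (1 / 2) ^ k := by
    have := summable_pow_mul_geometric_of_norm_lt_one (R := ℝ) 1 (r := 1 / 2) (by norm_num)
    simpa using this
  have h2 : ∀ k : ℕ, (k : ℝ≥0∞) * (2 : ℝ≥0∞)⁻¹ ^ k = ENNReal.ofReal ((k : ℝ) * (1 / 2) ^ k) := by
    intro k
    rw [ENNReal.ofReal_mul (Nat.cast_nonneg k), ENNReal.ofReal_natCast,
      ENNReal.ofReal_pow (by norm_num), one_div, ENNReal.ofReal_inv_of_pos two_pos]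
    simp
  simp_rw [h2]
  exact h1.tsum_ofReal_ne_top

theorem ae_not (b : Bool) : ∀ᵐ x ∂μ, ¬ ∃ᶠ k in atTop, ∃ i : Fin k, ∀ j, x (pt k i j) = b := by
  let s : ℕ → Set C := fun k => {x | ∃ i : Fin k, ∀ j, x (pt k i j) = b}
  have hs : ∀ k, μ (s k) ≤ (k : ℝ≥0∞) * (2 : ℝ≥0∞)⁻¹ ^ k := by
    intro k
    have h1 : s k = ⋃ i : Fin k, {x | ∀ j, x (pt k i j) = b} := by
      ext x
      simp [s]
    rw [h1]
    calc μ (⋃ i : Fin k, {x | ∀ j, x (pt k i j) = b})
        ≤ ∑ i : Fin k, μ {x | ∀ j, x (pt k i j) = b} := by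
          have := measure_iUnion_le (μ := μ) fun i : Fin k => {x : C | ∀ j, x (pt k i j) = b}
          rwa [tsum_fintype] at this
      _ = ∑ _i : Fin k, (2 : ℝ≥0∞)⁻¹ ^ k := by
          refine Finset.sum_congr rfl fun i _ => ?_
          have h2 : {x : C | ∀ j, x (pt k i j) = b} =
              {x | ∀ n ∈ (Finset.univ.image (pt k i)), x n = (fun _ => b : C) n} := by
            ext x
            simp
          rw [h2, μ_cyl, Finset.card_image_of_injective _ (pt_inj i), Finset.card_univ,
            Fintype.card_fin]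
      _ = (k : ℝ≥0∞) * (2 : ℝ≥0∞)⁻¹ ^ k := by simp
  have h3 : ∑' k, μ (s k) ≠ ∞ := ne_top_of_le_ne_top summable_aux (ENNReal.tsum_le_tsum hs)
  have h4 := measure_limsup_atTop_eq_zero h3
  rw [ae_iff]
  convert h4 using 2
  ext x
  simp only [not_not, mem_ofPred_eq]
  rw [mem_limsup_iff_frequently_mem]
  rfl

theorem ae_typ : ∀ᵐ x ∂μ, Typ x := by
  filter_upwards [ae_not true, ae_not false] with x h1 h2
  rcases trichotomy x with h | h | h
  · exact absurd h h1
  · exact absurd h h2
  · exact h

/-! ### Many members of a set of positive measure -/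

theorem μ_singleton (x : C) : μ {x} = 0 := by
  by_contra hne
  have hpos : 0 < μ {x} := pos_iff_ne_zero.2 hne
  have h1 : Tendsto (fun n : ℕ => (2 : ℝ≥0∞)⁻¹ ^ n) atTop (𝓝 0) :=
    ENNReal.tendsto_pow_atTop_nhds_zero_of_lt_one (by simp)
  obtain ⟨n, hn⟩ := (h1.eventually (gt_mem_nhds hpos)).exists
  have h2 : μ {x} ≤ μ {y | ∀ i ∈ Finset.range n, y i = x i} :=
    measure_mono (singleton_subset_iff.2 fun _ _ => rfl)
  rw [μ_cyl, Finset.card_range] at h2
  exact absurd (h2.trans_lt hn) (lt_irrefl _)

theorem μ_countable {A : Set C} (hA : A.Countable) : μ A = 0 := by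
  have : (⋃ x ∈ A, ({x} : Set C)) = A := by simp
  rw [← this]
  exact (measure_biUnion_null_iff hA).2 fun x _ => μ_singleton x

/-- For a set of positive measure some `w` has continuum many `β` with `w + xb β` in the set. -/
theorem exists_many {A : Set C} (hA : MeasurableSet A) (hpos : 0 < μ A) :
    ∃ (w : C) (g : C → C), Function.Injective g ∧ ∀ γ, add w (xb (g γ)) ∈ A := by
  classical
  obtain ⟨F, hFA, hF, hFpos⟩ := hA.exists_lt_isClosed_of_ne_top (measure_ne_top μ A) hpos
  have hxb : Continuous xb := continuous_pi fun n => continuous_apply ((en n).2.1 : ℕ)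
  have hcont : Continuous fun p : C × C => add p.1 (xb p.2) :=
    continuous_add.comp (continuous_fst.prodMk (hxb.comp continuous_snd))
  have hmeas : MeasurableSet {p : C × C | add p.1 (xb p.2) ∈ F} := (hF.preimage hcont).measurableSet
  have hprod : (μ.prod μ) {p : C × C | add p.1 (xb p.2) ∈ F} ≠ 0 := by
    rw [Measure.prod_apply_symm hmeas]
    have h1 : ∀ β : C, μ ((fun w => (w, β)) ⁻¹' {p : C × C | add p.1 (xb p.2) ∈ F}) = μ F := by
      intro β
      have h2 : (fun w : C => (w, β)) ⁻¹' {p : C × C | add p.1 (xb p.2) ∈ F} =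
          add (xb β) ⁻¹' F := by
        ext w
        show add w (xb β) ∈ F ↔ add (xb β) w ∈ F
        rw [add_comm']
      rw [h2, μ_add_preimage _ hF.measurableSet]
    simp_rw [h1]
    simp [hFpos.ne']
  have h3 : ∃ w, μ {β | add w (xb β) ∈ F} ≠ 0 := by
    by_contra hcon
    push Not at hcon
    apply hprod
    rw [Measure.measure_prod_null hmeas]
    exact Eventually.of_forall hcon
  obtain ⟨w, hw⟩ := h3
  have hclosed : IsClosed {β | add w (xb β) ∈ F} :=
    hF.preimage (hcont.comp (Continuous.prodMk_right w))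
  obtain ⟨g, hgr, _, hginj⟩ := hclosed.exists_nat_bool_injection_of_not_countable
    fun h => hw (μ_countable h)
  exact ⟨w, g, hginj, fun γ => hFA (hgr ⟨γ, rfl⟩)⟩

end Q175.Cells
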