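import Mathlib

/-!
# The countable ordinals as a type

Basic facts about a well-ordered type of order type `ω₁`.
-/

open Set Cardinal

namespace Q175.O1

/-- The well-ordered set of the countable ordinals (order type `ω₁`). -/
abbrev Om : Type := (ℵ₁ : Cardinal.{0}).ord.ToType

theorem countable_Iio (a : Om) : (Iio a).Countable := by
  have h : #(Set.Iio a) < ℵ₁ := mk_Iio_toType_ord_lt a
  have h1 : ℵ₁ ≤ Order.succ (ℵ₀ : Cardinal.{0}) := succ_aleph0.ge
  exact Set.countable_coe_iff.1 (mk_le_aleph0_iff.1 (Order.lt_succ_iff.1 (h.trans_le h1)))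

theorem countable_Iic (a : Om) : (Iic a).Countable := by
  have : Set.Iic a = insert a (Set.Iio a) := by
    ext x
    simp [le_iff_eq_or_lt]
  rw [this]
  exact Set.Countable.insert _ (countable_Iio _)

theorem mk_Om : #Om = ℵ₁ := by simp

theorem not_countable_univ : ¬ (univ : Set Om).Countable := by
  intro h
  rw [Set.countable_univ_iff, ← mk_le_aleph0_iff, mk_Om] at h
  exact absurd h (not_le.2 aleph0_lt_aleph_one)

instance : Uncountable Om := by
  rw [← not_countable_iff]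
  intro h
  exact not_countable_univ (Set.countable_univ_iff.2 h)

/-- Every countable set of countable ordinals has a strict upper bound. -/
theorem exists_bound {S : Set Om} (hS : S.Countable) : ∃ a : Om, ∀ s ∈ S, s < a := by
  by_contra hc
  push Not at hc
  apply not_countable_univ
  have h1 : (Set.univ : Set Om) ⊆ ⋃ s ∈ S, Set.Iic s := by
    intro a _
    obtain ⟨s, hs, h⟩ := hc a
    exact Set.mem_biUnion hs h
  exact (hS.biUnion fun s _ => countable_Iic s).mono h1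

theorem exists_bound_seq (f : ℕ → Om) : ∃ a : Om, ∀ n, f n < a := by
  obtain ⟨a, ha⟩ := exists_bound (countable_range f)
  exact ⟨a, fun n => ha _ ⟨n, rfl⟩⟩

instance : NoMaxOrder Om := ⟨fun a => by
  obtain ⟨b, hb⟩ := exists_bound_seq fun _ => a
  exact ⟨b, hb 0⟩⟩

instance : Nonempty Om := by
  have : #Om ≠ 0 := by
    rw [mk_toType, card_ord]
    exact (aleph_pos 1).ne'
  exact mk_ne_zero_iff.1 this

/-- A countable set of countable ordinals has a least strict upper bound. -/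
theorem exists_lub {S : Set Om} (hS : S.Countable) :
    ∃ a : Om, (∀ s ∈ S, s < a) ∧ ∀ b < a, ∃ s ∈ S, b ≤ s := by
  classical
  let wf : WellFounded ((· < ·) : Om → Om → Prop) := wellFounded_lt
  have hne : ({a | ∀ s ∈ S, s < a} : Set Om).Nonempty := exists_bound hS
  refine ⟨wf.min _ hne, wf.min_mem _ hne, ?_⟩
  intro b hb
  by_contra hcon
  push Not at hcon
  exact wf.not_lt_min _ (show b ∈ ({a | ∀ s ∈ S, s < a} : Set Om) from hcon) hb

/-- Limit elements. -/
def IsLim (δ : Om) : Prop := (∃ β, β < δ) ∧ ∀ β < δ, ∃ γ < δ, β < γ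

/-- The least strict upper bound of a strictly increasing sequence is a limit. -/
theorem exists_lim_of_strictMono {b : ℕ → Om} (hb : StrictMono b) :
    ∃ δ, IsLim δ ∧ (∀ n, b n < δ) ∧ ∀ γ < δ, ∃ n, γ < b n := by
  obtain ⟨δ, h1, h2⟩ := exists_lub (countable_range b)
  have h3 : ∀ n, b n < δ := fun n => h1 _ ⟨n, rfl⟩
  have h4 : ∀ γ < δ, ∃ n, γ < b n := by
    intro γ hγ
    obtain ⟨_, ⟨n, rfl⟩, hn⟩ := h2 γ hγ
    exact ⟨n + 1, hn.trans_lt (hb (Nat.lt_succ_self n))⟩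
  refine ⟨δ, ⟨⟨b 0, h3 0⟩, ?_⟩, h3, h4⟩
  intro β hβ
  obtain ⟨n, hn⟩ := h4 β hβ
  exact ⟨b n, h3 n, hn⟩

/-- Above every point there is a limit closed under a given function. -/
theorem exists_closed (f : Om → Om) (β : Om) :
    ∃ δ, β < δ ∧ IsLim δ ∧ ∀ γ < δ, f γ < δ := by
  classical
  have h1 : ∀ γ : Om, ∃ γ' : Om, γ < γ' ∧ ∀ x ≤ γ, f x < γ' := by
    intro γ
    obtain ⟨a, ha⟩ := exists_bound (((countable_Iic γ).image f).insert γ)
    exact ⟨a, ha _ (mem_insert _ _), fun x hx => ha _ (mem_insert_of_mem _ ⟨x, hx, rfl⟩)⟩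
  choose g hg1 hg2 using h1
  obtain ⟨β', hβ'⟩ := exists_gt β
  let b : ℕ → Om := fun n => Nat.rec β' (fun _ x => g x) n
  have hb : StrictMono b := strictMono_nat_of_lt_succ fun n => hg1 (b n)
  obtain ⟨δ, hδ, hlt, hcof⟩ := exists_lim_of_strictMono hb
  refine ⟨δ, hβ'.trans (hlt 0), hδ, ?_⟩
  intro γ hγ
  obtain ⟨n, hn⟩ := hcof γ hγ
  exact (hg2 (b n) γ hn.le).trans (hlt (n + 1))

/-- Ladders: a limit has a strictly increasing cofinal sequence. -/
theorem exists_ladder {δ : Om} (hδ : IsLim δ) :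
    ∃ b : ℕ → Om, StrictMono b ∧ (∀ n, b n < δ) ∧ ∀ γ < δ, ∃ n, γ < b n := by
  classical
  obtain ⟨⟨β₀, hβ₀⟩, hlim⟩ := hδ
  have : Nonempty (Iio δ) := ⟨⟨β₀, hβ₀⟩⟩
  have : Countable (Iio δ) := (countable_Iio δ).to_subtype
  obtain ⟨e, he⟩ := exists_surjective_nat (Iio δ)
  have h1 : ∀ (n : ℕ) (x : Iio δ), ∃ y : Iio δ, x < y ∧ e n < y := by
    intro n x
    obtain ⟨y, hy, hlt⟩ := hlim (max x.1 (e n).1) (max_lt x.2 (e n).2)
    exact ⟨⟨y, hy⟩, (le_max_left x.1 (e n).1).trans_lt hlt,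
      (le_max_right x.1 (e n).1).trans_lt hlt⟩
  choose g hg1 hg2 using h1
  let b : ℕ → Iio δ := fun n => Nat.rec (⟨β₀, hβ₀⟩ : Iio δ) (fun n x => g n x) n
  have hb : StrictMono b := strictMono_nat_of_lt_succ fun n => hg1 n (b n)
  refine ⟨fun n => (b n).1, fun m n h => hb h, fun n => (b n).2, ?_⟩
  intro γ hγ
  obtain ⟨n, hn⟩ := he ⟨γ, hγ⟩
  refine ⟨n + 1, ?_⟩
  have := hg2 n (b n)
  rw [hn] at this
  exact this

end Q175.O1
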