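import Mathlib
import Pool.Agent.Q175.Om

/-!
# Subspaces of products that fill all countable subproducts

A pressing-down argument for locally finite covers of such subspaces.
-/

open Set Filter Topology
open Q175.O1

namespace Q175.Fill

/-- A weak form of the pressing-down lemma. -/
theorem press {g : Om → Om} (hg : ∀ α, IsLim α → g α < α) :
    ∃ γ, ¬ {α | IsLim α ∧ g α ≤ γ}.Countable := by
  by_contra hcon
  push Not at hcon
  have h1 : ∀ γ, ∃ δ, ∀ α, IsLim α → g α ≤ γ → α < δ := by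
    intro γ
    obtain ⟨δ, hδ⟩ := exists_bound (hcon γ)
    exact ⟨δ, fun α h h' => hδ α ⟨h, h'⟩⟩
  choose h hh using h1
  obtain ⟨δ, _, hδ, hcl⟩ := exists_closed h (Classical.arbitrary _)
  have h2 := hh (g δ) δ hδ le_rfl
  exact absurd (hcl (g δ) (hg δ hδ)) (not_lt.2 h2.le)

variable {ι : Type*} {X : ι → Type*}

/-- `D` fills all countable subproducts. -/
def FillsCountable (D : Set (∀ i, X i)) : Prop :=
  ∀ J : Set ι, J.Countable → ∀ x : ∀ i, X i, ∃ d ∈ D, ∀ i ∈ J, d i = x i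

variable [∀ i, TopologicalSpace (X i)]

/-- Neighbourhoods in a subspace of a product are governed by finitely many coordinates. -/
theorem exists_box {D : Set (∀ i, X i)} {d : D} {U : Set D} (hU : U ∈ 𝓝 d) :
    ∃ (F : Finset ι) (u : ∀ i, Set (X i)), (∀ i, IsOpen (u i)) ∧ (∀ i, d.1 i ∈ u i) ∧
      ∀ y : D, (∀ i ∈ F, y.1 i ∈ u i) → y ∈ U := by
  classical
  rw [nhds_subtype_eq_comap, mem_comap] at hU
  obtain ⟨V, hV, hVU⟩ := hU
  rw [nhds_pi, Filter.mem_pi] at hV
  obtain ⟨I, hI, t, ht, hsub⟩ := hV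
  have h1 : ∀ i, ∃ u : Set (X i), IsOpen u ∧ d.1 i ∈ u ∧ u ⊆ t i := by
    intro i
    obtain ⟨u, hu, huo, hd⟩ := mem_nhds_iff.1 (ht i)
    exact ⟨u, huo, hd, hu⟩
  choose u hu hd hut using h1
  refine ⟨hI.toFinset, u, hu, hd, fun y hy => hVU (hsub fun i hi => ?_)⟩
  exact hut i (hy i (hI.mem_toFinset.2 hi))

theorem box_mem_nhds {D : Set (∀ i, X i)} {d : D} (F : Finset ι) {u : ∀ i, Set (X i)}
    (hu : ∀ i ∈ F, u i ∈ 𝓝 (d.1 i)) : {y : D | ∀ i ∈ F, y.1 i ∈ u i} ∈ 𝓝 d := by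
  have h1 : Set.pi (F : Set ι) u ∈ 𝓝 d.1 := set_pi_mem_nhds F.finite_toSet hu
  exact continuous_subtype_val.continuousAt h1

theorem countable_iff_exists_bound {S : Set Om} : S.Countable ↔ ∃ a, ∀ s ∈ S, s < a :=
  ⟨exists_bound, fun ⟨a, ha⟩ => (countable_Iio a).mono ha⟩

/-- The key lemma: for every locally finite open cover and every rule for choosing points of `D`
whose coordinates in a countable set `J` lie in prescribed countable sets, some member of the cover
contains a point chosen for a countable set `J` that contains the finite set attached to the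
member. -/
theorem key {D : Set (∀ i, X i)} (hD : FillsCountable D) {T : Type*} {V : T → Set D}
    (hVo : ∀ t, IsOpen (V t)) (hcov : ∀ d, ∃ t, d ∈ V t) (hlf : LocallyFinite V)
    (Y : ∀ i, Set (X i)) (hY : ∀ i, (Y i).Countable) (c₀ : T → Finset ι)
    (P : Set ι → D → Prop)
    (hΦ : ∀ J : Set ι, J.Countable → ∃ d : D, (∀ i ∈ J, d.1 i ∈ Y i) ∧ P J d) :
    ∃ (t : T) (J : Set ι) (d : D), J.Countable ∧ (c₀ t : Set ι) ⊆ J ∧ d ∈ V t ∧ P J d := by
  classical
  -- choose members and boxes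
  choose τ hτ using hcov
  have h1 : ∀ d : D, ∃ (F : Finset ι) (u : ∀ i, Set (X i)), (∀ i, IsOpen (u i)) ∧
      (∀ i, d.1 i ∈ u i) ∧ (∀ y : D, (∀ i ∈ F, y.1 i ∈ u i) → y ∈ V (τ d)) ∧
      {t | ∃ y ∈ V t, ∀ i ∈ F, y.1 i ∈ u i}.Finite := by
    intro d
    obtain ⟨N, hN, hfin⟩ := hlf d
    obtain ⟨F, u, hu, hd, hsub⟩ := exists_box (inter_mem hN ((hVo (τ d)).mem_nhds (hτ d)))
    refine ⟨F, u, hu, hd, fun y hy => (hsub y hy).2, hfin.subset ?_⟩
    rintro t ⟨y, hy, hyF⟩
    exact ⟨y, hy, (hsub y hyF).1⟩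
  choose F u hu hdu hFV hFfin using h1
  obtain ⟨d₀, _⟩ := hΦ ∅ countable_empty
  have : Nonempty D := ⟨d₀⟩
  choose! Φ hΦ1 hΦ2 using hΦ
  -- the recursion
  let c : D → Set ι := fun d => (F d : Set ι) ∪ c₀ (τ d)
  have hc : ∀ d, (c d).Countable := fun d =>
    (F d).countable_toSet.union (c₀ (τ d)).countable_toSet
  let wf : WellFounded ((· < ·) : Om → Om → Prop) := wellFounded_lt
  let step : (α : Om) → ((β : Om) → β < α → D) → D := fun α f => Φ (⋃ (β) (h : β < α), c (f β h))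
  let δ : Om → D := wf.fix step
  let J : Om → Set ι := fun α => ⋃ (β) (_ : β < α), c (δ β)
  have hδ : ∀ α, δ α = Φ (J α) := fun α => wf.fix_eq step α
  have hJ : ∀ α, (J α).Countable := by
    intro α
    have : J α = ⋃ β ∈ Iio α, c (δ β) := rfl
    rw [this]
    exact (countable_Iio α).biUnion fun β _ => hc _
  have hJmono : ∀ {α β}, α ≤ β → J α ⊆ J β := by
    intro α β h
    exact iUnion₂_subset fun γ hγ => subset_iUnion₂_of_subset γ (hγ.trans_le h) subset_rfl
  have hcJ : ∀ {α β}, α < β → c (δ α) ⊆ J β := fun h => subset_iUnion₂_of_subset _ h subset_rfl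
  -- pressing down
  have h2 : ∀ α, ∃ γ, IsLim α → γ < α ∧ (F (δ α) : Set ι) ∩ J α ⊆ J γ := by
    intro α
    by_cases hα : IsLim α
    · have hex : ∀ i ∈ (F (δ α)).filter (· ∈ J α), ∃ β, β < α ∧ i ∈ J β := by
        intro i hi
        obtain ⟨_, hi2⟩ := Finset.mem_filter.1 hi
        obtain ⟨β, hβ, hi3⟩ := mem_iUnion₂.1 hi2
        obtain ⟨γ, hγ, hβγ⟩ := hα.2 β hβ
        exact ⟨γ, hγ, hcJ hβγ hi3⟩
      obtain ⟨β₀, hβ₀⟩ := hα.1
      choose! b hb1 hb2 using hex
      let s := (insert β₀ (((F (δ α)).filter (· ∈ J α)).image b))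
      have hs : s.Nonempty := Finset.insert_nonempty _ _
      refine ⟨s.max' hs, fun _ => ⟨?_, ?_⟩⟩
      · rw [Finset.max'_lt_iff]
        intro x hx
        rcases Finset.mem_insert.1 hx with rfl | hx
        · exact hβ₀
        · obtain ⟨i, hi, rfl⟩ := Finset.mem_image.1 hx
          exact hb1 i hi
      · rintro i ⟨hi1, hi2⟩
        have hi : i ∈ (F (δ α)).filter (· ∈ J α) := Finset.mem_filter.2 ⟨hi1, hi2⟩
        refine hJmono (s.le_max' (b i) ?_) (hb2 i hi)
        exact Finset.mem_insert_of_mem (Finset.mem_image_of_mem b hi)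
    · exact ⟨α, fun h => absurd h hα⟩
  choose g hg using h2
  obtain ⟨γ, hγ⟩ := press (g := g) fun α hα => (hg α hα).1
  -- a fixed root
  have h3 : ∃ R : Finset ι, ¬ {α | (IsLim α ∧ g α ≤ γ) ∧ (F (δ α)).filter (· ∈ J α) = R}.Countable := by
    by_contra hcon
    push Not at hcon
    apply hγ
    have hcR : {R : Finset ι | (R : Set ι) ⊆ J γ}.Countable := by
      have := Set.countable_ofPred_finite_subset (hJ γ)
      refine (this.preimage (f := fun R : Finset ι => (R : Set ι)) Finset.coe_injective).mono ?_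
      intro R hR
      exact ⟨R.finite_toSet, hR⟩
    refine (hcR.biUnion fun R _ => hcon R).mono ?_
    rintro α ⟨hα, hgα⟩
    refine mem_iUnion₂.2 ⟨(F (δ α)).filter (· ∈ J α), ?_, ⟨hα, hgα⟩, rfl⟩
    intro i hi
    obtain ⟨hi1, hi2⟩ := Finset.mem_filter.1 (Finset.mem_coe.1 hi)
    exact hJmono hgα ((hg α hα).2 ⟨hi1, hi2⟩)
  obtain ⟨R, hR⟩ := h3
  have h4 : ∃ ρ : ∀ i : R, X i, ¬ {α | ((IsLim α ∧ g α ≤ γ) ∧
      (F (δ α)).filter (· ∈ J α) = R) ∧ ∀ i : R, (δ α).1 i = ρ i}.Countable := by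
    by_contra hcon
    push Not at hcon
    apply hR
    have hcρ : (Set.pi univ fun i : R => Y i).Countable :=
      Set.countable_univ_pi fun i => hY i
    refine (hcρ.biUnion fun ρ _ => hcon ρ).mono ?_
    rintro α ⟨hα, hRα⟩
    refine mem_iUnion₂.2 ⟨fun i => (δ α).1 i, ?_, ⟨hα, hRα⟩, fun _ => rfl⟩
    rintro ⟨i, hi⟩ _
    rw [← hRα] at hi
    have := hΦ1 (J α) (hJ α) i (Finset.mem_filter.1 hi).2
    rw [← hδ] at this
    exact this
  obtain ⟨ρ, hρ⟩ := h4
  set S := {α | ((IsLim α ∧ g α ≤ γ) ∧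
      (F (δ α)).filter (· ∈ J α) = R) ∧ ∀ i : R, (δ α).1 i = ρ i} with hS
  -- two indices with the same member of the cover
  have h5 : ∃ α ∈ S, ∃ β ∈ S, α < β ∧ τ (δ α) = τ (δ β) := by
    by_contra hcon
    push Not at hcon
    obtain ⟨α₀, hα₀⟩ : S.Nonempty := by
      rw [nonempty_iff_ne_empty]
      intro h
      rw [h] at hρ
      exact hρ countable_empty
    -- the point near which infinitely many members occur
    let y := δ α₀
    have hyρ : ∀ i : R, y.1 i = ρ i := hα₀.2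
    have hinj : InjOn (fun α => τ (δ α)) S := by
      intro α hα β hβ h
      rcases lt_trichotomy α β with h' | h' | h'
      · exact absurd h (hcon α hα β hβ h')
      · exact h'
      · exact absurd h.symm (hcon β hβ α hα h')
    -- the indices whose box meets the box of `y` outside the root
    have hbad : {α ∈ S | ∃ i ∈ F y, i ∈ F (δ α) ∧ i ∉ R}.Finite := by
      have hsub : {α ∈ S | ∃ i ∈ F y, i ∈ F (δ α) ∧ i ∉ R} ⊆
          ⋃ i ∈ F y, {α ∈ S | i ∈ F (δ α) ∧ i ∉ R} := by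
        rintro α ⟨hα, i, hi, h⟩
        exact mem_iUnion₂.2 ⟨i, hi, hα, h⟩
      refine Finite.subset ((F y).finite_toSet.biUnion fun i _ => ?_) hsub
      refine Set.Subsingleton.finite ?_
      have hlt : ∀ α ∈ S, ∀ β ∈ S, α < β → i ∈ F (δ α) → i ∈ F (δ β) → i ∈ R := by
        intro α _ β hβ h h1 h2
        rw [← hβ.1.2]
        exact Finset.mem_filter.2 ⟨h2, hcJ h (Or.inl h1)⟩
      rintro α ⟨hα, hiα, hiR⟩ β ⟨hβ, hiβ, _⟩
      rcases lt_trichotomy α β with h' | h' | h'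
      · exact absurd (hlt α hα β hβ h' hiα hiβ) hiR
      · exact h'
      · exact absurd (hlt β hβ α hα h' hiβ hiα) hiR
    have hinf : (S \ {α ∈ S | ∃ i ∈ F y, i ∈ F (δ α) ∧ i ∉ R}).Infinite := by
      have hSinf : S.Infinite := fun h => hρ h.countable
      exact hSinf.sdiff hbad
    have himg : ((fun α => τ (δ α)) '' (S \ {α ∈ S | ∃ i ∈ F y, i ∈ F (δ α) ∧ i ∉ R})).Infinite :=
      hinf.image (hinj.mono sdiff_subset)
    apply himg
    refine (hFfin y).subset ?_
    rintro _ ⟨α, ⟨hα, hnb⟩, rfl⟩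
    have hnb' : ∀ i ∈ F y, i ∈ F (δ α) → i ∈ R := by
      intro i hi hi'
      by_contra hiR
      exact hnb ⟨hα, i, hi, hi', hiR⟩
    -- a common point of the boxes
    obtain ⟨w, hwD, hw⟩ := hD ((F y : Set ι) ∪ F (δ α))
      ((F y).countable_toSet.union (F (δ α)).countable_toSet)
      (fun i => if i ∈ F y then y.1 i else (δ α).1 i)
    refine ⟨⟨w, hwD⟩, hFV (δ α) ⟨w, hwD⟩ ?_, ?_⟩
    · intro i hi
      have h6 := hw i (Or.inr hi)
      show w i ∈ u (δ α) i
      by_cases hiy : i ∈ F y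
      · rw [if_pos hiy] at h6
        have hiR := hnb' i hiy hi
        have e1 := hyρ ⟨i, hiR⟩
        have e2 := hα.2 ⟨i, hiR⟩
        have e3 : w i = (δ α).1 i := h6.trans (e1.trans e2.symm)
        rw [e3]
        exact hdu (δ α) i
      · rw [if_neg hiy] at h6
        rw [h6]
        exact hdu (δ α) i
    · intro i hi
      have h6 := hw i (Or.inl hi)
      rw [if_pos hi] at h6
      show w i ∈ u y i
      rw [h6]
      exact hdu y i
  obtain ⟨α, hα, β, hβ, hlt, he⟩ := h5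
  refine ⟨τ (δ β), J β, δ β, hJ β, ?_, hτ (δ β), ?_⟩
  · rw [← he]
    exact fun i hi => hcJ hlt (Or.inr hi)
  · have := hΦ2 (J β) (hJ β)
    rw [← hδ] at this
    exact this

end Q175.Fill
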