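import Mathlib
import Pool.Agent.Q175.Fill

/-!
# Paracompact subspaces that fill all countable subproducts
-/

open Set Filter Topology
open Q175.O1

namespace Q175.Fill

variable {ι : Type*} {X : ι → Type*} [∀ i, TopologicalSpace (X i)]

/-- Factors are regular if `D` is. -/
theorem regular_factor [∀ i, Nonempty (X i)] {D : Set (∀ i, X i)} (hD : FillsCountable D)
    [RegularSpace D] (i : ι) : RegularSpace (X i) := by
  classical
  refine RegularSpace.of_exists_mem_nhds_isClosed_subset fun a s hs => ?_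
  obtain ⟨W, hWs, hW, ha⟩ := mem_nhds_iff.1 hs
  obtain ⟨d, hdD, hd⟩ := hD {i} (countable_singleton i)
    (Function.update (fun j => Classical.arbitrary (X j)) i a)
  have hdi : d i = a := by
    rw [hd i rfl, Function.update_self]
  let d' : D := ⟨d, hdD⟩
  have h1 : {y : D | y.1 i ∈ W} ∈ 𝓝 d' := by
    have h2 : Continuous fun y : D => y.1 i := (continuous_apply i).comp continuous_subtype_val
    refine (hW.preimage h2).mem_nhds ?_
    show d i ∈ W
    rw [hdi]
    exact ha
  obtain ⟨C, hC, hCcl, hCsub⟩ := exists_mem_nhds_isClosed_subset h1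
  obtain ⟨F, u, hu, hdu, hsub⟩ := exists_box hC
  refine ⟨closure (u i), ?_, isClosed_closure, ?_⟩
  · rw [← hdi]
    exact mem_of_superset ((hu i).mem_nhds (hdu i)) subset_closure
  refine Subset.trans ?_ hWs
  intro z hz
  obtain ⟨e, heD, he⟩ := hD (insert i (F : Set ι)) ((F.countable_toSet).insert i)
    (Function.update d i z)
  let e' : D := ⟨e, heD⟩
  have h3 : e' ∈ closure C := by
    rw [mem_closure_iff_nhds]
    intro N hN
    obtain ⟨F', u', hu', hdu', hsub'⟩ := exists_box hN
    have hz' : e i = z := by rw [he i (mem_insert _ _), Function.update_self]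
    obtain ⟨z', hz1, hz2⟩ := mem_closure_iff.1 hz (u' i) (hu' i) (by
      rw [← hz']
      exact hdu' i)
    obtain ⟨w, hwD, hw⟩ := hD (insert i ((F : Set ι) ∪ F'))
      (((F.countable_toSet).union F'.countable_toSet).insert i) (Function.update e i z')
    refine ⟨⟨w, hwD⟩, hsub' _ ?_, hsub _ ?_⟩
    · intro j hj
      have h4 := hw j (mem_insert_of_mem _ (Or.inr hj))
      show w j ∈ u' j
      by_cases hji : j = i
      · subst hji
        rw [h4, Function.update_self]
        exact hz1
      · rw [h4, Function.update_of_ne hji]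
        exact hdu' j
    · intro j hj
      have h4 := hw j (mem_insert_of_mem _ (Or.inl hj))
      show w j ∈ u j
      by_cases hji : j = i
      · subst hji
        rw [h4, Function.update_self]
        exact hz2
      · rw [h4, Function.update_of_ne hji, he j (mem_insert_of_mem _ hj),
          Function.update_of_ne hji]
        exact hdu j
  rw [hCcl.closure_eq] at h3
  have h5 : e i ∈ W := hCsub h3
  rwa [he i (mem_insert _ _), Function.update_self] at h5

/-- A paracompact Hausdorff `D` that fills countable subproducts meets every inseparability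
class of the product. -/
theorem exists_inseparable [∀ i, Nonempty (X i)] {D : Set (∀ i, X i)} (hD : FillsCountable D)
    [T2Space D] [ParacompactSpace D] (x : ∀ i, X i) :
    ∃ d : D, ∀ i, Inseparable (d.1 i) (x i) := by
  classical
  have hreg : ∀ i, RegularSpace (X i) := fun i => regular_factor hD i
  by_contra hcon
  push Not at hcon
  have h1 : ∀ d : D, ∃ i, ∃ W : Set (X i), IsOpen W ∧ d.1 i ∈ W ∧ x i ∉ W := by
    intro d
    obtain ⟨i, hi⟩ := hcon d
    refine ⟨i, ?_⟩
    by_contra hno
    push Not at hno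
    apply hi
    have h2 : x i ⤳ d.1 i := specializes_iff_forall_open.2 hno
    exact (specializes_iff_inseparable.1 h2).symm
  choose i W hWo hdW hxW using h1
  obtain ⟨V, hVo, hcov, hlf, hVu⟩ := precise_refinement (fun d : D => {y : D | y.1 (i d) ∈ W d})
    (fun d => (hWo d).preimage ((continuous_apply _).comp continuous_subtype_val))
    (iUnion_eq_univ_iff.2 fun d => ⟨d, hdW d⟩)
  obtain ⟨t, J, d, _, htJ, hd, hP⟩ := key hD hVo (fun d => mem_iUnion.1 (hcov ▸ mem_univ d)) hlf
    (fun i => {x i}) (fun i => countable_singleton _) (fun d => {i d})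
    (fun J d => ∀ i ∈ J, d.1 i = x i) (fun J hJ => by
      obtain ⟨d, hdD, hd⟩ := hD J hJ x
      exact ⟨⟨d, hdD⟩, hd, hd⟩)
  have h3 : d.1 (i t) ∈ W t := hVu t hd
  rw [hP (i t) (htJ (by simp))] at h3
  exact hxW t h3

/-- Factors are paracompact if `D` is paracompact Hausdorff. -/
theorem paracompact_factor {ι : Type*} {X : ι → Type*} [∀ i, TopologicalSpace (X i)]
    [∀ i, Nonempty (X i)] {D : Set (∀ i, X i)} (hD : FillsCountable D)
    [T2Space D] [ParacompactSpace D] (i : ι) : ParacompactSpace (X i) := by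
  classical
  refine ⟨fun S G hG hGcov => ?_⟩
  let x₀ : ∀ j, X j := fun j => Classical.arbitrary (X j)
  choose j hj using fun z : X i => exists_inseparable hD (Function.update x₀ i z)
  have hins : ∀ z, Inseparable (j z).1 (Function.update x₀ i z) := fun z =>
    inseparable_pi.2 (hj z)
  have hmem : ∀ (z : X i) {O : Set (∀ i, X i)}, IsOpen O →
      ((j z).1 ∈ O ↔ Function.update x₀ i z ∈ O) := fun z O hO => (hins z).mem_open_iff hO
  have hupd : Continuous fun z : X i => Function.update x₀ i z :=
    continuous_const.update i continuous_id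
  obtain ⟨V, hVo, hcov, hlf, hVu⟩ := precise_refinement (fun s : S => {y : D | y.1 i ∈ G s})
    (fun s => (hG s).preimage ((continuous_apply _).comp continuous_subtype_val))
    (iUnion_eq_univ_iff.2 fun d => by
      have h0 : d.1 i ∈ ⋃ a, G a := by
        rw [hGcov]
        exact mem_univ _
      obtain ⟨s, hs⟩ := mem_iUnion.1 h0
      exact ⟨s, hs⟩)
  refine ⟨S, fun s => {z | j z ∈ V s}, ?_, ?_, ?_, ?_⟩
  · intro s
    obtain ⟨O, hO, hOV⟩ := isOpen_induced_iff.1 (hVo s)
    have : {z | j z ∈ V s} = (fun z : X i => Function.update x₀ i z) ⁻¹' O := by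
      ext z
      rw [← hOV]
      exact hmem z hO
    have h0 := hO.preimage hupd
    rw [← this] at h0
    exact h0
  · refine iUnion_eq_univ_iff.2 fun z => ?_
    have h0 : j z ∈ ⋃ s, V s := by
      rw [hcov]
      exact mem_univ _
    obtain ⟨s, hs⟩ := mem_iUnion.1 h0
    exact ⟨s, hs⟩
  · intro z
    obtain ⟨N, hN, hfin⟩ := hlf (j z)
    obtain ⟨N', hN'N, hN'o, hN'z⟩ := mem_nhds_iff.1 hN
    obtain ⟨O, hO, hON⟩ := isOpen_induced_iff.1 hN'o
    refine ⟨(fun z : X i => Function.update x₀ i z) ⁻¹' O, (hO.preimage hupd).mem_nhds ?_,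
      hfin.subset ?_⟩
    · rw [← hON] at hN'z
      exact (hmem z hO).1 hN'z
    · rintro s ⟨z', hz', hz''⟩
      refine ⟨j z', hz', hN'N ?_⟩
      rw [← hON]
      exact (hmem z' hO).2 hz''
  · intro s
    refine ⟨s, fun z hz => ?_⟩
    have h1 : (j z).1 i ∈ G s := hVu s hz
    have h2 := hj z i
    rw [Function.update_self] at h2
    exact (h2.mem_open_iff (hG s)).1 h1

/-- A non-compact paracompact `R₀`-space has a countable open cover with a sequence of points each
of which lies in exactly one member. -/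
theorem exists_cover {X : Type*} [TopologicalSpace X] [ParacompactSpace X] [R0Space X]
    (hX : ¬ CompactSpace X) : ∃ (W : ℕ → Set X) (a : ℕ → X), (∀ n, IsOpen (W n)) ∧
      (∀ x, ∃ n, x ∈ W n) ∧ ∀ n m, a n ∈ W m → n = m := by
  classical
  -- a locally finite sequence of points
  have h1 : ∃ v : ℕ → X, ∀ x, ∃ N ∈ 𝓝 x, {n | v n ∈ N}.Finite := by
    rw [← isCompact_univ_iff] at hX
    have h2 : ∃ (S : Type _) (G : S → Set X), (∀ s, IsOpen (G s)) ∧ (⋃ s, G s = univ) ∧
        ∀ t : Finset S, ¬ (univ : Set X) ⊆ ⋃ s ∈ t, G s := by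
      by_contra hcon
      push Not at hcon
      apply hX
      exact isCompact_of_finite_subcover fun {S} G hG hcov =>
        hcon S G hG (univ_subset_iff.1 hcov)
    obtain ⟨S, G, hG, hcov, hno⟩ := h2
    obtain ⟨V, hVo, hVcov, hlf, hVG⟩ := precise_refinement G hG hcov
    have hinf : {s | (V s).Nonempty}.Infinite := by
      intro hfin
      apply hno hfin.toFinset
      intro x _
      obtain ⟨s, hs⟩ := mem_iUnion.1 (hVcov ▸ mem_univ x)
      exact mem_iUnion₂.2 ⟨s, hfin.mem_toFinset.2 ⟨x, hs⟩, hVG s hs⟩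
    let φ := hinf.natEmbedding
    choose v hv using fun n => (φ n).2
    refine ⟨v, fun x => ?_⟩
    obtain ⟨N, hN, hfin⟩ := hlf x
    refine ⟨N, hN, ?_⟩
    have : MapsTo (fun n => (φ n).1) {n | v n ∈ N} {s | (V s ∩ N).Nonempty} :=
      fun n hn => ⟨v n, hv n, hn⟩
    exact Finite.of_injOn this
      ((Subtype.val_injective.comp φ.injective).injOn) hfin
  obtain ⟨v, hv⟩ := h1
  -- representatives of the inseparability classes
  have h3 : {n | ∀ m < n, ¬ Inseparable (v m) (v n)}.Infinite := by
    intro hfin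
    have h4 : (univ : Set ℕ) ⊆ ⋃ m ∈ {n | ∀ m < n, ¬ Inseparable (v m) (v n)},
        {n | Inseparable (v m) (v n)} := by
      intro n _
      have hex : ∃ m, Inseparable (v m) (v n) := ⟨n, Inseparable.refl _⟩
      refine mem_iUnion₂.2 ⟨Nat.find hex, ?_, Nat.find_spec hex⟩
      intro m hm hins
      exact Nat.find_min hex hm (hins.trans (Nat.find_spec hex))
    refine infinite_univ ((hfin.biUnion fun m _ => ?_).subset h4)
    obtain ⟨N, hN, hNfin⟩ := hv (v m)
    refine hNfin.subset fun n hn => ?_
    obtain ⟨O, hON, hO, hmO⟩ := mem_nhds_iff.1 hN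
    exact hON ((Inseparable.mem_open_iff hn hO).1 hmO)
  let φ := h3.natEmbedding
  let a : ℕ → X := fun n => v (φ n)
  have ha : ∀ n m, n ≠ m → ¬ Inseparable (a n) (a m) := by
    have : ∀ n m, (φ n).1 < (φ m).1 → ¬ Inseparable (a n) (a m) := by
      intro n m hlt
      exact (φ m).2 _ hlt
    intro n m hnm hins
    have hne : (φ n).1 ≠ (φ m).1 := fun h => hnm (φ.injective (Subtype.ext h))
    rcases lt_or_gt_of_ne hne with h | h
    · exact this n m h hins
    · exact this m n h hins.symm
  have hcl : ∀ x n, x ∈ closure {a n} ↔ Inseparable x (a n) := by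
    intro x n
    rw [← specializes_iff_mem_closure, specializes_iff_inseparable]
    exact ⟨Inseparable.symm, Inseparable.symm⟩
  have hlf : LocallyFinite fun n => closure {a n} := by
    have : LocallyFinite fun n => ({a n} : Set X) := by
      intro x
      obtain ⟨N, hN, hfin⟩ := hv x
      refine ⟨N, hN, ?_⟩
      have hmt : MapsTo (fun n => (φ n).1) {n | (({a n} : Set X) ∩ N).Nonempty} {n | v n ∈ N} := by
        rintro n ⟨_, rfl, h⟩
        exact h
      exact Finite.of_injOn hmt ((Subtype.val_injective.comp φ.injective).injOn) hfin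
    exact this.closure
  refine ⟨fun n => (⋃ m : {m // m ≠ n}, closure {a m})ᶜ, a, ?_, ?_, ?_⟩
  · intro n
    rw [isOpen_compl_iff]
    exact (hlf.comp_injective Subtype.val_injective).isClosed_iUnion fun _ => isClosed_closure
  · intro x
    by_cases hx : ∃ n, Inseparable x (a n)
    · obtain ⟨n, hn⟩ := hx
      refine ⟨n, ?_⟩
      rw [mem_compl_iff, mem_iUnion]
      rintro ⟨⟨m, hm⟩, h⟩
      rw [hcl] at h
      exact ha m n hm (h.symm.trans hn)
    · refine ⟨0, ?_⟩
      rw [mem_compl_iff, mem_iUnion]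
      rintro ⟨⟨m, hm⟩, h⟩
      rw [hcl] at h
      exact hx ⟨m, h⟩
  · intro n m h
    by_contra hne
    exact h (mem_iUnion.2 ⟨⟨n, hne⟩, subset_closure rfl⟩)

/-- If a paracompact Hausdorff subspace fills all countable subproducts, then all but countably
many factors are compact. -/
theorem countable_noncompact {ι : Type*} {X : ι → Type*} [∀ i, TopologicalSpace (X i)]
    [∀ i, Nonempty (X i)] {D : Set (∀ i, X i)} (hD : FillsCountable D)
    [T2Space D] [ParacompactSpace D] : {i | ¬ CompactSpace (X i)}.Countable := by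
  classical
  by_contra hunc
  have hpar : ∀ i, ParacompactSpace (X i) := fun i => paracompact_factor hD i
  have hreg : ∀ i, RegularSpace (X i) := fun i => regular_factor hD i
  have h1 : ∀ i, ∃ (W : ℕ → Set (X i)) (a : ℕ → X i), ¬ CompactSpace (X i) →
      (∀ n, IsOpen (W n)) ∧ (∀ x, ∃ n, x ∈ W n) ∧ ∀ n m, a n ∈ W m → n = m := by
    intro i
    by_cases hi : CompactSpace (X i)
    · exact ⟨fun _ => univ, fun _ => Classical.arbitrary _, fun h => absurd hi h⟩
    · obtain ⟨W, a, h⟩ := exists_cover hi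
      exact ⟨W, a, fun _ => h⟩
  choose W a hWa using h1
  let T := {t : ι × ι × ℕ // ¬ CompactSpace (X t.1) ∧ ¬ CompactSpace (X t.2.1) ∧ t.1 ≠ t.2.1}
  let u : T → Set D := fun t => {y | y.1 t.1.1 ∈ W t.1.1 t.1.2.2 ∧ y.1 t.1.2.1 ∈ W t.1.2.1 t.1.2.2}
  have hu : ∀ t, IsOpen (u t) := by
    intro t
    have h2 : ∀ i, Continuous fun y : D => y.1 i := fun i =>
      (continuous_apply i).comp continuous_subtype_val
    exact (((hWa _ t.2.1).1 _).preimage (h2 _)).inter (((hWa _ t.2.2.1).1 _).preimage (h2 _))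
  have hucov : ⋃ t, u t = univ := by
    refine iUnion_eq_univ_iff.2 fun y => ?_
    by_contra hno
    push Not at hno
    apply hunc
    choose! n hn using fun i (hi : ¬ CompactSpace (X i)) => (hWa i hi).2.1 (y.1 i)
    have hinj : InjOn n {i | ¬ CompactSpace (X i)} := by
      intro i hi j hj hij
      by_contra hne
      refine hno ⟨(i, j, n i), hi, hj, hne⟩ ⟨hn i hi, ?_⟩
      show y.1 j ∈ W j (n i)
      rw [show n i = n j from hij]
      exact hn j hj
    exact MapsTo.countable_of_injOn (mapsTo_univ _ _) hinj (to_countable univ)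
  obtain ⟨V, hVo, hcov, hlf, hVu⟩ := precise_refinement u hu hucov
  let x₀ : ∀ j, X j := fun j => Classical.arbitrary (X j)
  obtain ⟨t, J, d, _, htJ, hd, hP⟩ := key hD hVo (fun d => mem_iUnion.1 (hcov ▸ mem_univ d)) hlf
    (fun i => insert (x₀ i) (range (a i))) (fun i => (countable_range _).insert _)
    (fun t => {t.1.1, t.1.2.1})
    (fun J d => ∀ i ∈ J, ∀ j ∈ J, ¬ CompactSpace (X i) → ¬ CompactSpace (X j) → i ≠ j →
      ∀ n, d.1 i ∈ W i n → d.1 j ∉ W j n) (fun J hJ => by
      have : Countable J := hJ.to_subtype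
      obtain ⟨e, he⟩ := exists_injective_nat J
      obtain ⟨d, hdD, hd⟩ := hD J hJ (fun i => if h : i ∈ J then a i (e ⟨i, h⟩) else x₀ i)
      have hd' : ∀ (i : ι) (hi : i ∈ J), d i = a i (e ⟨i, hi⟩) := by
        intro i hi
        rw [hd i hi, dif_pos hi]
      refine ⟨⟨d, hdD⟩, fun i hi => ?_, ?_⟩
      · show d i ∈ insert (x₀ i) (range (a i))
        rw [hd' i hi]
        exact Or.inr ⟨_, rfl⟩
      · intro i hi j hj hci hcj hij n hin hjn
        have h3 : d i ∈ W i n := hin
        have h4 : d j ∈ W j n := hjn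
        rw [hd' i hi] at h3
        rw [hd' j hj] at h4
        have h5 := (hWa i hci).2.2 _ _ h3
        have h6 := (hWa j hcj).2.2 _ _ h4
        exact hij (congrArg Subtype.val (he (h5.trans h6.symm))))
  obtain ⟨h7, h8⟩ := hVu t hd
  exact hP t.1.1 (htJ (by simp)) t.1.2.1 (htJ (by simp)) t.2.1 t.2.2.1 t.2.2.2 _ h7 h8

end Q175.Fill
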