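import Mathlib
import Pool.Agent.Q177.KOmega
import Pool.Agent.Q177.FreeTop

/-!
# The free topological group of a compact zero-dimensional space is a `k_ω`-space
-/

set_option autoImplicit false

universe u v

namespace Q175.FreeKO

open Set Topology Filter FreeGroup Q177.FreeTop Q177.KOmega

variable {K : Type u}

/-- words with given signs -/
def wd {n : ℕ} (b : Fin n → Bool) (x : Fin n → K) : FreeGroup K :=
  FreeGroup.mk (List.ofFn fun i => (x i, b i))

lemma map_wd {L : Type v} (g : K → L) {n : ℕ} (b : Fin n → Bool) (x : Fin n → K) :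
    FreeGroup.map g (wd b x) = wd b (fun i => g (x i)) := by
  unfold wd
  rw [FreeGroup.map.mk, List.map_ofFn]
  rfl

lemma exists_ofFn (L : List (K × Bool)) : ∃ (b : Fin L.length → Bool) (x : Fin L.length → K),
    FreeGroup.mk L = wd b x := by
  refine ⟨fun i => (L.get i).2, fun i => (L.get i).1, ?_⟩
  unfold wd
  congr 1
  exact (List.ofFn_get L).symm

lemma exists_wd (w : FreeGroup K) : ∃ (n : ℕ) (b : Fin n → Bool) (x : Fin n → K), w = wd b x := by
  obtain ⟨L, rfl⟩ := Quot.exists_rep w
  obtain ⟨b, x, h⟩ := exists_ofFn L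
  exact ⟨_, b, x, h⟩

lemma wd_eq_prod {n : ℕ} (b : Fin n → Bool) (x : Fin n → K) :
    wd b x = ((List.finRange n).map fun i => cond (b i) (FreeGroup.of (x i))
      (FreeGroup.of (x i))⁻¹).prod := by
  have h : FreeGroup.lift FreeGroup.of (wd b x) = wd b x := by
    rw [FreeGroup.lift_of_eq_id]
    rfl
  rw [← h]
  unfold wd
  rw [FreeGroup.lift_mk, List.ofFn_eq_map, List.map_map]
  rfl

lemma continuous_wd [TopologicalSpace K] [TopologicalSpace (FreeGroup K)]
    [IsTopologicalGroup (FreeGroup K)] (hof : Continuous (FreeGroup.of : K → FreeGroup K))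
    {n : ℕ} (b : Fin n → Bool) : Continuous (wd b : (Fin n → K) → FreeGroup K) := by
  have : (wd b : (Fin n → K) → FreeGroup K) = fun x => ((List.finRange n).map fun i =>
      cond (b i) (FreeGroup.of (x i)) (FreeGroup.of (x i))⁻¹).prod := funext fun x => wd_eq_prod b x
  rw [this]
  refine continuous_list_prod _ fun i _ => ?_
  cases b i
  · exact (hof.comp (continuous_apply i)).inv
  · exact hof.comp (continuous_apply i)

/-- words of length at most `m` -/
def F (K : Type u) (m : ℕ) : Set (FreeGroup K) :=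
  {w | ∃ L : List (K × Bool), L.length ≤ m ∧ FreeGroup.mk L = w}

lemma F_eq (m : ℕ) : F K m = ⋃ n : Fin (m + 1), ⋃ b : Fin n → Bool,
    range (wd b : (Fin n → K) → FreeGroup K) := by
  ext w
  simp only [mem_iUnion, mem_range]
  constructor
  · rintro ⟨L, hL, rfl⟩
    obtain ⟨b, x, h⟩ := exists_ofFn L
    exact ⟨⟨L.length, by omega⟩, b, x, h.symm⟩
  · rintro ⟨n, b, x, rfl⟩
    refine ⟨_, ?_, rfl⟩
    rw [List.length_ofFn]
    omega

lemma F_mono : Monotone (F K) := by
  rintro m m' h w ⟨L, hL, rfl⟩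
  exact ⟨L, hL.trans h, rfl⟩

lemma exists_F (w : FreeGroup K) : ∃ m, w ∈ F K m := by
  obtain ⟨L, rfl⟩ := Quot.exists_rep w
  exact ⟨_, L, le_rfl, rfl⟩

lemma mul_mem_F {m n : ℕ} {w v : FreeGroup K} (hw : w ∈ F K m) (hv : v ∈ F K n) :
    w * v ∈ F K (m + n) := by
  obtain ⟨L, hL, rfl⟩ := hw
  obtain ⟨M, hM, rfl⟩ := hv
  refine ⟨L ++ M, ?_, rfl⟩
  rw [List.length_append]
  omega

lemma inv_mem_F {m : ℕ} {w : FreeGroup K} (hw : w ∈ F K m) : w⁻¹ ∈ F K m := by
  obtain ⟨L, hL, rfl⟩ := hw
  refine ⟨FreeGroup.invRev L, ?_, by simp⟩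
  rw [FreeGroup.invRev_length]
  exact hL

lemma map_mem_F {L : Type v} (g : K → L) {m : ℕ} {w : FreeGroup K} (hw : w ∈ F K m) :
    FreeGroup.map g w ∈ F L m := by
  obtain ⟨M, hM, rfl⟩ := hw
  refine ⟨_, ?_, (FreeGroup.map.mk).symm⟩
  rw [List.length_map]
  exact hM

lemma one_mem_F (m : ℕ) : (1 : FreeGroup K) ∈ F K m := ⟨[], by simp, rfl⟩

lemma of_mem_F (x : K) : FreeGroup.of x ∈ F K 1 := ⟨[(x, true)], by simp, rfl⟩

section comp

variable [TopologicalSpace K] [CompactSpace K] [TopologicalSpace (FreeGroup K)]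

lemma isCompact_F (h : IsFreeTop K) (m : ℕ) : IsCompact (F K m) := by
  have := h.grp
  rw [F_eq]
  exact isCompact_iUnion fun n => isCompact_iUnion fun b => isCompact_range (continuous_wd h.cont b)

/-- the `k_ω`-topology is a group topology -/
def kGroup (h : IsFreeTop K) : GroupTopology (FreeGroup K) :=
  ⟨kTop (F K), by
    have hg := h.grp
    refine @IsTopologicalGroup.mk (FreeGroup K) (kTop (F K)) _ ?_ ?_
    · refine @ContinuousMul.mk (FreeGroup K) (kTop (F K)) _ ?_
      refine continuous_kTop₂ (isCompact_F h) F_mono exists_F (isCompact_F h) F_mono exists_F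
        (fun p : FreeGroup K × FreeGroup K => p.1 * p.2) continuous_mul fun m => ⟨m + m, ?_⟩
      rintro ⟨p, q⟩ ⟨hp, hq⟩
      exact mul_mem_F hp hq
    · refine @ContinuousInv.mk (FreeGroup K) (kTop (F K)) _ ?_
      rw [@continuous_def]
      intro U hU m
      obtain ⟨O, hO, hUO⟩ := hU m
      refine ⟨(fun w => w⁻¹) ⁻¹' O, hO.preimage continuous_inv, ?_⟩
      ext w
      constructor
      · rintro ⟨hw, hwF⟩
        have : w⁻¹ ∈ O ∩ F K m := by
          rw [← hUO]
          exact ⟨hw, inv_mem_F hwF⟩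
        exact ⟨this.1, hwF⟩
      · rintro ⟨hw, hwF⟩
        have : w⁻¹ ∈ U ∩ F K m := by
          rw [hUO]
          exact ⟨hw, inv_mem_F hwF⟩
        exact ⟨this.1, hwF⟩⟩

lemma isOpen_of_kTop (h : IsFreeTop K) {U : Set (FreeGroup K)}
    (hU : ∀ m, ∃ O, IsOpen O ∧ U ∩ F K m = O ∩ F K m) : IsOpen U := by
  refine h.le (kGroup h) ?_ U hU
  rw [@continuous_def]
  intro V hV
  obtain ⟨O, hO, hVO⟩ := hV 1
  have : (FreeGroup.of : K → FreeGroup K) ⁻¹' V = FreeGroup.of ⁻¹' O := by
    ext x
    constructor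
    · intro hx
      have : FreeGroup.of x ∈ O ∩ F K 1 := by
        rw [← hVO]
        exact ⟨hx, of_mem_F x⟩
      exact this.1
    · intro hx
      have : FreeGroup.of x ∈ V ∩ F K 1 := by
        rw [hVO]
        exact ⟨hx, of_mem_F x⟩
      exact this.1
  rw [this]
  exact hO.preimage h.cont

/-- compact sets have bounded length -/
lemma compact_subset_F (h : IsFreeTop K) [T2Space (FreeGroup K)] {C : Set (FreeGroup K)}
    (hC : IsCompact C) : ∃ m, C ⊆ F K m := by
  by_contra hcon
  push Not at hcon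
  choose c hcC hcF using fun m => not_subset.1 (hcon m)
  let U : ℕ → Set (FreeGroup K) := fun k => (c '' {j | k ≤ j})ᶜ
  have hU : ∀ k, IsOpen (U k) := by
    intro k
    refine isOpen_of_kTop h fun m => ⟨(c '' {j | k ≤ j ∧ j < m})ᶜ, ?_, ?_⟩
    · refine Set.Finite.isClosed ?_ |>.isOpen_compl
      exact ((finite_lt_nat m).subset fun j hj => hj.2).image _
    · ext w
      constructor
      · rintro ⟨hw, hwF⟩
        refine ⟨fun hw' => hw ?_, hwF⟩
        obtain ⟨j, hj, rfl⟩ := hw'
        exact ⟨j, hj.1, rfl⟩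
      · rintro ⟨hw, hwF⟩
        refine ⟨fun hw' => hw ?_, hwF⟩
        obtain ⟨j, hj, rfl⟩ := hw'
        refine ⟨j, ⟨hj, ?_⟩, rfl⟩
        by_contra hjm
        exact hcF j (F_mono (not_lt.1 hjm) hwF)
  have hmono : Monotone U := by
    intro k k' hk
    refine compl_subset_compl.2 (image_mono fun j hj => ?_)
    exact hk.trans hj
  have hcov : C ⊆ ⋃ k, U k := by
    intro w _
    obtain ⟨m, hm⟩ := exists_F w
    refine mem_iUnion.2 ⟨m, ?_⟩
    rintro ⟨j, hj, rfl⟩
    exact hcF j (F_mono hj hm)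
  obtain ⟨k, hk⟩ := hC.elim_directed_cover U hU hcov (directed_of_isDirected_le hmono)
  exact hk (hcC k) ⟨k, (le_refl k : k ≤ k), rfl⟩

/-- functions continuous on each space of words with given signs are continuous -/
lemma continuous_of_wd (h : IsFreeTop K) [T2Space (FreeGroup K)] (g : FreeGroup K → ℝ)
    (hg : ∀ (n : ℕ) (b : Fin n → Bool), Continuous fun x : Fin n → K => g (wd b x)) :
    Continuous g := by
  have := h.grp
  rw [continuous_iff_isClosed]
  intro Z hZ
  rw [← isOpen_compl_iff]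
  refine isOpen_of_kTop h fun m => ⟨(g ⁻¹' Z ∩ F K m)ᶜ, ?_, ?_⟩
  · have h1 : g ⁻¹' Z ∩ F K m = ⋃ n : Fin (m + 1), ⋃ b : Fin n → Bool,
        (wd b : (Fin n → K) → FreeGroup K) '' {x | g (wd b x) ∈ Z} := by
      ext w
      rw [F_eq]
      simp only [mem_inter_iff, mem_preimage, mem_iUnion, mem_range, mem_image]
      constructor
      · rintro ⟨hw, n, b, x, rfl⟩
        exact ⟨n, b, x, hw, rfl⟩
      · rintro ⟨n, b, x, hx, rfl⟩
        exact ⟨hx, n, b, x, rfl⟩
    rw [h1]
    refine IsClosed.isOpen_compl (self := IsCompact.isClosed ?_)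
    refine isCompact_iUnion fun n => isCompact_iUnion fun b => ?_
    refine IsCompact.image ?_ (continuous_wd h.cont b)
    exact (hZ.preimage (hg n b)).isCompact
  · ext w
    constructor
    · rintro ⟨hw, hwF⟩
      exact ⟨fun h' => hw h'.1, hwF⟩
    · rintro ⟨hw, hwF⟩
      exact ⟨fun h' => hw ⟨h', hwF⟩, hwF⟩

end comp

/-- the free topological group of a space whose finite subsets are separated by continuous maps
to discrete spaces is Hausdorff -/
lemma t2_of_sep [TopologicalSpace K] [TopologicalSpace (FreeGroup K)] (h : IsFreeTop K)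
    (hsep : ∀ S : Set K, S.Finite → ∃ (D : Type u) (q : K → D),
      (∀ d, IsOpen (q ⁻¹' {d})) ∧ InjOn q S) : T2Space (FreeGroup K) := by
  classical
  have := h.grp
  refine IsTopologicalGroup.t2Space_of_one_sep fun w hw => ?_
  obtain ⟨n, b, x, rfl⟩ := exists_wd w
  obtain ⟨D, q, hq, hinj⟩ := hsep (range x) (finite_range x)
  let _ : TopologicalSpace (FreeGroup D) := ⊥
  have : DiscreteTopology (FreeGroup D) := ⟨rfl⟩
  let _ : TopologicalSpace D := ⊥
  have : DiscreteTopology D := ⟨rfl⟩
  have hqc : Continuous q := by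
    rw [continuous_discrete_rng]
    exact hq
  have hc : Continuous (FreeGroup.lift fun k => FreeGroup.of (q k)) :=
    h.continuous_lift _ ((continuous_of_discreteTopology (f := (FreeGroup.of : D → FreeGroup D))).comp hqc)
  refine ⟨(FreeGroup.lift fun k => FreeGroup.of (q k)) ⁻¹' {1}, ?_, ?_⟩
  · refine (hc.isOpen_preimage _ (isOpen_discrete _)).mem_nhds ?_
    simp
  · intro hmem
    have h1 : FreeGroup.map q (wd b x) = 1 := by
      have : FreeGroup.map q (wd b x) = FreeGroup.lift (fun k => FreeGroup.of (q k)) (wd b x) := by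
        rw [FreeGroup.map_eq_lift]
        rfl
      rw [this]
      exact hmem
    rcases Nat.eq_zero_or_pos n with rfl | hn
    · refine hw ?_
      unfold wd
      simp [FreeGroup.one_eq_mk]
    · let s : D → K := fun d => if hd : ∃ k ∈ range x, q k = d then hd.choose else x ⟨0, hn⟩
      have hs : ∀ i, s (q (x i)) = x i := by
        intro i
        have hd : ∃ k ∈ range x, q k = q (x i) := ⟨x i, mem_range_self i, rfl⟩
        simp only [s, dif_pos hd]
        exact hinj hd.choose_spec.1 (mem_range_self i) hd.choose_spec.2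
      have h2 : FreeGroup.map s (FreeGroup.map q (wd b x)) = wd b x := by
        rw [map_wd, map_wd]
        simp only [hs]
      rw [h1, _root_.map_one] at h2
      exact hw h2.symm

/-- continuity of induced homomorphisms -/
lemma continuous_map [TopologicalSpace K] [TopologicalSpace (FreeGroup K)] (h : IsFreeTop K)
    {L : Type v} [TopologicalSpace L] [TopologicalSpace (FreeGroup L)]
    [IsTopologicalGroup (FreeGroup L)] (hof : Continuous (FreeGroup.of : L → FreeGroup L))
    {g : K → L} (hg : Continuous g) : Continuous (FreeGroup.map g) := by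
  have : (FreeGroup.map g : FreeGroup K → FreeGroup L) =
      FreeGroup.lift fun k => FreeGroup.of (g k) := by
    funext w
    rw [FreeGroup.map_eq_lift]
    rfl
  rw [this]
  exact h.continuous_lift _ (hof.comp hg)

end Q175.FreeKO
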