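import Mathlib

/-!
# The punctured Cantor cube of uncountable weight: continuous real functions on its finite powers
depend on countably many coordinates
-/

set_option autoImplicit false

universe u v

namespace Q175.PunctCube

open Set Topology Filter

variable (A : Type u)

/-- the Cantor cube without the constant function `false` -/
@[reducible]
def T : Type u := {x : A → Bool // x ≠ fun _ => false}

variable {A}

open Classical in
/-- restrict to `C`, and put `true` elsewhere -/
noncomputable def pr (C : Set A) (x : A → Bool) : A → Bool := fun a => if a ∈ C then x a else true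

lemma pr_of_mem {C : Set A} {x : A → Bool} {a : A} (h : a ∈ C) : pr C x a = x a := if_pos h

lemma pr_of_notMem {C : Set A} {x : A → Bool} {a : A} (h : a ∉ C) : pr C x a = true := if_neg h

lemma pr_ne [Uncountable A] {C : Set A} (hC : C.Countable) (x : A → Bool) :
    pr C x ≠ fun _ => false := by
  obtain ⟨a, ha⟩ : ∃ a, a ∉ C := by
    by_contra h
    push Not at h
    exact not_countable_univ (hC.mono fun a _ => h a)
  intro h
  have := congrFun h a
  rw [pr_of_notMem ha] at this
  exact Bool.noConfusion this

lemma continuous_pr (C : Set A) : Continuous (pr C) := by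
  refine continuous_pi fun a => ?_
  by_cases h : a ∈ C
  · have : (fun x : A → Bool => pr C x a) = fun x => x a := funext fun x => pr_of_mem h
    rw [this]
    exact continuous_apply a
  · have : (fun x : A → Bool => pr C x a) = fun x => true := funext fun x => pr_of_notMem h
    rw [this]
    exact continuous_const

variable [Uncountable A]

/-- the projection with values in the punctured cube -/
noncomputable def prT (C : Set A) (hC : C.Countable) (x : A → Bool) : T A := ⟨pr C x, pr_ne hC x⟩

lemma continuous_prT (C : Set A) (hC : C.Countable) : Continuous (prT C hC) :=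
  Continuous.subtype_mk (continuous_pr C) _

/-- approximate dependence on the `Σ`-product -/
lemma dep_aux {ι : Type v} [Finite ι] (φ : (ι → T A) → ℝ) (hφ : Continuous φ) {ε : ℝ}
    (hε : 0 < ε) : ∃ C : Set A, C.Countable ∧ ∀ x y : ι → T A,
      (∀ i, {a | (x i).1 a = false}.Countable) → (∀ i, {a | (y i).1 a = false}.Countable) →
      (∀ i, ∀ a ∈ C, (x i).1 a = (y i).1 a) → |φ x - φ y| ≤ ε := by
  classical
  by_contra hcon
  push Not at hcon
  choose X Y hX hY hXY hφXY using fun C : {C : Set A // C.Countable} => hcon C.1 C.2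
  let step : {C : Set A // C.Countable} → {C : Set A // C.Countable} := fun C =>
    ⟨C.1 ∪ ((⋃ i, {a | (X C i).1 a = false}) ∪ ⋃ i, {a | (Y C i).1 a = false}),
      C.2.union ((countable_iUnion fun i => hX C i).union (countable_iUnion fun i => hY C i))⟩
  let Cs : ℕ → {C : Set A // C.Countable} := fun n => Nat.rec ⟨∅, countable_empty⟩
    (fun _ C => step C) n
  have hCs : ∀ n, Cs (n + 1) = step (Cs n) := fun n => rfl
  set D : Set A := ⋃ n, (Cs n).1 with hD
  have hDc : D.Countable := countable_iUnion fun n => (Cs n).2
  have hmono : Monotone fun n => (Cs n).1 := monotone_nat_of_le_succ fun n => by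
    rw [hCs]
    exact subset_union_left
  have hsub : ∀ n, (Cs n).1 ⊆ D := fun n => subset_iUnion (fun n => (Cs n).1) n
  have hXt : ∀ n i a, a ∉ D → (X (Cs n) i).1 a = true := by
    intro n i a ha
    by_contra h
    refine ha (hsub (n + 1) ?_)
    rw [hCs]
    exact Or.inr (Or.inl (mem_iUnion.2 ⟨i, by simpa using h⟩))
  have hYt : ∀ n i a, a ∉ D → (Y (Cs n) i).1 a = true := by
    intro n i a ha
    by_contra h
    refine ha (hsub (n + 1) ?_)
    rw [hCs]
    exact Or.inr (Or.inr (mem_iUnion.2 ⟨i, by simpa using h⟩))
  -- the compact set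
  let E : Set (ι → T A) := range fun (z : ι → A → Bool) (i : ι) => prT D hDc (z i)
  have hE : IsCompact E := isCompact_range
    (continuous_pi fun i => (continuous_prT D hDc).comp (continuous_apply i))
  have hXE : ∀ n, X (Cs n) ∈ E := by
    intro n
    refine ⟨fun i => (X (Cs n) i).1, ?_⟩
    funext i
    refine Subtype.ext (funext fun a => ?_)
    change pr D _ a = _
    by_cases ha : a ∈ D
    · rw [pr_of_mem ha]
    · rw [pr_of_notMem ha, hXt n i a ha]
  have hYE : ∀ n, Y (Cs n) ∈ E := by
    intro n
    refine ⟨fun i => (Y (Cs n) i).1, ?_⟩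
    funext i
    refine Subtype.ext (funext fun a => ?_)
    change pr D _ a = _
    by_cases ha : a ∈ D
    · rw [pr_of_mem ha]
    · rw [pr_of_notMem ha, hYt n i a ha]
  let u : ℕ → (ι → T A) × (ι → T A) := fun n => (X (Cs n), Y (Cs n))
  obtain ⟨⟨x, y⟩, ⟨hx, hy⟩, hlim⟩ := (hE.prod hE).ultrafilter_le_nhds
    ((hyperfilter ℕ).map u) (by
      rw [le_principal_iff]
      exact mem_map.2 (Eventually.of_forall fun n => ⟨hXE n, hYE n⟩))
  have htend : Tendsto u (hyperfilter ℕ : Filter ℕ) (𝓝 (x, y)) := hlim
  have hev : ∀ {S : Set ((ι → T A) × (ι → T A))}, IsClosed S → (∀ᶠ n in atTop, u n ∈ S) →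
      (x, y) ∈ S := by
    intro S hS h
    refine hS.mem_of_tendsto htend ?_
    exact Nat.hyperfilter_le_atTop h
  have hxy : x = y := by
    funext i
    refine Subtype.ext (funext fun a => ?_)
    have hcl : IsClosed {p : (ι → T A) × (ι → T A) | (p.1 i).1 a = (p.2 i).1 a} := by
      refine isClosed_eq ?_ ?_
      · exact (continuous_apply a).comp (continuous_subtype_val.comp
          ((continuous_apply i).comp continuous_fst))
      · exact (continuous_apply a).comp (continuous_subtype_val.comp
          ((continuous_apply i).comp continuous_snd))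
    refine hev hcl ?_
    by_cases ha : a ∈ D
    · obtain ⟨n₀, hn₀⟩ := mem_iUnion.1 ha
      filter_upwards [eventually_ge_atTop n₀] with n hn
      exact hXY (Cs n) i a (hmono hn hn₀)
    · refine Eventually.of_forall fun n => ?_
      change (X (Cs n) i).1 a = (Y (Cs n) i).1 a
      rw [hXt n i a ha, hYt n i a ha]
  have hcl : IsClosed {p : (ι → T A) × (ι → T A) | ε ≤ |φ p.1 - φ p.2|} :=
    isClosed_le continuous_const
      ((hφ.comp continuous_fst).sub (hφ.comp continuous_snd)).abs
  have := hev hcl (Eventually.of_forall fun n => (hφXY (Cs n)).le)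
  have h2 : ε ≤ |φ x - φ y| := this
  rw [hxy, sub_self, abs_zero] at h2
  exact absurd h2 (not_le.2 hε)

/-- dependence on countably many coordinates -/
lemma dep {ι : Type v} [Finite ι] (φ : (ι → T A) → ℝ) (hφ : Continuous φ) :
    ∃ C : Set A, C.Countable ∧ ∀ x y : ι → T A,
      (∀ i, ∀ a ∈ C, (x i).1 a = (y i).1 a) → φ x = φ y := by
  classical
  choose C hC hdep using fun n : ℕ => dep_aux φ hφ (ε := 1 / ((n : ℝ) + 1)) (by positivity)
  refine ⟨⋃ n, C n, countable_iUnion hC, fun x y hxy => ?_⟩
  have happ : ∀ n (z : ι → T A), Tendsto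
      (fun (F : Finset A) (i : ι) => prT (C n ∪ F) ((hC n).union F.countable_toSet) (z i).1)
      atTop (𝓝 z) := by
    intro n z
    rw [tendsto_pi_nhds]
    intro i
    rw [tendsto_subtype_rng, tendsto_pi_nhds]
    intro a
    refine tendsto_const_nhds.congr' ?_
    filter_upwards [eventually_ge_atTop {a}] with F hF
    change _ = pr _ _ a
    rw [pr_of_mem (mem_union_right _ (hF (Finset.mem_singleton_self a)))]
  have hle : ∀ n : ℕ, |φ x - φ y| ≤ 1 / ((n : ℝ) + 1) := by
    intro n
    have h1 := ((hφ.tendsto x).comp (happ n x)).sub ((hφ.tendsto y).comp (happ n y)) |>.abs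
    refine le_of_tendsto h1 (Eventually.of_forall fun F => ?_)
    have hcnt : ∀ (z : ι → T A) i, {a | (prT (C n ∪ F) ((hC n).union F.countable_toSet)
        (z i).1).1 a = false}.Countable := by
      intro z i
      refine ((hC n).union F.countable_toSet).mono fun a ha => ?_
      by_contra h
      have h2 : pr (C n ∪ F) (z i).1 a = false := ha
      rw [pr_of_notMem h] at h2
      exact Bool.noConfusion h2
    refine hdep n _ _ (hcnt x) (hcnt y) fun i a ha => ?_
    change pr _ _ a = pr _ _ a
    rw [pr_of_mem (mem_union_left _ ha), pr_of_mem (mem_union_left _ ha)]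
    exact hxy i a (mem_iUnion.2 ⟨n, ha⟩)
  have h0 : |φ x - φ y| ≤ 0 := by
    refine ge_of_tendsto (tendsto_one_div_add_atTop_nhds_zero_nat (𝕜 := ℝ)) ?_
    exact Eventually.of_forall hle
  exact sub_eq_zero.1 (abs_nonpos_iff.1 h0)

end Q175.PunctCube
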