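import Mathlib
import Pool.Agent.Q175.PunctCube
import Pool.Agent.Q175.FreeKO

/-!
# The free topological group of the punctured Cantor cube is a `k_R`-space with a closed subgroup
that is not a `k_R`-space
-/

set_option autoImplicit false

universe u v

namespace Q175.FreeKRSub

open Set Topology Filter FreeGroup Q177.FreeTop Q177.KOmega Q175.FreeKO Q175.PunctCube

variable {A : Type u}

lemma exists_sep_cube [Nonempty A] (S : Set (A → Bool)) (hS : S.Finite) :
    ∃ (D : Type u) (q : (A → Bool) → D), (∀ d, IsOpen (q ⁻¹' {d})) ∧ InjOn q S := by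
  classical
  have h1 : ∀ p : (A → Bool) × (A → Bool), ∃ c : A, p.1 ≠ p.2 → p.1 c ≠ p.2 c := by
    intro p
    by_cases h : p.1 = p.2
    · exact ⟨Classical.arbitrary A, fun h' => (h' h).elim⟩
    · obtain ⟨c, hc⟩ := Function.ne_iff.1 h
      exact ⟨c, fun _ => hc⟩
  choose c hc using h1
  set E : Set A := c '' (S ×ˢ S) with hE
  have hEf : E.Finite := (hS.prod hS).image c
  have : Finite E := hEf
  let q : (A → Bool) → (E → Bool) := fun x e => x e.1
  have hqc : Continuous q := continuous_pi fun e => continuous_apply e.1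
  refine ⟨E → Bool, q, fun d => (isOpen_discrete {d}).preimage hqc, ?_⟩
  intro x hx y hy hxy
  by_contra hne
  have h2 := hc (x, y) hne
  exact h2 (congrFun hxy ⟨c (x, y), ⟨(x, y), ⟨hx, hy⟩, rfl⟩⟩)

section main

variable [Uncountable A] [TopologicalSpace (FreeGroup (T A))]
  [TopologicalSpace (FreeGroup (A → Bool))]

omit [TopologicalSpace (FreeGroup (T A))] in
lemma t2_cube (hK : IsFreeTop (A → Bool)) : T2Space (FreeGroup (A → Bool)) :=
  t2_of_sep hK exists_sep_cube

omit [TopologicalSpace (FreeGroup (T A))] [TopologicalSpace (FreeGroup (A → Bool))] in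
/-- functions continuous on words factor through the projections -/
lemma factor (f : FreeGroup (T A) → ℝ)
    (hf : ∀ (n : ℕ) (b : Fin n → Bool), Continuous fun x : Fin n → T A => f (wd b x)) :
    ∃ (C : Set A) (hC : C.Countable), ∀ w : FreeGroup (T A),
      f (FreeGroup.map (prT C hC) (FreeGroup.map Subtype.val w)) = f w := by
  choose C hC hdep using fun s : Σ n : ℕ, (Fin n → Bool) => dep (A := A) _ (hf s.1 s.2)
  refine ⟨⋃ s, C s, countable_iUnion hC, fun w => ?_⟩
  obtain ⟨n, b, x, rfl⟩ := exists_wd w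
  rw [map_wd, map_wd]
  refine hdep ⟨n, b⟩ _ _ fun i a ha => ?_
  exact pr_of_mem (mem_iUnion.2 ⟨⟨n, b⟩, ha⟩)

/-- the free group is `k_R` -/
lemma kR (hT : IsFreeTop (T A)) (hK : IsFreeTop (A → Bool)) (f : FreeGroup (T A) → ℝ)
    (hf : ∀ C : Set (FreeGroup (T A)), IsCompact C → ContinuousOn f C) : Continuous f := by
  have := hT.grp
  have := hK.grp
  have := t2_cube hK
  have hTo : IsOpen {x : A → Bool | x ≠ fun _ => false} := isOpen_ne
  have : LocallyCompactSpace (T A) := hTo.locallyCompactSpace
  have hwd : ∀ (n : ℕ) (b : Fin n → Bool), Continuous fun x : Fin n → T A => f (wd b x) := by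
    intro n b
    rw [continuous_iff_continuousAt]
    intro x
    obtain ⟨Q, hQ, hxQ⟩ := exists_compact_mem_nhds x
    have h1 : ContinuousOn (fun x : Fin n → T A => f (wd b x)) Q :=
      (hf _ (hQ.image (continuous_wd hT.cont b))).comp (continuous_wd hT.cont b).continuousOn
        (mapsTo_image _ _)
    exact h1.continuousAt hxQ
  obtain ⟨C, hC, hfac⟩ := factor f hwd
  have hg : Continuous fun v : FreeGroup (A → Bool) => f (FreeGroup.map (prT C hC) v) := by
    refine continuous_of_wd hK _ fun n b => ?_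
    have : (fun x : Fin n → A → Bool => f (FreeGroup.map (prT C hC) (wd b x))) =
        (fun x : Fin n → T A => f (wd b x)) ∘ fun (x : Fin n → A → Bool) i => prT C hC (x i) := by
      funext x
      rw [map_wd]
      rfl
    rw [this]
    exact (hwd n b).comp
      (continuous_pi fun i => (continuous_prT C hC).comp (continuous_apply i))
  have h2 : Continuous (FreeGroup.map (Subtype.val : T A → A → Bool)) :=
    continuous_map hT hK.cont continuous_subtype_val
  have h3 : f = (fun v : FreeGroup (A → Bool) => f (FreeGroup.map (prT C hC) v)) ∘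
      FreeGroup.map (Subtype.val : T A → A → Bool) := funext fun w => (hfac w).symm
  rw [h3]
  exact hg.comp h2

end main

/-! ### The sequence -/

section seq

open Classical in
/-- the points of the sequence, in the cube -/
noncomputable def yK (a : ℕ → A) (k : ℕ) : A → Bool := fun c => decide (c = a k)

lemma yK_self (a : ℕ → A) (k : ℕ) : yK a k (a k) = true := by simp [yK]

lemma yK_iff (a : ℕ → A) (k : ℕ) (c : A) : yK a k c = true ↔ c = a k := by simp [yK]

/-- the points of the sequence -/
noncomputable def y (a : ℕ → A) (k : ℕ) : T A := ⟨yK a k, fun h => by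
  have := congrFun h (a k)
  rw [yK_self] at this
  exact Bool.noConfusion this⟩

variable {a : ℕ → A}

lemma κ_ex (a : ℕ → A) (j : ℕ) (x : A → Bool) : ∃ k, j ≤ k ∨ x (a k) = true := ⟨j, Or.inl le_rfl⟩

open Classical in
/-- the first index below `j` where `x` is true -/
noncomputable def κ (a : ℕ → A) (j : ℕ) (x : A → Bool) : ℕ := Nat.find (κ_ex a j x)

lemma κ_eq_iff {j k : ℕ} {x : A → Bool} :
    κ a j x = k ↔ (j ≤ k ∨ x (a k) = true) ∧ ∀ i < k, i < j ∧ x (a i) ≠ true := by
  classical
  unfold κ
  rw [Nat.find_eq_iff]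
  simp only [not_or, not_le]

lemma κ_le (j : ℕ) (x : A → Bool) : κ a j x ≤ j := by
  classical
  exact Nat.find_min' _ (Or.inl le_rfl)

lemma κ_min {j j' : ℕ} (h : j ≤ j') (x : A → Bool) : min (κ a j' x) j = κ a j x := by
  symm
  rw [κ_eq_iff]
  obtain ⟨h1, h2⟩ := (κ_eq_iff (a := a) (j := j') (k := κ a j' x) (x := x)).1 rfl
  constructor
  · rcases le_total (κ a j' x) j with h3 | h3
    · rw [min_eq_left h3]
      rcases h1 with h1 | h1
      · exact Or.inl (h.trans h1)
      · exact Or.inr h1
    · rw [min_eq_right h3]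
      exact Or.inl le_rfl
  · intro i hi
    rw [lt_min_iff] at hi
    exact ⟨hi.2, (h2 i hi.1).2⟩

lemma κ_yK (ha : Function.Injective a) (j k : ℕ) : κ a j (yK a k) = min k j := by
  rw [κ_eq_iff]
  constructor
  · rcases le_total k j with h | h
    · rw [min_eq_left h]
      exact Or.inr (yK_self a k)
    · rw [min_eq_right h]
      exact Or.inl le_rfl
  · intro i hi
    rw [lt_min_iff] at hi
    refine ⟨hi.2, ?_⟩
    rw [Ne, yK_iff]
    exact fun h => hi.1.ne (ha h)

lemma continuous_κ (j : ℕ) : Continuous (κ a j) := by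
  rw [continuous_iff_continuousAt]
  intro x
  have h1 : ∀ᶠ x' : A → Bool in 𝓝 x, ∀ i ∈ Finset.range j, x' (a i) = x (a i) := by
    rw [Filter.eventually_all_finset]
    intro i _
    have : ContinuousAt (fun x' : A → Bool => x' (a i)) x := (continuous_apply (a i)).continuousAt
    exact this.eventually_mem ((isOpen_discrete {x (a i)}).mem_nhds rfl)
  have h2 : ∀ᶠ x' : A → Bool in 𝓝 x, κ a j x = κ a j x' := by
    filter_upwards [h1] with x' hx'
    obtain ⟨h3, h4⟩ := (κ_eq_iff (a := a) (j := j) (k := κ a j x') (x := x')).1 rfl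
    rw [κ_eq_iff]
    constructor
    · rcases h3 with h3 | h3
      · exact Or.inl h3
      · rcases le_or_gt j (κ a j x') with h5 | h5
        · exact Or.inl h5
        · right
          rw [← hx' _ (Finset.mem_range.2 h5)]
          exact h3
    · intro i hi
      obtain ⟨h5, h6⟩ := h4 i hi
      refine ⟨h5, ?_⟩
      rw [← hx' _ (Finset.mem_range.2 h5)]
      exact h6
  exact continuousAt_const.congr h2

open Classical in
/-- the retraction onto the convergent sequence -/
noncomputable def r (a : ℕ → A) (x : A → Bool) : A → Bool := fun c =>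
  decide (∃ k, c = a k ∧ x (a k) = true ∧ ∀ i < k, x (a i) = false)

lemma continuous_r (ha : Function.Injective a) : Continuous (r a) := by
  classical
  refine continuous_pi fun c => ?_
  by_cases hc : ∃ k, c = a k
  · obtain ⟨k, rfl⟩ := hc
    rw [continuous_iff_continuousAt]
    intro x
    have h1 : ∀ᶠ x' : A → Bool in 𝓝 x, ∀ i ∈ Finset.range (k + 1), x' (a i) = x (a i) := by
      rw [Filter.eventually_all_finset]
      intro i _
      have : ContinuousAt (fun x' : A → Bool => x' (a i)) x :=
        (continuous_apply (a i)).continuousAt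
      exact this.eventually_mem ((isOpen_discrete {x (a i)}).mem_nhds rfl)
    have key : ∀ z : A → Bool, (∃ m, a k = a m ∧ z (a m) = true ∧ ∀ i < m, z (a i) = false) ↔
        z (a k) = true ∧ ∀ i < k, z (a i) = false := by
      intro z
      constructor
      · rintro ⟨m, hm, h⟩
        have := ha hm
        subst this
        exact h
      · intro h
        exact ⟨k, rfl, h⟩
    refine continuousAt_const.congr (f := fun _ => r a x (a k)) ?_
    filter_upwards [h1] with x' hx'
    unfold r
    rw [decide_eq_decide, key, key, hx' k (by simp)]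
    refine and_congr_right fun _ => forall₂_congr fun i hi => ?_
    rw [hx' i (by simp only [Finset.mem_range]; omega)]
  · have : (fun x : A → Bool => r a x c) = fun _ => false := by
      funext x
      unfold r
      rw [decide_eq_false_iff_not]
      rintro ⟨k, hk, -⟩
      exact hc ⟨k, hk⟩
    rw [this]
    exact continuous_const

lemma r_yK (ha : Function.Injective a) (k : ℕ) : r a (yK a k) = yK a k := by
  classical
  funext c
  rw [Bool.eq_iff_iff, yK_iff]
  unfold r
  rw [decide_eq_true_iff]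
  constructor
  · rintro ⟨m, hm, h1, -⟩
    rw [yK_iff] at h1
    rw [hm, h1]
  · rintro rfl
    refine ⟨k, rfl, yK_self a k, fun i hi => ?_⟩
    rw [Bool.eq_false_iff, Ne, yK_iff]
    exact fun h => hi.ne (ha h)

/-- the image of the retraction: a point of the sequence or the limit -/
lemma r_cases (x : A → Bool) : (∃ k, r a x = yK a k) ∨ r a x = fun _ => false := by
  classical
  by_cases h : ∃ k, x (a k) = true
  · left
    refine ⟨Nat.find h, ?_⟩
    funext c
    rw [Bool.eq_iff_iff, yK_iff]
    unfold r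
    rw [decide_eq_true_iff]
    constructor
    · rintro ⟨m, rfl, h1, h2⟩
      congr 1
      symm
      rw [Nat.find_eq_iff]
      exact ⟨h1, fun i hi => by rw [h2 i hi]; simp⟩
    · rintro rfl
      refine ⟨_, rfl, Nat.find_spec h, fun i hi => ?_⟩
      have := Nat.find_min h hi
      simpa using this
  · right
    funext c
    unfold r
    rw [decide_eq_false_iff_not]
    rintro ⟨k, -, hk, -⟩
    exact h ⟨k, hk⟩

end seq

/-! ### Words in the letters of `ℕ` -/

/-- collapse the letters above `j` -/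
def M (j : ℕ) : FreeGroup ℕ →* FreeGroup ℕ := FreeGroup.map fun k => min k j

/-- the words `w_{n,m}` -/
def W (n m : ℕ) : FreeGroup ℕ :=
  FreeGroup.of n * (FreeGroup.of m)⁻¹ * (FreeGroup.of m * (FreeGroup.of (m + 1))⁻¹) ^ n

lemma M_W {n m j : ℕ} (h1 : n < j) (h2 : j ≤ m) :
    M j (W n m) = FreeGroup.of n * (FreeGroup.of j)⁻¹ := by
  unfold M W
  simp only [_root_.map_mul, _root_.map_inv, _root_.map_pow, FreeGroup.map.of]
  rw [min_eq_left h1.le, min_eq_right h2, min_eq_right (h2.trans (Nat.le_succ m))]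
  simp

lemma M_succ_W {n m : ℕ} (h : n < m) : M (m + 1) (W n m) = W n m := by
  unfold M W
  simp only [_root_.map_mul, _root_.map_inv, _root_.map_pow, FreeGroup.map.of]
  rw [min_eq_left (by omega), min_eq_left (by omega), min_eq_left (by omega)]

lemma exists_M_eq (w : FreeGroup ℕ) : ∃ j₀, ∀ j ≥ j₀, M j w = w := by
  obtain ⟨n, b, x, rfl⟩ := exists_wd w
  obtain ⟨N, hN⟩ := (Set.finite_range x).bddAbove
  refine ⟨N, fun j hj => ?_⟩
  unfold M
  rw [map_wd]
  congr 1
  funext i
  exact min_eq_left ((hN (mem_range_self i)).trans hj)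

lemma M_M {j j' : ℕ} (h : j ≤ j') (w : FreeGroup ℕ) : M j (M j' w) = M j w := by
  unfold M
  rw [FreeGroup.map.comp]
  congr 1
  congr 1
  funext k
  simp only [Function.comp]
  omega

/-- exponent sum of the letter `m` -/
def ε (m : ℕ) : FreeGroup ℕ →* Multiplicative ℤ :=
  FreeGroup.lift fun k => Multiplicative.ofAdd (if k = m then 1 else 0)

lemma ε_mk_le (m : ℕ) (L : List (ℕ × Bool)) : |Multiplicative.toAdd (ε m (FreeGroup.mk L))| ≤
    L.length := by
  induction L with
  | nil =>
    have : (FreeGroup.mk [] : FreeGroup ℕ) = 1 := rfl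
    rw [this, _root_.map_one]
    simp
  | cons p L ih =>
    have h1 : FreeGroup.mk (p :: L) = FreeGroup.mk [p] * FreeGroup.mk L := by
      rw [FreeGroup.mul_mk]
      rfl
    have h2 : |Multiplicative.toAdd (ε m (FreeGroup.mk [p]))| ≤ 1 := by
      unfold ε
      rw [FreeGroup.lift_mk]
      obtain ⟨k, b⟩ := p
      cases b <;> by_cases hk : k = m <;> simp [hk]
    rw [h1, _root_.map_mul, toAdd_mul, List.length_cons]
    push_cast
    have := abs_add_le (Multiplicative.toAdd (ε m (FreeGroup.mk [p])))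
      (Multiplicative.toAdd (ε m (FreeGroup.mk L)))
    linarith

lemma ε_W {n m : ℕ} (h : n < m) : Multiplicative.toAdd (ε m (W n m)) = (n : ℤ) - 1 := by
  unfold W
  simp only [_root_.map_mul, _root_.map_inv, _root_.map_pow, toAdd_mul, toAdd_inv, toAdd_pow]
  unfold ε
  simp only [FreeGroup.lift_apply_of, toAdd_ofAdd]
  rw [if_neg (by omega), if_neg (by omega : ¬ m + 1 = m)]
  simp only [if_true, nsmul_eq_mul]
  ring

lemma W_ne_one {n m : ℕ} (h : n < m) : W n m ≠ 1 := by
  intro h1
  have h2 := M_W (j := n + 1) (Nat.lt_succ_self n) (Nat.succ_le_of_lt h)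
  rw [h1, _root_.map_one] at h2
  have h3 : FreeGroup.of n = FreeGroup.of (n + 1) := by
    rw [eq_comm, mul_inv_eq_one] at h2
    exact h2
  have := FreeGroup.of_injective h3
  omega

/-- words of bounded length -/
lemma le_of_mem_F {n m N : ℕ} (h : n < m) (hW : W n m ∈ F ℕ N) : n ≤ N + 1 := by
  obtain ⟨L, hL, hLW⟩ := hW
  have h1 := ε_mk_le m L
  rw [hLW, ε_W h] at h1
  have h2 := le_abs_self ((n : ℤ) - 1)
  have h3 : (L.length : ℤ) ≤ N := by exact_mod_cast hL
  omega

/-! ### The closed subgroup -/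

section sub

variable [Uncountable A] {a : ℕ → A}

omit [Uncountable A] in
lemma r_surj (x : A → Bool) : ∃ k, ∀ (σ : (A → Bool) → T A), (∀ t : T A, σ t.1 = t) →
    σ (fun _ => false) = y a 0 → σ (r a x) = y a k := by
  rcases r_cases (a := a) x with ⟨k, hk⟩ | h
  · exact ⟨k, fun σ hσ _ => by rw [hk]; exact hσ (y a k)⟩
  · exact ⟨0, fun σ _ h0 => by rw [h]; exact h0⟩

omit [Uncountable A] in
lemma mem_H_iff (ha : Function.Injective a) (w : FreeGroup (T A)) :
    w ∈ (FreeGroup.map (y a)).range ↔
      FreeGroup.map (r a) (FreeGroup.map Subtype.val w) = FreeGroup.map Subtype.val w := by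
  classical
  constructor
  · rintro ⟨v, rfl⟩
    rw [FreeGroup.map.comp, FreeGroup.map.comp]
    have : ((r a) ∘ Subtype.val) ∘ y a = (Subtype.val ∘ y a : ℕ → A → Bool) :=
      funext fun k => r_yK ha k
    rw [this, FreeGroup.map.comp]
  · intro h
    let σ : (A → Bool) → T A := fun x => if h : x ≠ fun _ => false then ⟨x, h⟩ else y a 0
    have hσ : ∀ t : T A, σ t.1 = t := fun t => dif_pos t.2
    have hσ0 : σ (fun _ => false) = y a 0 := dif_neg (by simp)
    choose κ' hκ' using fun x : A → Bool => r_surj (a := a) x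
    refine ⟨FreeGroup.map (κ' ∘ Subtype.val) w, ?_⟩
    have h1 : FreeGroup.map σ (FreeGroup.map Subtype.val w) = w := by
      rw [FreeGroup.map.comp]
      have : σ ∘ Subtype.val = (id : T A → T A) := funext hσ
      rw [this, FreeGroup.map.id]
    rw [← h, FreeGroup.map.comp, FreeGroup.map.comp] at h1
    rw [FreeGroup.map.comp]
    conv_rhs => rw [← h1]
    congr 2
    funext t
    exact (hκ' t.1 σ hσ hσ0).symm

variable [TopologicalSpace (FreeGroup (T A))] [TopologicalSpace (FreeGroup (A → Bool))]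

lemma isClosed_H (hT : IsFreeTop (T A)) (hK : IsFreeTop (A → Bool))
    (ha : Function.Injective a) :
    IsClosed (((FreeGroup.map (y a)).range : Subgroup (FreeGroup (T A))) :
      Set (FreeGroup (T A))) := by
  have := hT.grp
  have := hK.grp
  have := t2_cube hK
  have h2 : Continuous (FreeGroup.map (Subtype.val : T A → A → Bool)) :=
    continuous_map hT hK.cont continuous_subtype_val
  have h3 : Continuous (FreeGroup.map (r a)) := continuous_map hK hK.cont (continuous_r ha)
  have : (((FreeGroup.map (y a)).range : Subgroup (FreeGroup (T A))) :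
      Set (FreeGroup (T A))) = {w | FreeGroup.map (r a) (FreeGroup.map Subtype.val w) =
        FreeGroup.map Subtype.val w} := by
    ext w
    exact mem_H_iff ha w
  rw [this]
  exact isClosed_eq (h3.comp h2) h2

/-- the homomorphisms to the discrete free group -/
noncomputable def Qj (a : ℕ → A) (j : ℕ) (w : FreeGroup (T A)) : FreeGroup ℕ :=
  FreeGroup.map (κ a j) (FreeGroup.map Subtype.val w)

omit [Uncountable A] [TopologicalSpace (FreeGroup (T A))]
  [TopologicalSpace (FreeGroup (A → Bool))] in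
lemma Qj_H (ha : Function.Injective a) (j : ℕ) (v : FreeGroup ℕ) :
    Qj a j (FreeGroup.map (y a) v) = M j v := by
  unfold Qj M
  rw [FreeGroup.map.comp, FreeGroup.map.comp]
  congr 2
  funext k
  exact κ_yK ha j k

omit [Uncountable A] [TopologicalSpace (FreeGroup (T A))]
  [TopologicalSpace (FreeGroup (A → Bool))] in
lemma M_Qj {j j' : ℕ} (h : j ≤ j') (w : FreeGroup (T A)) : M j (Qj a j' w) = Qj a j w := by
  unfold Qj M
  rw [FreeGroup.map.comp, FreeGroup.map.comp, FreeGroup.map.comp]
  congr 2
  funext x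
  exact κ_min h x.1

omit [Uncountable A] [TopologicalSpace (FreeGroup (A → Bool))] in
lemma isClopen_Qj (hT : IsFreeTop (T A)) (j : ℕ) (v : FreeGroup ℕ) :
    IsClopen {w : FreeGroup (T A) | Qj a j w = v} := by
  let _ : TopologicalSpace (FreeGroup ℕ) := ⊥
  have : DiscreteTopology (FreeGroup ℕ) := ⟨rfl⟩
  have h1 : Continuous (Qj a j : FreeGroup (T A) → FreeGroup ℕ) := by
    have h2 : (Qj a j : FreeGroup (T A) → FreeGroup ℕ) =
        FreeGroup.map (κ a j ∘ Subtype.val) := by
      funext w
      unfold Qj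
      rw [FreeGroup.map.comp]
    rw [h2]
    exact continuous_map hT continuous_of_discreteTopology
      ((continuous_κ j).comp continuous_subtype_val)
  exact (isClopen_discrete {v}).preimage h1

/-- the words of the sequence accumulate at the identity -/
lemma exists_W_mem (hT : IsFreeTop (T A)) (hK : IsFreeTop (A → Bool)) (ha : Function.Injective a)
    {U : Set (FreeGroup (T A))} (hU : U ∈ 𝓝 (1 : FreeGroup (T A))) :
    ∃ n m, 1 ≤ n ∧ n < m ∧ FreeGroup.map (y a) (W n m) ∈ U := by
  have := hT.grp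
  have := hK.grp
  have hcr : CompletelyRegularSpace (FreeGroup (T A)) :=
    CompletelyRegularSpace.of_exists_uniformSpace
      ⟨IsTopologicalGroup.rightUniformSpace (FreeGroup (T A)), rfl⟩
  obtain ⟨V, hVU, hV, h1V⟩ := mem_nhds_iff.1 hU
  obtain ⟨g, hg, hg1, hgV⟩ := hcr.completely_regular 1 Vᶜ hV.isClosed_compl (fun h => h h1V)
  let f : FreeGroup (T A) → ℝ := fun w => (g w : ℝ)
  have hf : Continuous f := continuous_subtype_val.comp hg
  have hf1 : f 1 = 0 := by
    simp only [f, hg1]
    rfl
  have hfV : ∀ w, f w < 1 → w ∈ U := by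
    intro w hw
    refine hVU ?_
    by_contra h
    have h2 := hgV h
    simp only [f] at hw
    rw [h2] at hw
    simp at hw
  obtain ⟨C, hC, hfac⟩ := factor f fun n b => hf.comp (continuous_wd hT.cont b)
  -- the image sequence
  let z : ℕ → T A := fun k => prT C hC (yK a k)
  let z' : T A := prT C hC fun _ => false
  have hz : Tendsto z atTop (𝓝 z') := by
    have h1 : Tendsto (yK a) atTop (𝓝 fun _ => false) := by
      rw [tendsto_pi_nhds]
      intro c
      refine tendsto_const_nhds.congr' ?_
      by_cases hc : ∃ k, c = a k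
      · obtain ⟨k, rfl⟩ := hc
        filter_upwards [eventually_gt_atTop k] with n hn
        symm
        rw [Bool.eq_false_iff, Ne, yK_iff]
        exact fun h => hn.ne (ha h)
      · refine Eventually.of_forall fun n => ?_
        symm
        rw [Bool.eq_false_iff, Ne, yK_iff]
        exact fun h => hc ⟨n, h⟩
    exact ((continuous_prT C hC).tendsto _).comp h1
  have hz2 : Tendsto (fun k => (FreeGroup.of (z k) : FreeGroup (T A))) atTop
      (𝓝 (FreeGroup.of z')) := (hT.cont.tendsto z').comp hz
  have hval : ∀ n m, f (FreeGroup.map (y a) (W n m)) = f (FreeGroup.of (z n) *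
      (FreeGroup.of (z m))⁻¹ * (FreeGroup.of (z m) * (FreeGroup.of (z (m + 1)))⁻¹) ^ n) := by
    intro n m
    rw [← hfac]
    congr 1
    unfold W
    simp only [_root_.map_mul, _root_.map_inv, _root_.map_pow, FreeGroup.map.of]
    rfl
  have h3 : Tendsto (fun n => f (FreeGroup.of (z n) * (FreeGroup.of z')⁻¹)) atTop (𝓝 (f 1)) := by
    refine (hf.tendsto 1).comp ?_
    have := hz2.mul (tendsto_const_nhds (x := (FreeGroup.of z' : FreeGroup (T A))⁻¹))
    rwa [mul_inv_cancel] at this
  rw [hf1] at h3
  obtain ⟨n, hn1, hn⟩ := ((eventually_ge_atTop 1).and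
    (h3.eventually (gt_mem_nhds one_pos))).exists
  have h4 : Tendsto (fun m => f (FreeGroup.map (y a) (W n m))) atTop
      (𝓝 (f (FreeGroup.of (z n) * (FreeGroup.of z')⁻¹))) := by
    simp only [hval]
    refine (hf.tendsto _).comp ?_
    have h5 := ((tendsto_const_nhds (x := (FreeGroup.of (z n) : FreeGroup (T A)))).mul
      hz2.inv).mul ((hz2.mul ((hz2.comp (tendsto_add_atTop_nat 1)).inv)).pow n)
    rw [mul_inv_cancel, one_pow, mul_one] at h5
    exact h5
  obtain ⟨m, hm1, hm⟩ := ((eventually_gt_atTop n).and (h4.eventually (gt_mem_nhds hn))).exists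
  exact ⟨n, m, hn1, hm1, hfV _ hm⟩

/-- the subgroup is not a `k_R`-space -/
lemma not_kR_H (hT : IsFreeTop (T A)) (hK : IsFreeTop (A → Bool)) (ha : Function.Injective a) :
    ¬ ∀ f : (FreeGroup.map (y a)).range → ℝ,
      (∀ C : Set (FreeGroup.map (y a)).range, IsCompact C → ContinuousOn f C) →
      Continuous f := by
  classical
  have := hT.grp
  have := hK.grp
  have := t2_cube hK
  intro hkR
  let I : Set (ℕ × ℕ) := {p | 1 ≤ p.1 ∧ p.1 < p.2}
  let O : ℕ × ℕ → Set (FreeGroup.map (y a)).range := fun p =>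
    {h | Qj a (p.2 + 1) h.1 = W p.1 p.2}
  have hOc : ∀ p, IsClopen (O p) := fun p =>
    (isClopen_Qj hT (p.2 + 1) (W p.1 p.2)).preimage continuous_subtype_val
  have h2 : Continuous (FreeGroup.map (Subtype.val : T A → A → Bool)) :=
    continuous_map hT hK.cont continuous_subtype_val
  -- each compact set meets finitely many of the sets
  have hfin : ∀ C : Set (FreeGroup.map (y a)).range, IsCompact C →
      {p ∈ I | (C ∩ O p).Nonempty}.Finite := by
    intro C hC
    obtain ⟨N, hN⟩ := compact_subset_F hK (hC.image (h2.comp continuous_subtype_val))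
    have hrow : ∀ n, {m | (n, m) ∈ I ∧ (C ∩ O (n, m)).Nonempty}.Finite := by
      intro n
      by_contra hinf
      set S : Set ℕ := {m | (n, m) ∈ I ∧ (C ∩ O (n, m)).Nonempty} with hS
      have hinf' : S.Infinite := hinf
      choose! u hu using fun m (hm : m ∈ S) => hm.2
      have hne : (cofinite ⊓ 𝓟 S : Filter ℕ).NeBot := hinf'.cofinite_inf_principal_neBot
      let 𝒰 : Ultrafilter ℕ := Ultrafilter.of (cofinite ⊓ 𝓟 S)
      have h𝒰 : (𝒰 : Filter ℕ) ≤ cofinite ⊓ 𝓟 S := Ultrafilter.of_le _
      have h𝒰S : ∀ᶠ m in (𝒰 : Filter ℕ), m ∈ S := (h𝒰.trans inf_le_right) (mem_principal_self S)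
      have h𝒰t : ∀ {P : ℕ → Prop}, (∀ᶠ m in atTop, P m) → ∀ᶠ m in (𝒰 : Filter ℕ), P m := by
        intro P hP
        rw [← Nat.cofinite_eq_atTop] at hP
        exact (h𝒰.trans inf_le_left) hP
      obtain ⟨x, hxC, hx⟩ := hC.ultrafilter_le_nhds (𝒰.map u) (by
        rw [le_principal_iff]
        exact mem_map.2 (h𝒰S.mono fun m hm => (hu m hm).1))
      have htend : Tendsto u (𝒰 : Filter ℕ) (𝓝 x) := hx
      have hlim : ∀ j, n < j → Qj a j x.1 = FreeGroup.of n * (FreeGroup.of j)⁻¹ := by
        intro j hj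
        have hcl : IsClosed {h : (FreeGroup.map (y a)).range | Qj a j h.1 =
            FreeGroup.of n * (FreeGroup.of j)⁻¹} :=
          ((isClopen_Qj hT j _).preimage continuous_subtype_val).1
        refine hcl.mem_of_tendsto htend ?_
        filter_upwards [h𝒰S, h𝒰t (eventually_ge_atTop j)] with m hm hjm
        have h5 : Qj a (m + 1) (u m).1 = W n m := (hu m hm).2
        change Qj a j (u m).1 = _
        rw [← M_Qj (hjm.trans (Nat.le_succ m)), h5, M_W hj hjm]
      obtain ⟨v, hv⟩ := x.2
      obtain ⟨j₀, hj₀⟩ := exists_M_eq v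
      have h6 : ∀ j, j₀ ≤ j → n < j → v = FreeGroup.of n * (FreeGroup.of j)⁻¹ := by
        intro j h7 h8
        rw [← hlim j h8, ← hv, Qj_H ha, hj₀ j h7]
      have h9 := h6 (max j₀ n + 1) (by omega) (by omega)
      have h10 := h6 (max j₀ n + 2) (by omega) (by omega)
      rw [h9] at h10
      have h11 := FreeGroup.of_injective (inv_injective (mul_left_cancel h10))
      omega
    have hsub : {p ∈ I | (C ∩ O p).Nonempty} ⊆ ⋃ n ∈ Finset.range (N + 2),
        (fun m => (n, m)) '' {m | (n, m) ∈ I ∧ (C ∩ O (n, m)).Nonempty} := by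
      rintro ⟨n, m⟩ ⟨hp, hne⟩
      refine mem_iUnion₂.2 ⟨n, ?_, m, ⟨hp, hne⟩, rfl⟩
      obtain ⟨h, hh, hhO⟩ := hne
      have h3 : FreeGroup.map Subtype.val h.1 ∈ F (A → Bool) N := hN ⟨h, hh, rfl⟩
      have h4 : W n m ∈ F ℕ N := by
        have : W n m = FreeGroup.map (κ a (m + 1)) (FreeGroup.map Subtype.val h.1) := hhO.symm
        rw [this]
        exact map_mem_F _ h3
      have := le_of_mem_F hp.2 h4
      rw [Finset.mem_range]
      omega
    exact (Set.Finite.biUnion (Finset.finite_toSet _) fun n _ => (hrow n).image _).subset hsub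
  let g : (FreeGroup.map (y a)).range → ℝ := (⋃ p ∈ I, O p).indicator fun _ => 1
  have hg : Continuous g := by
    refine hkR g fun C hC => ?_
    have hf := hfin C hC
    have hcl : IsClopen (⋃ p ∈ {p ∈ I | (C ∩ O p).Nonempty}, O p) :=
      hf.isClopen_biUnion fun p _ => hOc p
    have hcont : Continuous ((⋃ p ∈ {p ∈ I | (C ∩ O p).Nonempty}, O p).indicator
        fun _ => (1 : ℝ)) := by
      refine Continuous.indicator ?_ continuous_const
      intro x hx
      rw [hcl.frontier_eq] at hx
      exact hx.elim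
    refine hcont.continuousOn.congr fun x hx => ?_
    by_cases h : ∃ p ∈ I, x ∈ O p
    · obtain ⟨p, hp, hxp⟩ := h
      have h1 : g x = 1 := indicator_of_mem (mem_iUnion₂.2 ⟨p, hp, hxp⟩) _
      rw [h1, indicator_of_mem]
      exact mem_iUnion₂.2 ⟨p, ⟨hp, ⟨x, hx, hxp⟩⟩, hxp⟩
    · have h1 : g x = 0 := by
        refine indicator_of_notMem (fun h' => ?_) _
        obtain ⟨p, hp, hxp⟩ := mem_iUnion₂.1 h'
        exact h ⟨p, hp, hxp⟩
      rw [h1, indicator_of_notMem]
      intro h'
      obtain ⟨p, hp, hxp⟩ := mem_iUnion₂.1 h'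
      exact h ⟨p, hp.1, hxp⟩
  have hg1 : g 1 = 0 := by
    refine indicator_of_notMem ?_ _
    intro h
    obtain ⟨p, hp, hxp⟩ := mem_iUnion₂.1 h
    have h3 : Qj a (p.2 + 1) 1 = W p.1 p.2 := hxp
    unfold Qj at h3
    rw [_root_.map_one, _root_.map_one] at h3
    exact W_ne_one hp.2 h3.symm
  have hnh : {h : (FreeGroup.map (y a)).range | g h < 1} ∈ 𝓝 (1 : (FreeGroup.map (y a)).range) := by
    refine (isOpen_lt hg continuous_const).mem_nhds ?_
    change g 1 < 1
    rw [hg1]
    exact one_pos
  rw [nhds_subtype_eq_comap, mem_comap] at hnh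
  obtain ⟨U, hU, hUsub⟩ := hnh
  obtain ⟨n, m, hn, hnm, hmem⟩ := exists_W_mem hT hK ha hU
  have h3 : g ⟨FreeGroup.map (y a) (W n m), ⟨W n m, rfl⟩⟩ < 1 := hUsub hmem
  have h4 : g ⟨FreeGroup.map (y a) (W n m), ⟨W n m, rfl⟩⟩ = 1 := by
    refine indicator_of_mem ?_ _
    refine mem_iUnion₂.2 ⟨(n, m), ⟨hn, hnm⟩, ?_⟩
    change Qj a (m + 1) (FreeGroup.map (y a) (W n m)) = W n m
    rw [Qj_H ha, M_succ_W hnm]
  rw [h4] at h3
  exact lt_irrefl _ h3

end sub

end Q175.FreeKRSub
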