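import Mathlib

/-!
# Groups of continuous functions with the pointwise topology, and `G`-equivalence
-/

open Set Filter Topology

namespace Q175.GEq

/-- The group of all continuous maps from `X` to `G`, as a subgroup of the product `X → G`; it
carries the subspace topology of the product topology (the topology of pointwise convergence). -/
def Cp (X G : Type*) [TopologicalSpace X] [Group G] [TopologicalSpace G] [IsTopologicalGroup G] :
    Subgroup (X → G) where
  carrier := {f | Continuous f}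
  mul_mem' := fun hf hg => Continuous.mul hf hg
  one_mem' := continuous_const
  inv_mem' := fun hf => Continuous.inv hf

theorem Cp.cont {X G : Type*} [TopologicalSpace X] [Group G] [TopologicalSpace G]
    [IsTopologicalGroup G] (f : Cp X G) : Continuous f.1 := f.2

/-- `X` and `Y` are `G`-equivalent: the topological groups of all continuous maps into `G` are
topologically isomorphic. -/
def GEquivalent (G X Y : Type*) [TopologicalSpace X] [TopologicalSpace Y] [Group G]
    [TopologicalSpace G] [IsTopologicalGroup G] : Prop :=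
  Nonempty (Cp X G ≃ₜ* Cp Y G)

/-! ### Separation -/

/-- Any two points are separated by a clopen set. -/
def Sep (X : Type*) [TopologicalSpace X] : Prop :=
  ∀ x y : X, x ≠ y → ∃ U : Set X, IsClopen U ∧ x ∈ U ∧ y ∉ U

theorem Sep.of_inj {X Y : Type*} [TopologicalSpace X] [TopologicalSpace Y] (h : Sep Y)
    {f : X → Y} (hf : Continuous f) (hinj : Function.Injective f) : Sep X := by
  intro x y hxy
  obtain ⟨U, hU, h1, h2⟩ := h (f x) (f y) fun h => hxy (hinj h)
  exact ⟨f ⁻¹' U, hU.preimage hf, h1, h2⟩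

theorem Sep.prod {X Y : Type*} [TopologicalSpace X] [TopologicalSpace Y] (hX : Sep X)
    (hY : Sep Y) : Sep (X × Y) := by
  intro x y hxy
  by_cases h1 : x.1 = y.1
  · obtain ⟨U, hU, h3, h4⟩ := hY x.2 y.2 fun h => hxy (Prod.ext h1 h)
    exact ⟨Prod.snd ⁻¹' U, hU.preimage continuous_snd, h3, h4⟩
  · obtain ⟨U, hU, h3, h4⟩ := hX x.1 y.1 h1
    exact ⟨Prod.fst ⁻¹' U, hU.preimage continuous_fst, h3, h4⟩

theorem sep_pi (I : Type*) : Sep (I → Bool) := by
  intro x y hxy
  obtain ⟨i, hi⟩ := Function.ne_iff.1 hxy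
  exact ⟨(fun z => z i) ⁻¹' {x i}, (isClopen_discrete _).preimage (continuous_apply i), rfl,
    fun h => hi (Eq.symm h)⟩

theorem sep_unit : Sep Unit := fun x y h => absurd (Subsingleton.elim x y) h

theorem Sep.sum {X Y : Type*} [TopologicalSpace X] [TopologicalSpace Y] (hX : Sep X)
    (hY : Sep Y) : Sep (X ⊕ Y) := by
  have hl : IsClopen (range (Sum.inl : X → X ⊕ Y)) := ⟨isClosed_range_inl, isOpen_range_inl⟩
  have hr : IsClopen (range (Sum.inr : Y → X ⊕ Y)) := ⟨isClosed_range_inr, isOpen_range_inr⟩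
  rintro (x | x) (y | y) hxy
  · obtain ⟨U, hU, h1, h2⟩ := hX x y fun h => hxy (by rw [h])
    refine ⟨Sum.inl '' U, ⟨Topology.IsClosedEmbedding.inl.isClosedMap _ hU.1,
      Topology.IsOpenEmbedding.inl.isOpenMap _ hU.2⟩, ⟨x, h1, rfl⟩, ?_⟩
    rintro ⟨z, hz, h⟩
    exact h2 (Sum.inl_injective h ▸ hz)
  · exact ⟨_, hl, ⟨x, rfl⟩, by simp⟩
  · exact ⟨_, hr, ⟨x, rfl⟩, by simp⟩
  · obtain ⟨U, hU, h1, h2⟩ := hY x y fun h => hxy (by rw [h])
    refine ⟨Sum.inr '' U, ⟨Topology.IsClosedEmbedding.inr.isClosedMap _ hU.1,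
      Topology.IsOpenEmbedding.inr.isOpenMap _ hU.2⟩, ⟨x, h1, rfl⟩, ?_⟩
    rintro ⟨z, hz, h⟩
    exact h2 (Sum.inr_injective h ▸ hz)

theorem dense_Cp {X G : Type*} [TopologicalSpace X] (hX : Sep X) [CommGroup G]
    [TopologicalSpace G] [IsTopologicalGroup G] : Dense ((Cp X G : Set (X → G))) := by
  classical
  choose! U hU hxU hyU using hX
  intro g
  let V : Finset X → X → Set X := fun F x => ⋂ y ∈ F.erase x, U x y
  have hV : ∀ F x, IsClopen (V F x) := fun F x =>
    isClopen_biInter_finset fun y hy => hU x y (Finset.ne_of_mem_erase hy).symm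
  let f : Finset X → X → G := fun F => ∏ x ∈ F, (V F x).mulIndicator fun _ => g x
  have hf : ∀ F, Continuous (f F) := by
    intro F
    have h1 : f F = fun z => ∏ x ∈ F, (V F x).mulIndicator (fun _ => g x) z := by
      funext z
      exact Finset.prod_apply _ _ _
    rw [h1]
    exact continuous_finsetProd F fun x _ => (hV F x).continuous_mulIndicator continuous_const
  have hfg : ∀ F, ∀ x ∈ F, f F x = g x := by
    intro F x hx
    show (∏ y ∈ F, (V F y).mulIndicator fun _ => g y) x = g x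
    rw [Finset.prod_apply, Finset.prod_eq_single x]
    · rw [mulIndicator_of_mem]
      exact mem_iInter₂.2 fun y hy => hxU x y (Finset.ne_of_mem_erase hy).symm
    · intro y hy hyx
      rw [mulIndicator_of_notMem]
      intro h
      exact hyU y x hyx (mem_iInter₂.1 h x (Finset.mem_erase.2 ⟨hyx.symm, hx⟩))
    · exact fun h => absurd hx h
  refine mem_closure_of_tendsto (b := atTop) (f := f) ?_ (Eventually.of_forall hf)
  rw [tendsto_pi_nhds]
  intro x
  refine tendsto_const_nhds.congr' ?_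
  filter_upwards [eventually_ge_atTop {x}] with F hF
  exact (hfg F x (hF (Finset.mem_singleton_self x))).symm

instance sumT35 {X Y : Type*} [TopologicalSpace X] [TopologicalSpace Y] [T35Space X]
    [T35Space Y] : T35Space (X ⊕ Y) := by
  obtain ⟨u, hu⟩ := CompletelyRegularSpace.exists_uniformSpace (X := X)
  obtain ⟨v, hv⟩ := CompletelyRegularSpace.exists_uniformSpace (X := Y)
  have h1 : CompletelyRegularSpace (X ⊕ Y) := by
    subst hu hv
    infer_instance
  have h2 : T2Space (X ⊕ Y) := inferInstance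
  exact {}

/-! ### The main construction -/

open OnePoint

section Zset

set_option linter.unusedSectionVars false

variable {C K : Type} [TopologicalSpace C] [CompactSpace C] [T2Space C] [TopologicalSpace K]

/-- The space `{∞} × K` together with the graph of `e`. -/
def Zset (e : ℕ × C → K) : Set (OnePoint (ℕ × C) × K) :=
  {z | ∀ l : ℕ × C, z.1 = (l : OnePoint (ℕ × C)) → z.2 = e l}

/-- The points of `{∞} × K`. -/
def zK (e : ℕ × C → K) (k : K) : Zset e := ⟨(∞, k), fun l h => absurd h (infty_ne_coe l)⟩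

/-- The points of the graph. -/
def zL (e : ℕ × C → K) (l : ℕ × C) : Zset e := ⟨((l : OnePoint (ℕ × C)), e l), fun l' h => by
  rw [OnePoint.coe_injective h]⟩

theorem cases_Z (e : ℕ × C → K) (z : Zset e) : (∃ k, z = zK e k) ∨ ∃ l, z = zL e l := by
  obtain ⟨⟨w, k⟩, hz⟩ := z
  induction w using OnePoint.rec with
  | infty => exact Or.inl ⟨k, rfl⟩
  | coe l =>
    have h1 : k = e l := hz l rfl
    subst h1
    exact Or.inr ⟨l, rfl⟩

/-- Open sets in infinitely many pieces have a cluster point. -/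
def Clu (e : ℕ × C → K) : Prop :=
  ∀ N : Set ℕ, N.Infinite → ∀ W : ℕ → Set C, (∀ n ∈ N, IsOpen (W n) ∧ (W n).Nonempty) →
    ∃ t, ∀ O ∈ 𝓝 t, {n ∈ N | ∃ c ∈ W n, e (n, c) ∈ O}.Infinite

omit [T2Space C] in
theorem fin_mem {F : Set ℕ} (hF : F.Finite) :
    {l : ℕ × C | l.1 ∉ F} ∈ coclosedCompact (ℕ × C) := by
  have h1 : IsCompact (F ×ˢ (univ : Set C)) := hF.isCompact.prod isCompact_univ
  have h2 : IsClosed (F ×ˢ (univ : Set C)) := hF.isClosed.prod isClosed_univ
  have h3 := h1.compl_mem_coclosedCompact_of_isClosed h2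
  refine mem_of_superset h3 fun l hl h => hl ⟨h, mem_univ _⟩

theorem fin_of_mem {A : Set (OnePoint (ℕ × C))} (hA : A ∈ 𝓝 ∞) :
    ∃ F : Set ℕ, F.Finite ∧ ∀ l : ℕ × C, l.1 ∉ F → (l : OnePoint (ℕ × C)) ∈ A := by
  have h1 := (tendsto_coe_infty (X := ℕ × C)) hA
  rw [Filter.mem_map, hasBasis_coclosedCompact.mem_iff] at h1
  obtain ⟨t, ⟨_, htc⟩, ht⟩ := h1
  refine ⟨Prod.fst '' t, (htc.image continuous_fst).finite_of_discrete, fun l hl => ?_⟩
  by_contra hcon
  exact hl ⟨l, by_contra fun h => hcon (ht h), rfl⟩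

theorem continuous_zK (e : ℕ × C → K) : Continuous (zK e) := by
  refine Continuous.subtype_mk ?_ _
  exact continuous_const.prodMk continuous_id

theorem continuous_zL {e : ℕ × C → K} (he : Continuous e) : Continuous (zL e) := by
  refine Continuous.subtype_mk ?_ _
  exact continuous_coe.prodMk he

/-- A continuous map vanishing on `{∞} × K` vanishes at infinity. -/
theorem tendsto_one {e : ℕ × C → K} (hclu : Clu e) {G : Type*} [CommGroup G]
    [TopologicalSpace G] [IsTopologicalGroup G] {f : Zset e → G} (hf : Continuous f)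
    (he : Continuous e) :
    Tendsto (fun l => f (zL e l) / f (zK e (e l))) (coclosedCompact (ℕ × C)) (𝓝 1) := by
  intro V hV
  obtain ⟨V', hV', hcl, hsub⟩ := exists_mem_nhds_isClosed_subset hV
  set N : Set ℕ := {n | ∃ c, f (zL e (n, c)) / f (zK e (e (n, c))) ∉ V'} with hN
  have hNfin : N.Finite := by
    by_contra hinf
    have hcont : Continuous fun l => f (zL e l) / f (zK e (e l)) :=
      (hf.comp (continuous_zL he)).div' (hf.comp ((continuous_zK e).comp he))
    obtain ⟨t, ht⟩ := hclu N hinf (fun n => {c | f (zL e (n, c)) / f (zK e (e (n, c))) ∉ V'})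
      (fun n hn => ⟨(hcl.preimage (hcont.comp (Continuous.prodMk_right n))).isOpen_compl, hn⟩)
    have hD : Continuous fun z : Zset e => f z / f (zK e z.1.2) :=
      hf.div' (hf.comp ((continuous_zK e).comp (continuous_snd.comp continuous_subtype_val)))
    have h1 : {z : Zset e | f z / f (zK e z.1.2) ∈ V'} ∈ 𝓝 (zK e t) := by
      refine hD.continuousAt ?_
      have : f (zK e t) / f (zK e (zK e t).1.2) = 1 := div_self' _
      rw [this]
      exact hV'
    rw [nhds_subtype, Filter.mem_comap] at h1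
    obtain ⟨Q, hQ, hQs⟩ := h1
    rw [show ((zK e t : Zset e) : OnePoint (ℕ × C) × K) = (∞, t) from rfl, nhds_prod_eq,
      Filter.mem_prod_iff] at hQ
    obtain ⟨A, hA, O, hO, hAO⟩ := hQ
    obtain ⟨F, hF, hFA⟩ := fin_of_mem hA
    obtain ⟨n, hn, hnF⟩ := (ht O hO).exists_notMem_finite hF
    obtain ⟨hnN, c, hc, hcO⟩ := hn
    have h2 : zL e (n, c) ∈ {z : Zset e | f z / f (zK e z.1.2) ∈ V'} :=
      hQs (hAO ⟨hFA (n, c) hnF, hcO⟩)
    exact hc h2
  rw [Filter.mem_map]
  refine mem_of_superset (fin_mem hNfin) fun l hl => hsub ?_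
  by_contra hcon
  exact hl ⟨l.2, hcon⟩

/-- The isomorphism, on functions. -/
def Phi (e : ℕ × C → K) {G : Type*} [CommGroup G] (f : Zset e ⊕ Unit → G) :
    K ⊕ OnePoint (ℕ × C) → G :=
  Sum.elim (fun k => f (Sum.inl (zK e k))) fun w => w.elim (f (Sum.inr ()))
    fun l => f (Sum.inl (zL e l)) / f (Sum.inl (zK e (e l))) * f (Sum.inr ())

/-- The inverse isomorphism, on functions. -/
def Psi (e : ℕ × C → K) {G : Type*} [CommGroup G] (g : K ⊕ OnePoint (ℕ × C) → G) :
    Zset e ⊕ Unit → G :=
  Sum.elim (fun z => g (Sum.inl z.1.2) * (g (Sum.inr z.1.1) / g (Sum.inr ∞)))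
    fun _ => g (Sum.inr ∞)

theorem Psi_Phi (e : ℕ × C → K) {G : Type*} [CommGroup G] (f : Zset e ⊕ Unit → G) :
    Psi e (Phi e f) = f := by
  funext x
  rcases x with z | _
  · rcases cases_Z e z with ⟨k, rfl⟩ | ⟨l, rfl⟩
    · show f (Sum.inl (zK e k)) * (f (Sum.inr ()) / f (Sum.inr ())) = f (Sum.inl (zK e k))
      rw [div_self', mul_one]
    · show f (Sum.inl (zK e (e l))) * ((f (Sum.inl (zL e l)) / f (Sum.inl (zK e (e l))) *
        f (Sum.inr ())) / f (Sum.inr ())) = f (Sum.inl (zL e l))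
      rw [mul_div_cancel_right, mul_div_cancel]
  · rfl

theorem Phi_Psi (e : ℕ × C → K) {G : Type*} [CommGroup G] (g : K ⊕ OnePoint (ℕ × C) → G) :
    Phi e (Psi e g) = g := by
  funext x
  rcases x with k | w
  · show g (Sum.inl k) * (g (Sum.inr ∞) / g (Sum.inr ∞)) = g (Sum.inl k)
    rw [div_self', mul_one]
  · induction w using OnePoint.rec with
    | infty => rfl
    | coe l =>
      show g (Sum.inl (e l)) * (g (Sum.inr (l : OnePoint (ℕ × C))) / g (Sum.inr ∞)) /
        (g (Sum.inl (e l)) * (g (Sum.inr ∞) / g (Sum.inr ∞))) * g (Sum.inr ∞) =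
        g (Sum.inr (l : OnePoint (ℕ × C)))
      rw [div_self', mul_one, mul_div_cancel_left, div_mul_cancel]

theorem continuous_Phi {e : ℕ × C → K} (he : Continuous e) (hclu : Clu e) {G : Type*}
    [CommGroup G] [TopologicalSpace G] [IsTopologicalGroup G] {f : Zset e ⊕ Unit → G}
    (hf : Continuous f) : Continuous (Phi e f) := by
  have h1 : Continuous fun z : Zset e => f (Sum.inl z) := hf.comp continuous_inl
  refine continuous_sum_dom.2 ⟨h1.comp (continuous_zK e), ?_⟩
  show Continuous fun w : OnePoint (ℕ × C) => w.elim (f (Sum.inr ()))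
    fun l => f (Sum.inl (zL e l)) / f (Sum.inl (zK e (e l))) * f (Sum.inr ())
  rw [OnePoint.continuous_iff]
  refine ⟨?_, ?_⟩
  · have h2 := (tendsto_one hclu h1 he).mul_const (f (Sum.inr ()))
    rw [one_mul] at h2
    exact h2
  · exact ((h1.comp (continuous_zL he)).div' (h1.comp ((continuous_zK e).comp he))).mul
      continuous_const

theorem continuous_Psi {e : ℕ × C → K} {G : Type*}
    [CommGroup G] [TopologicalSpace G] [IsTopologicalGroup G] {g : K ⊕ OnePoint (ℕ × C) → G}
    (hg : Continuous g) : Continuous (Psi e g) := by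
  refine continuous_sum_dom.2 ⟨?_, continuous_const⟩
  exact (hg.comp (continuous_inl.comp (continuous_snd.comp continuous_subtype_val))).mul
    ((hg.comp (continuous_inr.comp (continuous_fst.comp continuous_subtype_val))).div'
      continuous_const)

/-- The spaces `Z ⊕ {pt}` and `K ⊕ (one point compactification)` are `G`-equivalent. -/
theorem gequiv {e : ℕ × C → K} (he : Continuous e) (hclu : Clu e) (G : Type*)
    [CommGroup G] [TopologicalSpace G] [IsTopologicalGroup G] :
    GEquivalent G (K ⊕ OnePoint (ℕ × C)) (Zset e ⊕ Unit) := by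
  refine ⟨{
    toFun := fun g => ⟨Psi e g.1, continuous_Psi g.2⟩
    invFun := fun f => ⟨Phi e f.1, continuous_Phi he hclu f.2⟩
    left_inv := fun g => Subtype.ext (Phi_Psi e g.1)
    right_inv := fun f => Subtype.ext (Psi_Phi e f.1)
    map_mul' := ?_
    continuous_toFun := ?_
    continuous_invFun := ?_ }⟩
  · intro g g'
    refine Subtype.ext ?_
    funext x
    rcases x with z | _
    · show (g.1 (Sum.inl z.1.2) * g'.1 (Sum.inl z.1.2)) *
        ((g.1 (Sum.inr z.1.1) * g'.1 (Sum.inr z.1.1)) / (g.1 (Sum.inr ∞) * g'.1 (Sum.inr ∞))) =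
        (g.1 (Sum.inl z.1.2) * (g.1 (Sum.inr z.1.1) / g.1 (Sum.inr ∞))) *
        (g'.1 (Sum.inl z.1.2) * (g'.1 (Sum.inr z.1.1) / g'.1 (Sum.inr ∞)))
      rw [mul_div_mul_comm, mul_mul_mul_comm]
    · rfl
  · refine Continuous.subtype_mk (continuous_pi fun x => ?_) _
    have hev : ∀ y, Continuous fun g : Cp (K ⊕ OnePoint (ℕ × C)) G => g.1 y := fun y =>
      (continuous_apply y).comp continuous_subtype_val
    rcases x with z | _
    · exact (hev _).mul ((hev _).div' (hev _))
    · exact hev _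
  · refine Continuous.subtype_mk (continuous_pi fun x => ?_) _
    have hev : ∀ y, Continuous fun g : Cp (Zset e ⊕ Unit) G => g.1 y := fun y =>
      (continuous_apply y).comp continuous_subtype_val
    rcases x with k | w
    · exact hev _
    · induction w using OnePoint.rec with
      | infty => exact hev _
      | coe l => exact ((hev _).div' (hev _)).mul (hev _)

theorem sep_onePoint (hC : Sep C) : Sep (OnePoint (ℕ × C)) := by
  have hpiece : ∀ (n : ℕ) (V : Set C), IsClopen V →
      IsClopen (((↑) : ℕ × C → OnePoint (ℕ × C)) '' ({n} ×ˢ V)) := by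
    intro n V hV
    refine ⟨?_, ?_⟩
    · rw [isClosed_image_coe]
      exact ⟨(isClosed_discrete _).prod hV.1, isCompact_singleton.prod hV.1.isCompact⟩
    · rw [isOpen_image_coe]
      exact (isOpen_discrete _).prod hV.2
  have key : ∀ l : ℕ × C, ∀ w : OnePoint (ℕ × C), (l : OnePoint (ℕ × C)) ≠ w →
      ∃ U : Set (OnePoint (ℕ × C)), IsClopen U ∧ (l : OnePoint (ℕ × C)) ∈ U ∧ w ∉ U := by
    rintro ⟨n, c⟩ w hw
    induction w using OnePoint.rec with
    | infty =>
      exact ⟨_, hpiece n univ isClopen_univ, ⟨(n, c), ⟨rfl, mem_univ _⟩, rfl⟩,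
        fun ⟨l, _, hl⟩ => coe_ne_infty l hl⟩
    | coe l =>
      obtain ⟨m, d⟩ := l
      by_cases hnm : n = m
      · subst hnm
        obtain ⟨V, hV, h1, h2⟩ := hC c d fun h => hw (by rw [h])
        refine ⟨_, hpiece n V hV, ⟨(n, c), ⟨rfl, h1⟩, rfl⟩, ?_⟩
        rintro ⟨l, ⟨_, hl2⟩, hl⟩
        rw [OnePoint.coe_injective hl] at hl2
        exact h2 hl2
      · refine ⟨_, hpiece n univ isClopen_univ, ⟨(n, c), ⟨rfl, mem_univ _⟩, rfl⟩, ?_⟩
        rintro ⟨l, ⟨hl1, _⟩, hl⟩
        rw [OnePoint.coe_injective hl] at hl1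
        exact hnm (Eq.symm hl1)
  intro x y hxy
  induction x using OnePoint.rec with
  | infty =>
    induction y using OnePoint.rec with
    | infty => exact absurd rfl hxy
    | coe l =>
      obtain ⟨U, hU, h1, h2⟩ := key l ∞ hxy.symm
      exact ⟨Uᶜ, hU.compl, h2, fun h => h h1⟩
  | coe l => exact key l y hxy

end Zset

end Q175.GEq
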