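import Mathlib

/-!
# Cantor schemes with common scales

Given countably many non-empty perfect compact sets in a metric space, we find Cantor sets in them
whose branching happens at common scales.
-/

open Set Filter Topology

namespace Q175.Gauge

variable {Y : Type*} [MetricSpace Y]

/-- The invariants of the `k`-th stage of the construction. -/
structure Inv (K : ℕ → Set Y) (k : ℕ) (P : ℕ → (ℕ → Bool) → Y) (r : ℝ) : Prop where
  mem : ∀ n x, P n x ∈ K n
  agree : ∀ n x y, (∀ i, i + n < k → x i = y i) → P n x = P n y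
  pos : 0 < r
  sep : ∀ n x y, (∃ i, i + n < k ∧ x i ≠ y i) → 8 * r ≤ dist (P n x) (P n y)

omit [MetricSpace Y] in
theorem finite_vals {P : ℕ → (ℕ → Bool) → Y} {k : ℕ} (n : ℕ)
    (h : ∀ x y : ℕ → Bool, (∀ i, i + n < k → x i = y i) → P n x = P n y) :
    (range (P n)).Finite := by
  classical
  let e : (Fin k → Bool) → (ℕ → Bool) := fun s i => if hi : i < k then s ⟨i, hi⟩ else false
  refine (Set.finite_range fun s : Fin k → Bool => P n (e s)).subset ?_
  rintro _ ⟨x, rfl⟩
  refine ⟨fun i => x i, h _ _ fun i hi => ?_⟩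
  have hik : i < k := by omega
  simp [e, hik]

theorem exists_gap {V : Set Y} (hV : V.Finite) : ∃ g : ℝ, 0 < g ∧ ∀ u ∈ V, ∀ v ∈ V, u ≠ v →
    g ≤ dist u v := by
  classical
  rcases (V.offDiag).eq_empty_or_nonempty with h | h
  · refine ⟨1, one_pos, fun u hu v hv hne => ?_⟩
    have : (u, v) ∈ V.offDiag := ⟨hu, hv, hne⟩
    rw [h] at this
    exact absurd this (notMem_empty _)
  · obtain ⟨⟨a, b⟩, hab, hmin⟩ := Set.exists_min_image V.offDiag (fun p => dist p.1 p.2)
      hV.offDiag h
    exact ⟨dist a b, dist_pos.2 hab.2.2, fun u hu v hv hne => hmin (u, v) ⟨hu, hv, hne⟩⟩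

theorem step {K : ℕ → Set Y} (hK : ∀ n, Perfect (K n)) {k : ℕ} {P : ℕ → (ℕ → Bool) → Y} {r : ℝ}
    (h : Inv K k P r) : ∃ (P' : ℕ → (ℕ → Bool) → Y) (r' : ℝ), Inv K (k + 1) P' r' ∧ r' ≤ r / 2 ∧
      ∀ n x, dist (P' n x) (P n x) ≤ r / 2 := by
  classical
  have h1 : ∀ n (p : Y), ∃ q : Y, p ∈ K n → q ∈ K n ∧ q ≠ p ∧ dist q p ≤ r / 2 := by
    intro n p
    by_cases hp : p ∈ K n
    · have hacc := (hK n).acc p hp
      rw [accPt_iff_nhds] at hacc
      obtain ⟨q, ⟨hq1, hq2⟩, hne⟩ := hacc (Metric.closedBall p (r / 2))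
        (Metric.closedBall_mem_nhds p (half_pos h.pos))
      exact ⟨q, fun _ => ⟨hq2, hne, hq1⟩⟩
    · exact ⟨p, fun h => absurd h hp⟩
  choose q hq using h1
  let P' : ℕ → (ℕ → Bool) → Y := fun n x => if n ≤ k ∧ x (k - n) = true then q n (P n x) else P n x
  have hd : ∀ n x, dist (P' n x) (P n x) ≤ r / 2 := by
    intro n x
    by_cases hc : n ≤ k ∧ x (k - n) = true
    · simp only [P', if_pos hc]
      exact (hq n _ (h.mem n x)).2.2
    · simp only [P', if_neg hc, dist_self]
      exact (half_pos h.pos).le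
  have hmem : ∀ n x, P' n x ∈ K n := by
    intro n x
    by_cases hc : n ≤ k ∧ x (k - n) = true
    · simp only [P', if_pos hc]
      exact (hq n _ (h.mem n x)).1
    · simp only [P', if_neg hc]
      exact h.mem n x
  have hagree : ∀ n x y, (∀ i, i + n < k + 1 → x i = y i) → P' n x = P' n y := by
    intro n x y hxy
    have e1 : P n x = P n y := h.agree n x y fun i hi => hxy i (by omega)
    by_cases hn : n ≤ k
    · have e2 : x (k - n) = y (k - n) := hxy _ (by omega)
      simp only [P', e1, e2]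
    · simp only [P', hn, false_and, if_false, e1]
  have hne : ∀ n x y, (∃ i, i + n < k + 1 ∧ x i ≠ y i) → P' n x ≠ P' n y := by
    rintro n x y ⟨i, hi, hxy⟩ heq
    by_cases hlow : ∃ i, i + n < k ∧ x i ≠ y i
    · have h2 := h.sep n x y hlow
      have h3 := hd n x
      have h4 := hd n y
      rw [← heq] at h4
      have h5 := dist_triangle_left (P n x) (P n y) (P' n x)
      have := h.pos
      linarith
    · push Not at hlow
      have e1 : P n x = P n y := h.agree n x y hlow
      have hik : i = k - n := by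
        by_contra hne
        exact hxy (hlow i (by omega))
      have hn : n ≤ k := by omega
      subst hik
      have hp := hq n _ (h.mem n x)
      simp only [P', hn, true_and] at heq
      rcases hx : x (k - n) with _ | _
      · rcases hy : y (k - n) with _ | _
        · exact hxy (hx.trans hy.symm)
        · simp only [hx, hy, if_true] at heq
          rw [← e1] at heq
          exact hp.2.1 (by simpa using heq.symm)
      · rcases hy : y (k - n) with _ | _
        · simp only [hx, hy, if_true] at heq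
          rw [← e1] at heq
          exact hp.2.1 (by simpa using heq)
        · exact hxy (hx.trans hy.symm)
  have hfin : (⋃ n : Fin (k + 1), range (P' n)).Finite :=
    finite_iUnion fun n => finite_vals (k := k + 1) n (hagree n)
  obtain ⟨g, hg, hgap⟩ := exists_gap hfin
  refine ⟨P', min (r / 2) (g / 8), ⟨hmem, hagree, lt_min (half_pos h.pos) (by positivity), ?_⟩,
    min_le_left _ _, hd⟩
  rintro n x y ⟨i, hi, hxy⟩
  have hn : n < k + 1 := by omega
  have h6 := hgap (P' n x) (mem_iUnion.2 ⟨⟨n, hn⟩, x, rfl⟩) (P' n y)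
    (mem_iUnion.2 ⟨⟨n, hn⟩, y, rfl⟩) (hne n x y ⟨i, hi, hxy⟩)
  have h7 : min (r / 2) (g / 8) ≤ g / 8 := min_le_right _ _
  linarith

/-- Cantor sets with common scales `δ k`. -/
theorem exists_scheme {K : ℕ → Set Y} (hK : ∀ n, Perfect (K n)) (hc : ∀ n, IsCompact (K n))
    (hne : ∀ n, (K n).Nonempty) :
    ∃ (δ : ℕ → ℝ) (φ : ℕ → (ℕ → Bool) → Y), (∀ k, 0 < δ k) ∧ Tendsto δ atTop (𝓝 0) ∧
      (∀ n x, φ n x ∈ K n) ∧
      (∀ k n x y, (∀ i, i + n < k → x i = y i) → dist (φ n x) (φ n y) ≤ δ k / 2) ∧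
      (∀ k n x y, (∃ i, i + n < k ∧ x i ≠ y i) → δ k ≤ dist (φ n x) (φ n y)) := by
  classical
  choose p hp using hne
  let St : ℕ → Type _ := fun k => {s : (ℕ → (ℕ → Bool) → Y) × ℝ // Inv K k s.1 s.2}
  have hstep : ∀ k (s : St k), ∃ s' : St (k + 1), s'.1.2 ≤ s.1.2 / 2 ∧
      ∀ n x, dist (s'.1.1 n x) (s.1.1 n x) ≤ s.1.2 / 2 := by
    intro k s
    obtain ⟨P', r', h1, h2, h3⟩ := step hK s.2
    exact ⟨⟨(P', r'), h1⟩, h2, h3⟩
  choose next hn1 hn2 using hstep
  have h0 : Inv K 0 (fun n _ => p n) 1 :=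
    ⟨fun n _ => hp n, fun _ _ _ _ => rfl, one_pos, fun n x y ⟨i, hi, _⟩ => absurd hi (by omega)⟩
  let s : ∀ k, St k := fun k => Nat.rec ⟨(fun n _ => p n, 1), h0⟩ (fun k s => next k s) k
  let P : ℕ → ℕ → (ℕ → Bool) → Y := fun k => (s k).1.1
  let r : ℕ → ℝ := fun k => (s k).1.2
  have hinv : ∀ k, Inv K k (P k) (r k) := fun k => (s k).2
  have hr : ∀ k, r (k + 1) ≤ r k / 2 := fun k => hn1 k (s k)
  have hP : ∀ k n x, dist (P (k + 1) n x) (P k n x) ≤ r k / 2 := fun k => hn2 k (s k)
  have hr2 : ∀ k, r k ≤ (1 / 2) ^ k := by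
    intro k
    induction k with
    | zero => exact le_of_eq (by simp [r, s])
    | succ k ih =>
        refine (hr k).trans ?_
        rw [pow_succ]
        linarith
  have hr3 : ∀ k m, r (k + m) ≤ r k * (1 / 2) ^ m := by
    intro k m
    induction m with
    | zero => simp
    | succ m ih =>
        have := hr (k + m)
        rw [← add_assoc, pow_succ]
        linarith
  have hdist : ∀ k m n x, dist (P (k + m) n x) (P k n x) ≤ r k * (1 - (1 / 2) ^ m) := by
    intro k m n x
    induction m with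
    | zero => simp
    | succ m ih =>
        have h1 := hP (k + m) n x
        have h2 := dist_triangle (P (k + m + 1) n x) (P (k + m) n x) (P k n x)
        have h3 := hr3 k m
        rw [← add_assoc, pow_succ]
        have : r k * (1 - (1 / 2) ^ m * (1 / 2)) =
          r k * (1 - (1 / 2) ^ m) + r k * (1 / 2) ^ m / 2 := by ring
        rw [this]
        linarith
  have hdist' : ∀ k m n x, dist (P (k + m) n x) (P k n x) ≤ r k := by
    intro k m n x
    refine (hdist k m n x).trans ?_
    have h1 := (hinv k).pos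
    have h2 : (0 : ℝ) < (1 / 2) ^ m := by positivity
    nlinarith
  have hz : Tendsto (fun k : ℕ => ((1 : ℝ) / 2) ^ k) atTop (𝓝 0) :=
    tendsto_pow_atTop_nhds_zero_of_lt_one (by norm_num) (by norm_num)
  have hlim : ∀ n x, ∃ y ∈ K n, Tendsto (fun k => P k n x) atTop (𝓝 y) := by
    intro n x
    have hcauchy : CauchySeq fun k => P k n x := by
      refine Metric.cauchySeq_iff'.2 fun ε hε => ?_
      obtain ⟨N, hN⟩ := (hz.eventually (gt_mem_nhds hε)).exists
      refine ⟨N, fun k hk => ?_⟩
      obtain ⟨m, rfl⟩ := Nat.exists_eq_add_of_le hk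
      exact ((hdist' N m n x).trans (hr2 N)).trans_lt hN
    obtain ⟨y, hy, hlim⟩ := cauchySeq_tendsto_of_isComplete (hc n).isComplete
      (fun k => (hinv k).mem n x) hcauchy
    exact ⟨y, hy, hlim⟩
  choose φ hφK hφ using hlim
  have hφd : ∀ k n x, dist (φ n x) (P k n x) ≤ r k := by
    intro k n x
    have h1 : Tendsto (fun m => dist (P (m + k) n x) (P k n x)) atTop
        (𝓝 (dist (φ n x) (P k n x))) :=
      ((hφ n x).comp (tendsto_add_atTop_nat k)).dist tendsto_const_nhds
    refine le_of_tendsto h1 (Eventually.of_forall fun m => ?_)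
    rw [add_comm m k]
    exact hdist' k m n x
  refine ⟨fun k => 6 * r k, φ, fun k => by have := (hinv k).pos; positivity, ?_, hφK, ?_, ?_⟩
  · have h1 : Tendsto (fun k : ℕ => 6 * ((1 : ℝ) / 2) ^ k) atTop (𝓝 0) := by
      simpa using hz.const_mul 6
    refine squeeze_zero (fun k => by have := (hinv k).pos; positivity) (fun k => ?_) h1
    have := hr2 k
    linarith
  · intro k n x y hxy
    have h1 := (hinv k).agree n x y hxy
    have h2 := hφd k n x
    have h3 := hφd k n y
    have h4 := dist_triangle_right (φ n x) (φ n y) (P k n x)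
    rw [h1] at h2 h4
    have := (hinv k).pos
    linarith
  · intro k n x y hxy
    have h1 := (hinv k).sep n x y hxy
    have h2 := hφd k n x
    have h3 := hφd k n y
    have h5 := dist_triangle4 (P k n x) (φ n x) (φ n y) (P k n y)
    rw [dist_comm (P k n x) (φ n x)] at h5
    show 6 * r k ≤ _
    linarith

end Q175.Gauge
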