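import Mathlib
import Pool.Agent.Q175.Om

/-!
# A union of two mutually dense, compactly separated subspaces of a Cantor cube
-/

set_option autoImplicit false

universe v

namespace Q175.MixCube

open Set Topology Filter

/-- the index set -/
abbrev A (Γ : Type) : Type := ℕ × Γ × Bool

variable {Γ : Type}

/-- the coordinates of level at least `n` or of kind `i` -/
def cell (n : ℕ) (i : Bool) : Set (A Γ) := {a | n ≤ a.1 ∨ a.2.2 = i}

lemma cell_anti {n m : ℕ} (h : n ≤ m) (i : Bool) : (cell m i : Set (A Γ)) ⊆ cell n i := by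
  rintro a (ha | ha)
  · exact Or.inl (h.trans ha)
  · exact Or.inr ha

/-- the two parts -/
def XS (i : Bool) : Set (A Γ → Bool) := {x | ∃ n, {a | a ∈ cell n i ∧ x a ≠ i}.Countable}

/-- the space -/
abbrev X (Γ : Type) : Type := {x : A Γ → Bool // ∃ i, x ∈ XS i}

open Classical in
/-- restrict to `C`, and put `i` elsewhere -/
noncomputable def pr (i : Bool) (C : Set (A Γ)) (x : A Γ → Bool) : A Γ → Bool :=
  fun a => if a ∈ C then x a else i

lemma pr_of_mem {i : Bool} {C : Set (A Γ)} {x : A Γ → Bool} {a : A Γ} (h : a ∈ C) :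
    pr i C x a = x a := if_pos h

lemma pr_of_notMem {i : Bool} {C : Set (A Γ)} {x : A Γ → Bool} {a : A Γ} (h : a ∉ C) :
    pr i C x a = i := if_neg h

lemma continuous_pr (i : Bool) (C : Set (A Γ)) : Continuous (pr i C) := by
  refine continuous_pi fun a => ?_
  by_cases h : a ∈ C
  · have : (fun x : A Γ → Bool => pr i C x a) = fun x => x a := funext fun x => pr_of_mem h
    rw [this]
    exact continuous_apply a
  · have : (fun x : A Γ → Bool => pr i C x a) = fun x => i := funext fun x => pr_of_notMem h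
    rw [this]
    exact continuous_const

/-- the compact pieces -/
def Qc (i : Bool) (n : ℕ) (D : Set (A Γ)) : Set (A Γ → Bool) :=
  {x | ∀ a ∈ cell n i, a ∉ D → x a = i}

lemma Qc_subset {i : Bool} {n : ℕ} {D : Set (A Γ)} (hD : D.Countable) : Qc i n D ⊆ XS i := by
  intro x hx
  refine ⟨n, hD.mono ?_⟩
  rintro a ⟨ha, hxa⟩
  by_contra h
  exact hxa (hx a ha h)

lemma Qc_mono {i : Bool} {n m : ℕ} {D D' : Set (A Γ)} (h : n ≤ m) (hD : D ⊆ D') :
    Qc i n D ⊆ Qc i m D' := fun _ hx a ha haD => hx a (cell_anti h i ha) fun h' => haD (hD h')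

lemma exists_Qc {i : Bool} {x : A Γ → Bool} (hx : x ∈ XS i) : ∃ (n : ℕ) (D : Set (A Γ)),
    D.Countable ∧ x ∈ Qc i n D := by
  obtain ⟨n, hn⟩ := hx
  refine ⟨n, _, hn, fun a ha haD => ?_⟩
  by_contra h
  exact haD ⟨ha, h⟩

lemma pr_mem_Qc {i : Bool} {C : Set (A Γ)} {x : A Γ → Bool} : pr i C x ∈ Qc i 0 C :=
  fun _ _ ha => pr_of_notMem ha

lemma pr_mem {i : Bool} {C : Set (A Γ)} (hC : C.Countable) (x : A Γ → Bool) : pr i C x ∈ XS i :=
  Qc_subset hC pr_mem_Qc

/-- the projection with values in the space -/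
noncomputable def pX (i : Bool) (C : Set (A Γ)) (hC : C.Countable) (x : A Γ → Bool) : X Γ :=
  ⟨pr i C x, i, pr_mem hC x⟩

lemma continuous_pX (i : Bool) (C : Set (A Γ)) (hC : C.Countable) : Continuous (pX i C hC) :=
  Continuous.subtype_mk (continuous_pr i C) _

/-- the compact product pieces -/
def QP {ι : Type v} (τ : ι → Bool) (n : ℕ) (D : Set (A Γ)) : Set (ι → X Γ) :=
  {x | ∀ i, (x i).1 ∈ Qc (τ i) n D}

lemma isCompact_QP {ι : Type v} (τ : ι → Bool) (n : ℕ) {D : Set (A Γ)} (hD : D.Countable) :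
    IsCompact (QP τ n D) := by
  have h1 : ∀ i, IsClosed (Qc i n D) := by
    intro i
    have : (Qc i n D : Set (A Γ → Bool)) = ⋂ a ∈ cell n i, ⋂ (_ : a ∉ D), {x | x a = i} := by
      ext x
      simp only [mem_iInter]
      rfl
    rw [this]
    exact isClosed_biInter fun a _ => isClosed_iInter fun _ =>
      isClosed_eq (continuous_apply a) continuous_const
  have h2 : IsCompact {z : ι → A Γ → Bool | ∀ i, z i ∈ Qc (τ i) n D} := by
    have : {z : ι → A Γ → Bool | ∀ i, z i ∈ Qc (τ i) n D} = ⋂ i, {z | z i ∈ Qc (τ i) n D} := by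
      ext z
      simp
    rw [this]
    exact (isClosed_iInter fun i => (h1 (τ i)).preimage (continuous_apply i)).isCompact
  let e : (ι → X Γ) → (ι → A Γ → Bool) := fun x i => (x i).1
  have he : IsInducing e := IsInducing.piMap (fun _ => IsInducing.subtypeVal)
  rw [he.isCompact_iff]
  have : e '' QP τ n D = {z : ι → A Γ → Bool | ∀ i, z i ∈ Qc (τ i) n D} := by
    ext z
    constructor
    · rintro ⟨x, hx, rfl⟩
      exact hx
    · intro hz
      exact ⟨fun i => ⟨z i, τ i, Qc_subset hD (hz i)⟩, hz, rfl⟩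
  rw [this]
  exact h2

/-- approximate dependence on the `Σ`-product -/
lemma dep_aux {ι : Type v} [Finite ι] (τ : ι → Bool) (φ : (ι → X Γ) → ℝ)
    (hφ : ∀ n D, D.Countable → ContinuousOn φ (QP τ n D)) {ε : ℝ}
    (hε : 0 < ε) : ∃ C : Set (A Γ), C.Countable ∧ ∀ x y : ι → X Γ,
      (∀ i, {a | (x i).1 a ≠ τ i}.Countable) → (∀ i, {a | (y i).1 a ≠ τ i}.Countable) →
      (∀ i, ∀ a ∈ C, (x i).1 a = (y i).1 a) → |φ x - φ y| ≤ ε := by
  classical
  by_contra hcon
  push Not at hcon
  choose Z Y hZ hY hZY hφZY using fun C : {C : Set (A Γ) // C.Countable} => hcon C.1 C.2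
  let step : {C : Set (A Γ) // C.Countable} → {C : Set (A Γ) // C.Countable} := fun C =>
    ⟨C.1 ∪ ((⋃ i, {a | (Z C i).1 a ≠ τ i}) ∪ ⋃ i, {a | (Y C i).1 a ≠ τ i}),
      C.2.union ((countable_iUnion fun i => hZ C i).union (countable_iUnion fun i => hY C i))⟩
  let Cs : ℕ → {C : Set (A Γ) // C.Countable} := fun n => Nat.rec ⟨∅, countable_empty⟩
    (fun _ C => step C) n
  have hCs : ∀ n, Cs (n + 1) = step (Cs n) := fun n => rfl
  set D : Set (A Γ) := ⋃ n, (Cs n).1 with hD
  have hDc : D.Countable := countable_iUnion fun n => (Cs n).2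
  have hmono : Monotone fun n => (Cs n).1 := monotone_nat_of_le_succ fun n => by
    rw [hCs]
    exact subset_union_left
  have hsub : ∀ n, (Cs n).1 ⊆ D := fun n => subset_iUnion (fun n => (Cs n).1) n
  have hZt : ∀ n i a, a ∉ D → (Z (Cs n) i).1 a = τ i := by
    intro n i a ha
    by_contra h
    refine ha (hsub (n + 1) ?_)
    rw [hCs]
    exact Or.inr (Or.inl (mem_iUnion.2 ⟨i, h⟩))
  have hYt : ∀ n i a, a ∉ D → (Y (Cs n) i).1 a = τ i := by
    intro n i a ha
    by_contra h
    refine ha (hsub (n + 1) ?_)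
    rw [hCs]
    exact Or.inr (Or.inr (mem_iUnion.2 ⟨i, h⟩))
  -- the compact set
  have hE := isCompact_QP τ 0 hDc
  have hZE : ∀ n, Z (Cs n) ∈ QP τ 0 D := fun n i a _ ha => hZt n i a ha
  have hYE : ∀ n, Y (Cs n) ∈ QP τ 0 D := fun n i a _ ha => hYt n i a ha
  let u : ℕ → (ι → X Γ) × (ι → X Γ) := fun n => (Z (Cs n), Y (Cs n))
  obtain ⟨⟨x, y⟩, ⟨hx, hy⟩, hlim⟩ := (hE.prod hE).ultrafilter_le_nhds
    ((hyperfilter ℕ).map u) (by
      rw [le_principal_iff]
      exact mem_map.2 (Eventually.of_forall fun n => ⟨hZE n, hYE n⟩))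
  have htend : Tendsto u (hyperfilter ℕ : Filter ℕ) (𝓝 (x, y)) := hlim
  have hev : ∀ {S : Set ((ι → X Γ) × (ι → X Γ))}, IsClosed S → (∀ᶠ n in atTop, u n ∈ S) →
      (x, y) ∈ S := by
    intro S hS h
    refine hS.mem_of_tendsto htend ?_
    exact Nat.hyperfilter_le_atTop h
  have hxy : x = y := by
    funext i
    refine Subtype.ext (funext fun a => ?_)
    have hcl : IsClosed {p : (ι → X Γ) × (ι → X Γ) | (p.1 i).1 a = (p.2 i).1 a} := by
      refine isClosed_eq ?_ ?_
      · exact (continuous_apply a).comp (continuous_subtype_val.comp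
          ((continuous_apply i).comp continuous_fst))
      · exact (continuous_apply a).comp (continuous_subtype_val.comp
          ((continuous_apply i).comp continuous_snd))
    refine hev hcl ?_
    by_cases ha : a ∈ D
    · obtain ⟨n₀, hn₀⟩ := mem_iUnion.1 ha
      filter_upwards [eventually_ge_atTop n₀] with n hn
      exact hZY (Cs n) i a (hmono hn hn₀)
    · refine Eventually.of_forall fun n => ?_
      change (Z (Cs n) i).1 a = (Y (Cs n) i).1 a
      rw [hZt n i a ha, hYt n i a ha]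
  have h1 : Tendsto (fun n => φ (Z (Cs n))) (hyperfilter ℕ : Filter ℕ) (𝓝 (φ x)) := by
    refine (hφ 0 D hDc x hx).tendsto.comp ?_
    rw [tendsto_nhdsWithin_iff]
    exact ⟨(continuous_fst.tendsto _).comp htend, Eventually.of_forall hZE⟩
  have h2 : Tendsto (fun n => φ (Y (Cs n))) (hyperfilter ℕ : Filter ℕ) (𝓝 (φ y)) := by
    refine (hφ 0 D hDc y hy).tendsto.comp ?_
    rw [tendsto_nhdsWithin_iff]
    exact ⟨(continuous_snd.tendsto _).comp htend, Eventually.of_forall hYE⟩
  have h3 : ε ≤ |φ x - φ y| :=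
    ge_of_tendsto (h1.sub h2).abs (Eventually.of_forall fun n => (hφZY (Cs n)).le)
  rw [hxy, sub_self, abs_zero] at h3
  exact absurd h3 (not_le.2 hε)

/-- the points of the `Σ`-product approximating a given point -/
lemma tendsto_pX {ι : Type v} (τ : ι → Bool) {C : Set (A Γ)} (hC : C.Countable)
    (z : ι → X Γ) : Tendsto
      (fun (F : Finset (A Γ)) (i : ι) => pX (τ i) (C ∪ F) (hC.union F.countable_toSet) (z i).1)
      atTop (𝓝 z) := by
  classical
  rw [tendsto_pi_nhds]
  intro i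
  rw [tendsto_subtype_rng, tendsto_pi_nhds]
  intro a
  refine tendsto_const_nhds.congr' ?_
  filter_upwards [eventually_ge_atTop {a}] with F hF
  change _ = pr _ _ _ a
  rw [pr_of_mem (mem_union_right _ (hF (Finset.mem_singleton_self a)))]

/-- dependence on countably many coordinates -/
lemma dep {ι : Type v} [Finite ι] (τ : ι → Bool) (φ : (ι → X Γ) → ℝ)
    (hφ : ∀ n D, D.Countable → ContinuousOn φ (QP τ n D)) :
    ∃ C : Set (A Γ), C.Countable ∧ ∀ x y : ι → X Γ,
      (∀ i, (x i).1 ∈ XS (τ i)) → (∀ i, (y i).1 ∈ XS (τ i)) →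
      (∀ i, ∀ a ∈ C, (x i).1 a = (y i).1 a) → φ x = φ y := by
  classical
  choose C hC hdep using fun n : ℕ => dep_aux τ φ hφ (ε := 1 / ((n : ℝ) + 1)) (by positivity)
  refine ⟨⋃ n, C n, countable_iUnion hC, fun x y hx hy hxy => ?_⟩
  have hlim : ∀ n (z : ι → X Γ), (∀ i, (z i).1 ∈ XS (τ i)) → Tendsto (fun F : Finset (A Γ) =>
      φ fun i => pX (τ i) (C n ∪ F) ((hC n).union F.countable_toSet) (z i).1) atTop
      (𝓝 (φ z)) := by
    intro n z hz
    choose m D hD hm using fun i => exists_Qc (hz i)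
    obtain ⟨M, hM⟩ := (finite_range m).bddAbove
    have hzQ : z ∈ QP τ M (⋃ i, D i) := fun i =>
      Qc_mono (hM (mem_range_self i)) (subset_iUnion D i) (hm i)
    refine (hφ M _ (countable_iUnion hD) z hzQ).tendsto.comp ?_
    rw [tendsto_nhdsWithin_iff]
    refine ⟨tendsto_pX τ (hC n) z, Eventually.of_forall fun F i a ha haD => ?_⟩
    change pr _ _ _ a = _
    by_cases h : a ∈ C n ∪ (F : Set (A Γ))
    · rw [pr_of_mem h]
      exact hzQ i a ha haD
    · rw [pr_of_notMem h]
  have hle : ∀ n : ℕ, |φ x - φ y| ≤ 1 / ((n : ℝ) + 1) := by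
    intro n
    refine le_of_tendsto ((hlim n x hx).sub (hlim n y hy)).abs (Eventually.of_forall fun F => ?_)
    have hcnt : ∀ (z : ι → X Γ) i, {a | (pX (τ i) (C n ∪ F) ((hC n).union F.countable_toSet)
        (z i).1).1 a ≠ τ i}.Countable := by
      intro z i
      refine ((hC n).union F.countable_toSet).mono fun a ha => ?_
      by_contra h
      exact ha (pr_of_notMem h)
    refine hdep n _ _ (hcnt x) (hcnt y) fun i a ha => ?_
    change pr _ _ _ a = pr _ _ _ a
    rw [pr_of_mem (mem_union_left _ ha), pr_of_mem (mem_union_left _ ha)]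
    exact hxy i a (mem_iUnion.2 ⟨n, ha⟩)
  have h0 : |φ x - φ y| ≤ 0 := by
    refine ge_of_tendsto (tendsto_one_div_add_atTop_nhds_zero_nat (𝕜 := ℝ)) ?_
    exact Eventually.of_forall hle
  exact sub_eq_zero.1 (abs_nonpos_iff.1 h0)

/-- continuous functions depend on countably many coordinates -/
lemma dep_cont {ι : Type v} [Finite ι] (φ : (ι → X Γ) → ℝ) (hφ : Continuous φ) :
    ∃ C : Set (A Γ), C.Countable ∧ ∀ x y : ι → X Γ,
      (∀ i, ∀ a ∈ C, (x i).1 a = (y i).1 a) → φ x = φ y := by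
  classical
  obtain ⟨C, hC, hdep⟩ := dep (fun _ => true) φ fun n D _ => hφ.continuousOn
  refine ⟨C, hC, ?_⟩
  have key : ∀ x : ι → X Γ, φ x = φ fun i => pX true C hC (x i).1 := by
    intro x
    have h1 := (hφ.tendsto x).comp (tendsto_pX (fun _ => true) hC x)
    refine tendsto_nhds_unique h1 ?_
    refine tendsto_const_nhds.congr fun F => ?_
    refine hdep _ _ (fun i => pr_mem hC _) (fun i => pr_mem (hC.union F.countable_toSet) _) ?_
    intro i a ha
    change pr _ _ _ a = pr _ _ _ a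
    rw [pr_of_mem ha, pr_of_mem (mem_union_left _ ha)]
  intro x y hxy
  rw [key x, key y]
  congr 1
  funext i
  refine Subtype.ext (funext fun a => ?_)
  change pr _ _ _ a = pr _ _ _ a
  by_cases ha : a ∈ C
  · rw [pr_of_mem ha, pr_of_mem ha]
    exact hxy i a ha
  · rw [pr_of_notMem ha, pr_of_notMem ha]

end Q175.MixCube
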