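import Mathlib
import Pool.Agent.Q175.MixCube
import Pool.Agent.Q175.FreeKO
import Pool.Agent.Q175.FreeKRSub

/-!
# The free topological group of the mixed space is a `k_R`-space
-/

set_option autoImplicit false

universe u v

namespace Q175.MixCube

open Set Topology Filter FreeGroup Q177.FreeTop Q175.FreeKO

/-- functions continuous on compact sets are sequentially continuous -/
lemma tendsto_of_seq {Y : Type u} [TopologicalSpace Y] {f : Y → ℝ}
    (hf : ∀ K : Set Y, IsCompact K → ContinuousOn f K) {w : ℕ → Y} {w₀ : Y}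
    (h : Tendsto w atTop (𝓝 w₀)) : Tendsto (fun m => f (w m)) atTop (𝓝 (f w₀)) := by
  have hK := h.isCompact_insert_range
  have h1 := (hf _ hK) w₀ (mem_insert _ _)
  refine h1.tendsto.comp ?_
  rw [tendsto_nhdsWithin_iff]
  exact ⟨h, Eventually.of_forall fun n => Or.inr ⟨n, rfl⟩⟩

variable {Γ : Type}

open Classical in
/-- the approximating sequences -/
noncomputable def sq (i : Bool) (C : Set (A Γ)) (x : A Γ → Bool) (m : ℕ) : A Γ → Bool :=
  fun a => if a ∈ C then x a else if m ≤ a.1 then i else a.2.2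

open Classical in
/-- the limit of the approximating sequences -/
noncomputable def dl (C : Set (A Γ)) (x : A Γ → Bool) : A Γ → Bool :=
  fun a => if a ∈ C then x a else a.2.2

lemma sq_mem {i : Bool} {C : Set (A Γ)} (hC : C.Countable) (x : A Γ → Bool) (m : ℕ) :
    sq i C x m ∈ XS i := by
  refine Qc_subset hC (n := m) ?_
  rintro a (ha | ha) haC
  · simp [sq, haC, ha]
  · simp [sq, haC, ha]

lemma sq_agree {i : Bool} {C : Set (A Γ)} {x : A Γ → Bool} {m : ℕ} {a : A Γ} (ha : a ∈ C) :
    sq i C x m a = x a := if_pos ha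

lemma tendsto_sq (i : Bool) (C : Set (A Γ)) (x : A Γ → Bool) :
    Tendsto (sq i C x) atTop (𝓝 (dl C x)) := by
  rw [tendsto_pi_nhds]
  intro a
  refine tendsto_const_nhds.congr' ?_
  filter_upwards [eventually_gt_atTop a.1] with m hm
  by_cases ha : a ∈ C
  · simp [sq, dl, ha]
  · simp [sq, dl, ha, not_le.2 hm]

/-- the approximating sequences in the space -/
noncomputable def sX (i : Bool) (C : Set (A Γ)) (hC : C.Countable) (x : A Γ → Bool) (m : ℕ) :
    X Γ := ⟨sq i C x m, i, sq_mem hC x m⟩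

/-- continuous functions factor -/
lemma factor_cont (f : FreeGroup (X Γ) → ℝ)
    (hf : ∀ (n : ℕ) (b : Fin n → Bool), Continuous fun x : Fin n → X Γ => f (wd b x)) :
    ∃ (C : Set (A Γ)) (hC : C.Countable), ∀ w : FreeGroup (X Γ),
      f (FreeGroup.map (pX true C hC) (FreeGroup.map Subtype.val w)) = f w := by
  choose C hC hdep using fun s : Σ n : ℕ, (Fin n → Bool) => dep_cont (Γ := Γ) _ (hf s.1 s.2)
  refine ⟨⋃ s, C s, countable_iUnion hC, fun w => ?_⟩
  obtain ⟨n, b, x, rfl⟩ := exists_wd w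
  rw [map_wd, map_wd]
  refine hdep ⟨n, b⟩ _ _ fun i a ha => ?_
  exact pr_of_mem (mem_iUnion.2 ⟨⟨n, b⟩, ha⟩)

variable [TopologicalSpace (FreeGroup (X Γ))]

/-- pairs with a common limit in the cube tend to the identity -/
lemma tendsto_pair (hT : IsFreeTop (X Γ)) {x y : ℕ → X Γ} {d : A Γ → Bool}
    (hx : Tendsto (fun m => (x m).1) atTop (𝓝 d)) (hy : Tendsto (fun m => (y m).1) atTop (𝓝 d))
    (b : Bool) : Tendsto (fun m => (FreeGroup.mk [(x m, b), (y m, !b)] : FreeGroup (X Γ))) atTop
      (𝓝 1) := by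
  have := hT.grp
  have hcr : CompletelyRegularSpace (FreeGroup (X Γ)) :=
    CompletelyRegularSpace.of_exists_uniformSpace
      ⟨IsTopologicalGroup.rightUniformSpace (FreeGroup (X Γ)), rfl⟩
  intro U hU
  obtain ⟨V, hVU, hV, h1V⟩ := mem_nhds_iff.1 hU
  obtain ⟨g, hg, hg1, hgV⟩ := hcr.completely_regular 1 Vᶜ hV.isClosed_compl (fun h => h h1V)
  let f : FreeGroup (X Γ) → ℝ := fun w => (g w : ℝ)
  have hf : Continuous f := continuous_subtype_val.comp hg
  have hf1 : f 1 = 0 := by
    simp only [f, hg1]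
    rfl
  have hfV : ∀ w, f w < 1 → w ∈ U := by
    intro w hw
    refine hVU ?_
    by_contra h
    have h2 := hgV h
    simp only [f] at hw
    rw [h2] at hw
    simp at hw
  obtain ⟨C, hC, hfac⟩ := factor_cont f fun n b => hf.comp (continuous_wd hT.cont b)
  have hcont : Continuous fun p : X Γ × X Γ =>
      (FreeGroup.mk [(p.1, b), (p.2, !b)] : FreeGroup (X Γ)) := by
    cases b
    · have : (fun p : X Γ × X Γ => (FreeGroup.mk [(p.1, false), (p.2, !false)] :
          FreeGroup (X Γ))) = fun p => (FreeGroup.of p.1)⁻¹ * FreeGroup.of p.2 :=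
        funext fun p => mk_pair_false p.1 p.2
      rw [this]
      exact (hT.cont.comp continuous_fst).inv.mul (hT.cont.comp continuous_snd)
    · have : (fun p : X Γ × X Γ => (FreeGroup.mk [(p.1, true), (p.2, !true)] :
          FreeGroup (X Γ))) = fun p => FreeGroup.of p.1 * (FreeGroup.of p.2)⁻¹ :=
        funext fun p => mk_pair_true p.1 p.2
      rw [this]
      exact (hT.cont.comp continuous_fst).mul (hT.cont.comp continuous_snd).inv
  have h1 : Tendsto (fun m => (pX true C hC (x m).1, pX true C hC (y m).1)) atTop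
      (𝓝 (pX true C hC d, pX true C hC d)) :=
    (((continuous_pX true C hC).tendsto d).comp hx).prodMk_nhds
      (((continuous_pX true C hC).tendsto d).comp hy)
  have h2 : Tendsto (fun m => f (FreeGroup.mk [(x m, b), (y m, !b)])) atTop (𝓝 0) := by
    have h3 : (fun m => f (FreeGroup.mk [(x m, b), (y m, !b)])) = fun m =>
        f (FreeGroup.mk [(pX true C hC (x m).1, b), (pX true C hC (y m).1, !b)]) := by
      funext m
      rw [← hfac]
      rfl
    rw [h3]
    have h4 := ((hf.comp hcont).tendsto (pX true C hC d, pX true C hC d)).comp h1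
    have h5 : (f ∘ fun p : X Γ × X Γ => (FreeGroup.mk [(p.1, b), (p.2, !b)] :
        FreeGroup (X Γ))) (pX true C hC d, pX true C hC d) = 0 := by
      have : (FreeGroup.mk [(pX true C hC d, b), (pX true C hC d, !b)] :
          FreeGroup (X Γ)) = 1 := by
        have := FreeGroup.Red.Step.not (L₁ := []) (L₂ := []) (x := pX true C hC d) (b := b)
        exact Quot.sound this
      simp only [Function.comp, this, hf1]
    rw [h5] at h4
    exact h4
  have h6 := h2.eventually (gt_mem_nhds one_pos)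
  rw [mem_map]
  filter_upwards [h6] with m hm
  exact hfV _ hm

variable [TopologicalSpace (FreeGroup (A Γ → Bool))]

/-- the free topological group is a `k_R`-space -/
lemma kR_mix [Nonempty Γ] (hT : IsFreeTop (X Γ)) (hK : IsFreeTop (A Γ → Bool))
    (f : FreeGroup (X Γ) → ℝ)
    (hf : ∀ C : Set (FreeGroup (X Γ)), IsCompact C → ContinuousOn f C) : Continuous f := by
  classical
  have := hT.grp
  have := hK.grp
  have : T2Space (FreeGroup (A Γ → Bool)) := t2_of_sep hK Q175.FreeKRSub.exists_sep_cube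
  -- words on compact pieces
  have hQP : ∀ (n : ℕ) (b τ : Fin n → Bool) (m : ℕ) (D : Set (A Γ)), D.Countable →
      ContinuousOn (fun x : Fin n → X Γ => f (wd b x)) (QP τ m D) := by
    intro n b τ m D hD
    exact (hf _ ((isCompact_QP τ m hD).image (continuous_wd hT.cont b))).comp
      (continuous_wd hT.cont b).continuousOn (mapsTo_image _ _)
  choose C hC hdep using fun s : Σ n : ℕ, (Fin n → Bool) × (Fin n → Bool) =>
    dep (Γ := Γ) s.2.2 (fun x : Fin s.1 → X Γ => f (wd s.2.1 x)) (hQP s.1 s.2.1 s.2.2)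
  set C₀ : Set (A Γ) := ⋃ s, C s with hC₀
  have hC₀c : C₀.Countable := countable_iUnion hC
  -- same types
  have hlist : ∀ L L' : List (X Γ × Bool), List.Forall₂ (fun p q : X Γ × Bool => p.2 = q.2 ∧
      (∃ i, p.1.1 ∈ XS i ∧ q.1.1 ∈ XS i) ∧ ∀ a ∈ C₀, p.1.1 a = q.1.1 a) L L' →
      f (FreeGroup.mk L) = f (FreeGroup.mk L') := by
    intro L L' h
    rw [List.forall₂_iff_get] at h
    obtain ⟨hlen, h⟩ := h
    choose! τ hτ using fun (i : Fin L.length) => (h i i.2 (hlen ▸ i.2)).2.1
    have h1 : FreeGroup.mk L = wd (fun i : Fin L.length => (L.get i).2)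
        (fun i => (L.get i).1) := by
      unfold wd
      congr 1
      exact (List.ofFn_get L).symm
    have h2 : FreeGroup.mk L' = wd (fun i : Fin L.length => (L.get i).2)
        (fun i => (L'.get ⟨i, hlen ▸ i.2⟩).1) := by
      unfold wd
      congr 1
      refine List.ext_get (by simp [hlen]) fun n h3 h4 => ?_
      rw [List.get_ofFn]
      have h5 := (h n (hlen ▸ h3) h3).1
      refine Prod.ext rfl ?_
      exact h5.symm
    rw [h1, h2]
    refine hdep ⟨L.length, fun i => (L.get i).2, τ⟩ _ _ (fun i => (hτ i).1) (fun i => (hτ i).2) ?_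
    intro i a ha
    exact (h i i.2 (hlen ▸ i.2)).2.2 a (mem_iUnion.2 ⟨_, ha⟩)
  have hsame : ∀ (L₁ L₂ : List (X Γ × Bool)) (b : Bool) (x y : X Γ) (i : Bool), x.1 ∈ XS i →
      y.1 ∈ XS i → (∀ a ∈ C₀, x.1 a = y.1 a) →
      f (FreeGroup.mk (L₁ ++ (x, b) :: L₂)) = f (FreeGroup.mk (L₁ ++ (y, b) :: L₂)) := by
    intro L₁ L₂ b x y i hx hy hxy
    refine hlist _ _ ?_
    have hrefl : ∀ L : List (X Γ × Bool), List.Forall₂ (fun p q : X Γ × Bool => p.2 = q.2 ∧
        (∃ i, p.1.1 ∈ XS i ∧ q.1.1 ∈ XS i) ∧ ∀ a ∈ C₀, p.1.1 a = q.1.1 a) L L := by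
      intro L
      refine List.forall₂_same.2 fun p _ => ⟨rfl, ?_, fun a _ => rfl⟩
      obtain ⟨i, hi⟩ := p.1.2
      exact ⟨i, hi, hi⟩
    exact List.rel_append (hrefl L₁) (List.Forall₂.cons ⟨rfl, ⟨i, hx, hy⟩, hxy⟩ (hrefl L₂))
  -- arbitrary types
  have hone : ∀ (L₁ L₂ : List (X Γ × Bool)) (b : Bool) (x y : X Γ),
      (∀ a ∈ C₀, x.1 a = y.1 a) →
      f (FreeGroup.mk (L₁ ++ (x, b) :: L₂)) = f (FreeGroup.mk (L₁ ++ (y, b) :: L₂)) := by
    intro L₁ L₂ b x y hxy
    obtain ⟨i, hi⟩ := x.2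
    obtain ⟨j, hj⟩ := y.2
    have hd : dl C₀ x.1 = dl C₀ y.1 := by
      funext a
      unfold dl
      split_ifs with ha
      · exact hxy a ha
      · rfl
    let xs : ℕ → X Γ := sX i C₀ hC₀c x.1
    let ys : ℕ → X Γ := sX j C₀ hC₀c y.1
    have hxs : Tendsto (fun m => (xs m).1) atTop (𝓝 (dl C₀ x.1)) := tendsto_sq i C₀ x.1
    have hys : Tendsto (fun m => (ys m).1) atTop (𝓝 (dl C₀ x.1)) := by
      rw [hd]
      exact tendsto_sq j C₀ y.1
    have h1 : ∀ m, f (FreeGroup.mk (L₁ ++ (x, b) :: L₂)) =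
        f (FreeGroup.mk L₁ * FreeGroup.mk [(xs m, b), (ys m, !b)] *
          FreeGroup.mk ((ys 0, b) :: L₂)) := by
      intro m
      rw [hsame L₁ L₂ b x (xs m) i hi (sq_mem hC₀c _ _) fun a ha => (sq_agree ha).symm]
      have h2 : FreeGroup.mk (L₁ ++ (xs m, b) :: L₂) =
          FreeGroup.mk ((L₁ ++ [(xs m, b), (ys m, !b)]) ++ (ys m, b) :: L₂) := by
        have := FreeGroup.Red.Step.not_rev (L₁ := L₁ ++ [(xs m, b)]) (L₂ := L₂) (x := ys m)
          (b := b)
        have h3 := Quot.sound this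
        simp only [List.append_assoc, List.cons_append, List.nil_append] at h3 ⊢
        exact h3.symm
      rw [h2, hsame _ _ b (ys m) (ys 0) j (sq_mem hC₀c _ _) (sq_mem hC₀c _ _)
        fun a ha => (sq_agree ha).trans (sq_agree ha).symm]
      simp only [FreeGroup.mul_mk]
    have h2 : Tendsto (fun m => f (FreeGroup.mk L₁ * FreeGroup.mk [(xs m, b), (ys m, !b)] *
          FreeGroup.mk ((ys 0, b) :: L₂))) atTop (𝓝 (f (FreeGroup.mk L₁ * 1 *
          FreeGroup.mk ((ys 0, b) :: L₂)))) := by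
      refine tendsto_of_seq hf ?_
      exact (tendsto_const_nhds.mul (tendsto_pair hT hxs hys b)).mul tendsto_const_nhds
    have h3 : f (FreeGroup.mk (L₁ ++ (x, b) :: L₂)) = f (FreeGroup.mk L₁ * 1 *
          FreeGroup.mk ((ys 0, b) :: L₂)) := by
      refine tendsto_nhds_unique ?_ h2
      exact tendsto_const_nhds.congr h1
    rw [h3, mul_one, FreeGroup.mul_mk]
    exact hsame L₁ L₂ b (ys 0) y j (sq_mem hC₀c _ _) hj fun a ha => sq_agree ha
  -- whole words
  have hword : ∀ (L P : List (X Γ × Bool)), f (FreeGroup.mk (P ++ L)) =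
      f (FreeGroup.mk (P ++ L.map fun p => (pX true C₀ hC₀c p.1.1, p.2))) := by
    intro L
    induction L with
    | nil => intro P; rfl
    | cons p L ih =>
      intro P
      obtain ⟨x, b⟩ := p
      rw [hone P L b x (pX true C₀ hC₀c x.1) fun a ha => (pr_of_mem ha).symm]
      have := ih (P ++ [(pX true C₀ hC₀c x.1, b)])
      simpa using this
  have hfac : ∀ w, f (FreeGroup.map (pX true C₀ hC₀c) (FreeGroup.map Subtype.val w)) = f w := by
    intro w
    obtain ⟨L, rfl⟩ := Quot.exists_rep w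
    have := hword L []
    simp only [List.nil_append] at this
    change _ = f (FreeGroup.mk L)
    rw [this]
    congr 1
    change FreeGroup.map _ (FreeGroup.map _ (FreeGroup.mk L)) = _
    rw [FreeGroup.map.mk, FreeGroup.map.mk, List.map_map]
    rfl
  have hg : Continuous fun v : FreeGroup (A Γ → Bool) =>
      f (FreeGroup.map (pX true C₀ hC₀c) v) := by
    refine continuous_of_wd hK _ fun n b => ?_
    have : (fun x : Fin n → A Γ → Bool => f (FreeGroup.map (pX true C₀ hC₀c) (wd b x))) =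
        (fun x : Fin n → X Γ => f (wd b x)) ∘
          fun (x : Fin n → A Γ → Bool) i => pX true C₀ hC₀c (x i) := by
      funext x
      rw [map_wd]
      rfl
    rw [this]
    refine (hQP n b (fun _ => true) 0 C₀ hC₀c).comp_continuous
      (continuous_pi fun i => (continuous_pX true C₀ hC₀c).comp (continuous_apply i)) ?_
    intro x i
    exact pr_mem_Qc
  have h2 : Continuous (FreeGroup.map (Subtype.val : X Γ → A Γ → Bool)) :=
    continuous_map hT hK.cont continuous_subtype_val
  have h3 : f = (fun v : FreeGroup (A Γ → Bool) => f (FreeGroup.map (pX true C₀ hC₀c) v)) ∘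
      FreeGroup.map (Subtype.val : X Γ → A Γ → Bool) := funext fun w => (hfac w).symm
  rw [h3]
  exact hg.comp h2

end Q175.MixCube
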