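import Mathlib
import Pool.Agent.Q175.Om
import Pool.Agent.Q175.MixCube

/-!
# The two parts are separated on compact sets
-/

set_option autoImplicit false

universe v

namespace Q175.MixCube

open Set Topology Filter Cardinal

variable {Γ : Type}

lemma not_countable_compl (hΓ : ℵ₁ < #Γ) {S : Set Γ} (hS : #S ≤ ℵ₁) : ¬ (Sᶜ).Countable := by
  intro h
  have h1 : #Γ ≤ ℵ₁ := by
    rw [← mk_sum_compl S]
    have h2 : #(Sᶜ : Set Γ) ≤ ℵ₀ := mk_le_aleph0_iff.2 h.to_subtype
    calc #S + #(Sᶜ : Set Γ) ≤ ℵ₁ + ℵ₀ := add_le_add hS h2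
      _ ≤ ℵ₁ + ℵ₁ := by gcongr; exact aleph0_le_aleph 1
      _ = ℵ₁ := add_eq_self (aleph0_le_aleph 1)
  exact absurd h1 (not_le.2 hΓ)

lemma uncountable_of (hΓ : ℵ₁ < #Γ) : Uncountable Γ := by
  rw [← not_countable_iff]
  intro h
  refine not_countable_compl hΓ (S := ∅) (by simp) ?_
  exact to_countable _

lemma exists_notMem [Uncountable Γ] {B : Set (A Γ)} (hB : B.Countable) (n : ℕ) (i : Bool) :
    ∃ γ, ((n, γ, i) : A Γ) ∉ B := by
  by_contra h
  push Not at h
  have hinj : Function.Injective fun γ : Γ => ((n, γ, i) : A Γ) := by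
    intro γ γ' h
    simpa using h
  have h2 : (univ : Set Γ).Countable := by
    have := hB.preimage hinj
    refine this.mono fun γ _ => h γ
  exact not_countable_univ h2

lemma XS_disj [Uncountable Γ] {x : A Γ → Bool} {i j : Bool} (hi : x ∈ XS i) (hj : x ∈ XS j) :
    i = j := by
  obtain ⟨n, hn⟩ := hi
  obtain ⟨m, hm⟩ := hj
  obtain ⟨γ, hγ⟩ := exists_notMem (hn.union hm) (max n m) true
  have h1 : x (max n m, γ, true) = i := by
    by_contra h
    exact hγ (Or.inl ⟨Or.inl (le_max_left n m), h⟩)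
  have h2 : x (max n m, γ, true) = j := by
    by_contra h
    exact hγ (Or.inr ⟨Or.inl (le_max_right n m), h⟩)
  rw [← h1, ← h2]

/-- exceptional coordinates -/
def bad (i : Bool) (x : A Γ → Bool) : Set (A Γ) := {a | a.2.2 = i ∧ x a ≠ i}

lemma countable_bad {i : Bool} {x : A Γ → Bool} (hx : x ∈ XS i) : (bad i x).Countable := by
  obtain ⟨n, hn⟩ := hx
  refine hn.mono fun a ha => ?_
  exact ⟨Or.inr ha.1, ha.2⟩

lemma mem_XS_of_bad [Uncountable Γ] {x : A Γ → Bool} {i : Bool} (hx : ∃ k, x ∈ XS k)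
    (hb : (bad i x).Countable) : x ∈ XS i := by
  obtain ⟨k, n, hn⟩ := hx
  by_cases hki : k = i
  · subst hki
    exact ⟨n, hn⟩
  · exfalso
    obtain ⟨γ, hγ⟩ := exists_notMem (hn.union hb) n i
    have h1 : x (n, γ, i) = k := by
      by_contra h
      exact hγ (mem_union_left _ ⟨Or.inl (le_refl n), h⟩)
    have h2 : x (n, γ, i) = i := by
      by_contra h
      exact hγ (mem_union_right _ ⟨rfl, h⟩)
    exact hki (h1.symm.trans h2)

lemma exists_rec {Y : Type} (R : (α : O1.Om) → (Iio α → Y) → Y → Prop)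
    (h : ∀ α (s : Iio α → Y), ∃ y, R α s y) :
    ∃ g : O1.Om → Y, ∀ α, R α (fun β => g β.1) (g α) := by
  choose F hF using h
  let wf : WellFounded ((· < ·) : O1.Om → O1.Om → Prop) := wellFounded_lt
  let g : O1.Om → Y := wf.fix fun α rec => F α fun β => rec β.1 β.2
  refine ⟨g, fun α => ?_⟩
  have : g α = F α fun β => g β.1 := wf.fix_eq _ α
  rw [this]
  exact hF α _

/-- the approximation over countable sets -/
lemma exists_agree [Uncountable Γ] {Q : Set (A Γ → Bool)} (hQ : IsCompact Q)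
    (hQX : ∀ x ∈ Q, ∃ k, x ∈ XS k) {i : Bool} {q : A Γ → Bool} (hq : q ∈ closure (Q ∩ XS i))
    {C : Set (A Γ)} (hC : C.Countable) : ∃ g ∈ Q ∩ XS i, ∀ a ∈ C, g a = q a := by
  classical
  have : Countable C := hC.to_subtype
  have h1 : ∀ F : Finset C, ∃ g ∈ Q ∩ XS i, ∀ a ∈ F, g a.1 = q a.1 := by
    intro F
    have hopen : IsOpen {x : A Γ → Bool | ∀ a ∈ F, x a.1 = q a.1} := by
      have : {x : A Γ → Bool | ∀ a ∈ F, x a.1 = q a.1} =
          ⋂ a ∈ F, {x : A Γ → Bool | x a.1 = q a.1} := by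
        ext x
        simp
      rw [this]
      refine isOpen_biInter_finset fun a _ => ?_
      exact (isOpen_discrete ({q a.1} : Set Bool)).preimage
        (continuous_apply (a.1 : A Γ) : Continuous fun x : A Γ → Bool => x a.1)
    obtain ⟨g, hg1, hg2⟩ := mem_closure_iff.1 hq _ hopen fun a _ => rfl
    exact ⟨g, hg2, hg1⟩
  choose g hg hgF using h1
  let 𝒰 : Ultrafilter (Finset C) := Ultrafilter.of atTop
  have h𝒰 : (𝒰 : Filter (Finset C)) ≤ atTop := Ultrafilter.of_le _
  obtain ⟨z, hzQ, hz⟩ := hQ.ultrafilter_le_nhds (𝒰.map g) (by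
    rw [le_principal_iff]
    exact mem_map.2 (Eventually.of_forall fun F => (hg F).1))
  have htend : Tendsto g (𝒰 : Filter (Finset C)) (𝓝 z) := hz
  have hzC : ∀ a ∈ C, z a = q a := by
    intro a ha
    have hcl : IsClosed {x : A Γ → Bool | x a = q a} :=
      isClosed_eq (continuous_apply a) continuous_const
    refine hcl.mem_of_tendsto htend (h𝒰 ?_)
    filter_upwards [eventually_ge_atTop {⟨a, ha⟩}] with F hF
    exact hgF F ⟨a, ha⟩ (hF (Finset.mem_singleton_self _))
  refine ⟨z, ⟨hzQ, ?_⟩, hzC⟩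
  refine mem_XS_of_bad (hQX z hzQ) ?_
  refine (countable_iUnion fun F => countable_bad (hg F).2).mono fun a ha => ?_
  by_contra hcon
  refine ha.2 ?_
  have hcl : IsClosed {x : A Γ → Bool | x a = i} :=
    isClosed_eq (continuous_apply a) continuous_const
  refine hcl.mem_of_tendsto htend (Eventually.of_forall fun F => ?_)
  change g F a = i
  by_contra h
  exact hcon (mem_iUnion.2 ⟨F, ha.1, h⟩)

/-- each part is closed in compact sets -/
lemma isClosed_part (hΓ : ℵ₁ < #Γ) {Q : Set (A Γ → Bool)} (hQ : IsCompact Q)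
    (hQX : ∀ x ∈ Q, ∃ k, x ∈ XS k) (i : Bool) : IsClosed (Q ∩ XS i) := by
  classical
  have := uncountable_of hΓ
  rw [← closure_subset_iff_isClosed]
  intro q hq
  have hqQ : q ∈ Q := by
    have := closure_mono inter_subset_left hq
    rwa [hQ.isClosed.closure_eq] at this
  refine ⟨hqQ, ?_⟩
  obtain ⟨j, hj⟩ := hQX q hqQ
  by_cases hij : j = i
  · rwa [hij] at hj
  exfalso
  obtain ⟨ψ⟩ : Nonempty (O1.Om ↪ Γ) := by
    rw [← Cardinal.le_def, O1.mk_Om]
    exact hΓ.le
  let Y : Type := {g : A Γ → Bool // g ∈ Q ∩ XS i}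
  let N : O1.Om → Y → Set (A Γ) := fun β y => bad i y.1 ∪ range fun n : ℕ => ((n, ψ β, j) : A Γ)
  have hN : ∀ β y, (N β y).Countable := fun β y =>
    (countable_bad y.2.2).union (countable_range _)
  obtain ⟨g, hg⟩ := exists_rec (Y := Y)
    (fun α s y => ∀ a ∈ ⋃ β : Iio α, N β.1 (s β), y.1 a = q a) (by
      intro α s
      have : Countable (Iio α) := (O1.countable_Iio α).to_subtype
      obtain ⟨z, hz, hz2⟩ := exists_agree hQ hQX hq
        (countable_iUnion fun β : Iio α => hN β.1 (s β))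
      exact ⟨⟨z, hz⟩, hz2⟩)
  set C : Set (A Γ) := ⋃ β, N β (g β) with hC
  have hCcard : #C ≤ ℵ₁ := by
    refine mk_iUnion_le_sum_mk.trans ?_
    refine (sum_le_sum _ (fun _ => ℵ₀) fun β => ?_).trans ?_
    · exact mk_le_aleph0_iff.2 (hN β (g β)).to_subtype
    · rw [sum_const, O1.mk_Om]
      simp
  let 𝒰 : Ultrafilter O1.Om := Ultrafilter.of atTop
  have h𝒰 : (𝒰 : Filter O1.Om) ≤ atTop := Ultrafilter.of_le _
  obtain ⟨z, hzQ, hz⟩ := hQ.ultrafilter_le_nhds (𝒰.map fun α => (g α).1) (by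
    rw [le_principal_iff]
    exact mem_map.2 (Eventually.of_forall fun α => (g α).2.1))
  have htend : Tendsto (fun α => (g α).1) (𝒰 : Filter O1.Om) (𝓝 z) := hz
  have hzC : ∀ a ∈ C, z a = q a := by
    intro a ha
    obtain ⟨β, hβ⟩ := mem_iUnion.1 ha
    have hcl : IsClosed {x : A Γ → Bool | x a = q a} :=
      isClosed_eq (continuous_apply a) continuous_const
    refine hcl.mem_of_tendsto htend (h𝒰 ?_)
    filter_upwards [eventually_gt_atTop β] with α hα
    exact hg α a (mem_iUnion.2 ⟨⟨β, hα⟩, hβ⟩)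
  have hzi : ∀ a, a ∉ C → a.2.2 = i → z a = i := by
    intro a ha hai
    have hcl : IsClosed {x : A Γ → Bool | x a = i} :=
      isClosed_eq (continuous_apply a) continuous_const
    refine hcl.mem_of_tendsto htend (Eventually.of_forall fun α => ?_)
    change (g α).1 a = i
    by_contra h
    exact ha (mem_iUnion.2 ⟨α, Or.inl ⟨hai, h⟩⟩)
  obtain ⟨k, m, hm⟩ := hQX z hzQ
  by_cases hki : k = i
  · subst hki
    have hinj : Function.Injective fun β : O1.Om => ((m, ψ β, j) : A Γ) := by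
      intro β β' h
      simpa using h
    have hcnt : ((fun β : O1.Om => ((m, ψ β, j) : A Γ)) ⁻¹'
        ({a | a ∈ cell m k ∧ z a ≠ k} ∪ bad j q)).Countable :=
      (hm.union (countable_bad hj)).preimage hinj
    obtain ⟨β, hβ⟩ : ∃ β, β ∉ (fun β : O1.Om => ((m, ψ β, j) : A Γ)) ⁻¹'
        ({a | a ∈ cell m k ∧ z a ≠ k} ∪ bad j q) := by
      by_contra h
      push Not at h
      exact O1.not_countable_univ (hcnt.mono fun β _ => h β)
    have h1 : z (m, ψ β, j) = k := by
      by_contra h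
      exact hβ (Or.inl ⟨Or.inl (le_refl m), h⟩)
    have h2 : q (m, ψ β, j) = j := by
      by_contra h
      exact hβ (Or.inr ⟨rfl, h⟩)
    have h3 := hzC (m, ψ β, j) (mem_iUnion.2 ⟨β, Or.inr ⟨m, rfl⟩⟩)
    rw [h1, h2] at h3
    exact hij h3.symm
  · have hkj : k = j := by
      cases k <;> cases i <;> cases j <;> simp_all
    subst hkj
    have hinj : Function.Injective fun γ : Γ => ((m, γ, i) : A Γ) := by
      intro γ γ' h
      simpa using h
    have hS : #((fun γ : Γ => ((m, γ, i) : A Γ)) ⁻¹' C) ≤ ℵ₁ :=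
      (mk_preimage_of_injective _ _ hinj).trans hCcard
    refine not_countable_compl hΓ hS ?_
    refine (hm.preimage hinj).mono fun γ hγ => ?_
    refine ⟨Or.inl (le_refl m), ?_⟩
    rw [hzi _ hγ rfl]
    exact fun h => hij h.symm

/-- each part is dense -/
lemma dense_part (i : Bool) (x : A Γ → Bool) {U : Set (A Γ → Bool)} (hU : IsOpen U) (hx : x ∈ U) :
    ∃ y ∈ XS i, y ∈ U := by
  classical
  have h1 : Tendsto (fun F : Finset (A Γ) => pr i (F : Set (A Γ)) x) atTop (𝓝 x) := by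
    rw [tendsto_pi_nhds]
    intro a
    refine tendsto_const_nhds.congr' ?_
    filter_upwards [eventually_ge_atTop {a}] with F hF
    rw [pr_of_mem (hF (Finset.mem_singleton_self a))]
  obtain ⟨F, hF⟩ := (h1.eventually (hU.mem_nhds hx)).exists
  exact ⟨_, pr_mem F.countable_toSet x, hF⟩

end Q175.MixCube
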