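import Mathlib
import Pool.Agent.Q175.MixCube
import Pool.Agent.Q175.MixSep
import Pool.Agent.Q175.FreeKO
import Pool.Agent.Q175.FreeKRSub

/-!
# The sets of words of bounded length are not `k_R`-spaces
-/

set_option autoImplicit false

universe u v

namespace Q175.MixCube

open Set Topology Filter FreeGroup Q177.FreeTop Q175.FreeKO

lemma continuousOn_indicator_of_closed {Y : Type u} [TopologicalSpace Y] {S C : Set Y}
    (h1 : IsClosed (C ∩ S)) (h2 : IsClosed (C \ S)) :
    ContinuousOn (S.indicator fun _ => (1 : ℝ)) C := by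
  intro w hw
  by_cases hwS : w ∈ S
  · have h3 : ∀ᶠ z in 𝓝[C] w, (S.indicator fun _ => (1 : ℝ)) z = 1 := by
      have h4 : (C \ S)ᶜ ∈ 𝓝 w := h2.isOpen_compl.mem_nhds fun h => h.2 hwS
      filter_upwards [self_mem_nhdsWithin, mem_nhdsWithin_of_mem_nhds h4] with z hz hz2
      refine indicator_of_mem ?_ _
      by_contra h
      exact hz2 ⟨hz, h⟩
    have h5 : (S.indicator fun _ => (1 : ℝ)) w = 1 := indicator_of_mem hwS _
    rw [ContinuousWithinAt, h5]
    exact tendsto_const_nhds.congr' (h3.mono fun z hz => hz.symm)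
  · have h3 : ∀ᶠ z in 𝓝[C] w, (S.indicator fun _ => (1 : ℝ)) z = 0 := by
      have h4 : (C ∩ S)ᶜ ∈ 𝓝 w := h1.isOpen_compl.mem_nhds fun h => hwS h.2
      filter_upwards [self_mem_nhdsWithin, mem_nhdsWithin_of_mem_nhds h4] with z hz hz2
      refine indicator_of_notMem ?_ _
      intro h
      exact hz2 ⟨hz, h⟩
    have h5 : (S.indicator fun _ => (1 : ℝ)) w = 0 := indicator_of_notMem hwS _
    rw [ContinuousWithinAt, h5]
    exact tendsto_const_nhds.congr' (h3.mono fun z hz => hz.symm)

/-! ### Positive words -/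

section pos

variable {K : Type u}

lemma isReduced_pos (L : List (K × Bool)) (h : ∀ p ∈ L, p.2 = true) : FreeGroup.IsReduced L := by
  induction L with
  | nil => exact FreeGroup.IsReduced.nil
  | cons p L ih =>
    cases L with
    | nil => exact FreeGroup.IsReduced.singleton
    | cons q L =>
      rw [FreeGroup.isReduced_cons_cons]
      refine ⟨fun _ => ?_, ih fun r hr => h r (List.mem_cons_of_mem _ hr)⟩
      rw [h p (by simp), h q (by simp)]

lemma wd_true_injective (n : ℕ) :
    Function.Injective (wd (fun _ => true) : (Fin n → K) → FreeGroup K) := by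
  classical
  intro x y h
  have hx : ∀ x : Fin n → K, FreeGroup.reduce (List.ofFn fun i => (x i, true)) =
      List.ofFn fun i => (x i, true) := by
    intro x
    rw [← FreeGroup.isReduced_iff_reduce_eq]
    refine isReduced_pos _ fun p hp => ?_
    rw [List.mem_ofFn] at hp
    obtain ⟨i, rfl⟩ := hp
    rfl
  have h1 := FreeGroup.reduce.sound h
  rw [hx, hx] at h1
  have h2 := List.ofFn_injective h1
  funext i
  exact congrArg Prod.fst (congrFun h2 i)

/-- exponent sum -/
def ES : FreeGroup K →* Multiplicative ℤ := FreeGroup.lift fun _ => Multiplicative.ofAdd 1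

lemma ES_mk_cons (p : K × Bool) (L : List (K × Bool)) :
    Multiplicative.toAdd (ES (FreeGroup.mk (p :: L))) = (if p.2 then 1 else -1) +
      Multiplicative.toAdd (ES (FreeGroup.mk L)) := by
  have h1 : FreeGroup.mk (p :: L) = FreeGroup.mk [p] * FreeGroup.mk L := by
    rw [FreeGroup.mul_mk]
    rfl
  rw [h1, _root_.map_mul, toAdd_mul]
  congr 1
  unfold ES
  rw [FreeGroup.lift_mk]
  obtain ⟨k, b⟩ := p
  cases b <;> simp

lemma ES_mk_le (L : List (K × Bool)) :
    Multiplicative.toAdd (ES (FreeGroup.mk L)) ≤ L.length := by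
  induction L with
  | nil =>
    have : (FreeGroup.mk [] : FreeGroup K) = 1 := rfl
    rw [this, _root_.map_one]
    simp
  | cons p L ih =>
    rw [ES_mk_cons, List.length_cons]
    push_cast
    split_ifs <;> linarith

lemma pos_of_ES (L : List (K × Bool))
    (h : (L.length : ℤ) ≤ Multiplicative.toAdd (ES (FreeGroup.mk L))) : ∀ p ∈ L, p.2 = true := by
  induction L with
  | nil => simp
  | cons p L ih =>
    rw [ES_mk_cons, List.length_cons] at h
    push_cast at h
    have h1 := ES_mk_le L
    have h2 : p.2 = true := by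
      by_contra hp
      rw [if_neg hp] at h
      linarith
    rw [if_pos h2] at h
    intro q hq
    rcases List.mem_cons.1 hq with rfl | hq
    · exact h2
    · exact ih (by linarith) q hq

lemma ES_wd (n : ℕ) (x : Fin n → K) :
    Multiplicative.toAdd (ES (wd (fun _ => true) x)) = n := by
  unfold wd
  have : ∀ L : List (K × Bool), (∀ p ∈ L, p.2 = true) →
      Multiplicative.toAdd (ES (FreeGroup.mk L)) = L.length := by
    intro L
    induction L with
    | nil =>
      intro _
      have : (FreeGroup.mk [] : FreeGroup K) = 1 := rfl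
      rw [this, _root_.map_one]
      simp
    | cons p L ih =>
      intro h
      rw [ES_mk_cons, if_pos (h p (by simp)), ih fun q hq => h q (List.mem_cons_of_mem _ hq),
        List.length_cons]
      push_cast
      ring
  rw [this _ fun p hp => ?_, List.length_ofFn]
  rw [List.mem_ofFn] at hp
  obtain ⟨i, rfl⟩ := hp
  rfl

lemma mem_range_wd {n : ℕ} {w : FreeGroup K} (hw : w ∈ F K n)
    (hES : Multiplicative.toAdd (ES w) = n) : ∃ x : Fin n → K, wd (fun _ => true) x = w := by
  obtain ⟨L, hL, rfl⟩ := hw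
  have h1 := ES_mk_le L
  have h2 : L.length = n := by
    rw [hES] at h1
    have : n ≤ L.length := by exact_mod_cast h1
    omega
  subst h2
  have h3 := pos_of_ES L (by rw [hES])
  refine ⟨fun i => (L.get i).1, ?_⟩
  unfold wd
  congr 1
  conv_rhs => rw [← List.ofFn_get L]
  congr 1
  funext i
  exact Prod.ext rfl (h3 _ (List.get_mem L i)).symm

lemma wd_mem_F {n : ℕ} (x : Fin n → K) : wd (fun _ => true) x ∈ F K n :=
  ⟨_, by rw [List.length_ofFn], rfl⟩

end pos

/-! ### The spaces `F_n` -/

variable {Γ : Type} [TopologicalSpace (FreeGroup (X Γ))] [TopologicalSpace (FreeGroup (A Γ → Bool))]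

lemma isEmbedding_wd (hT : IsFreeTop (X Γ)) (hK : IsFreeTop (A Γ → Bool))
    [T2Space (FreeGroup (A Γ → Bool))] (n : ℕ) :
    IsEmbedding (wd (fun _ => true) : (Fin n → X Γ) → FreeGroup (X Γ)) := by
  have := hT.grp
  have := hK.grp
  have hι : Continuous (FreeGroup.map (Subtype.val : X Γ → A Γ → Bool)) :=
    continuous_map hT hK.cont continuous_subtype_val
  have h1 : IsEmbedding (wd (fun _ => true) : (Fin n → A Γ → Bool) → FreeGroup (A Γ → Bool)) :=
    ((continuous_wd hK.cont fun _ => true).isClosedEmbedding (wd_true_injective n)).isEmbedding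
  refine IsEmbedding.of_comp (continuous_wd hT.cont fun _ => true) hι ?_
  have h2 : FreeGroup.map (Subtype.val : X Γ → A Γ → Bool) ∘ wd (fun _ => true) =
      (wd (fun _ => true)) ∘ fun (x : Fin n → X Γ) i => (x i).1 := by
    funext x
    simp only [Function.comp, map_wd]
  rw [h2]
  exact h1.comp (IsEmbedding.piMap fun _ => IsEmbedding.subtypeVal)

lemma not_kR_Fn (hΓ : Cardinal.aleph 1 < Cardinal.mk Γ) (hT : IsFreeTop (X Γ))
    (hK : IsFreeTop (A Γ → Bool)) {n : ℕ} (hn : 1 ≤ n) :
    ¬ ∀ f : F (X Γ) n → ℝ, (∀ C : Set (F (X Γ) n), IsCompact C → ContinuousOn f C) →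
      Continuous f := by
  classical
  have := uncountable_of hΓ
  have := hT.grp
  have := hK.grp
  have : T2Space (FreeGroup (A Γ → Bool)) := t2_of_sep hK Q175.FreeKRSub.exists_sep_cube
  have hι : Continuous (FreeGroup.map (Subtype.val : X Γ → A Γ → Bool)) :=
    continuous_map hT hK.cont continuous_subtype_val
  have : T2Space (FreeGroup (X Γ)) :=
    T2Space.of_injective_continuous (FreeGroup.map_injective Subtype.val_injective) hι
  intro hkR
  let z : Fin n := ⟨0, hn⟩
  let e : (Fin n → X Γ) → F (X Γ) n := fun x => ⟨wd (fun _ => true) x, wd_mem_F x⟩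
  have hrange : range e = {w | Multiplicative.toAdd (ES w.1) = n} := by
    ext w
    constructor
    · rintro ⟨x, rfl⟩
      exact ES_wd n x
    · intro hw
      obtain ⟨x, hx⟩ := mem_range_wd w.2 hw
      exact ⟨x, Subtype.ext hx⟩
  have hESc : Continuous (ES : FreeGroup (X Γ) → Multiplicative ℤ) :=
    hT.continuous_lift _ continuous_const
  have hclopen : IsClopen {w : F (X Γ) n | Multiplicative.toAdd (ES w.1) = n} := by
    have : {w : F (X Γ) n | Multiplicative.toAdd (ES w.1) = n} =
        (fun w : F (X Γ) n => ES w.1) ⁻¹' {Multiplicative.ofAdd (n : ℤ)} := by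
      ext w
      rfl
    rw [this]
    exact (isClopen_discrete _).preimage (hESc.comp continuous_subtype_val)
  have he : IsClosedEmbedding e := by
    refine ⟨?_, by rw [hrange]; exact hclopen.1⟩
    refine IsEmbedding.of_comp ?_ continuous_subtype_val (isEmbedding_wd hT hK n)
    exact (continuous_wd hT.cont fun _ => true).subtype_mk _
  let S : Set (F (X Γ) n) := e '' {x | (x z).1 ∈ XS true}
  let g : F (X Γ) n → ℝ := S.indicator fun _ => 1
  have hg : Continuous g := by
    refine hkR g fun C hC => ?_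
    have hC' : IsCompact (e ⁻¹' C) := he.isCompact_preimage hC
    have hev : Continuous fun x : Fin n → X Γ => (x z).1 :=
      continuous_subtype_val.comp (continuous_apply z)
    set Q₀ : Set (A Γ → Bool) := (fun x : Fin n → X Γ => (x z).1) '' (e ⁻¹' C) with hQ₀
    have hQ₀c : IsCompact Q₀ := hC'.image hev
    have hQ₀X : ∀ x ∈ Q₀, ∃ k, x ∈ XS k := by
      rintro _ ⟨x, -, rfl⟩
      exact (x z).2
    have hpart : ∀ i, IsClosed (e '' (e ⁻¹' C ∩ {x | (x z).1 ∈ XS i})) := by
      intro i
      have h1 : e ⁻¹' C ∩ {x | (x z).1 ∈ XS i} =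
          e ⁻¹' C ∩ (fun x : Fin n → X Γ => (x z).1) ⁻¹' (Q₀ ∩ XS i) := by
        ext x
        constructor
        · rintro ⟨hx, hx2⟩
          exact ⟨hx, ⟨x, hx, rfl⟩, hx2⟩
        · rintro ⟨hx, -, hx2⟩
          exact ⟨hx, hx2⟩
      rw [h1]
      refine IsCompact.isClosed ?_
      refine IsCompact.image ?_ he.continuous
      exact hC'.inter_right ((isClosed_part hΓ hQ₀c hQ₀X i).preimage hev)
    refine continuousOn_indicator_of_closed ?_ ?_
    · have : C ∩ S = e '' (e ⁻¹' C ∩ {x | (x z).1 ∈ XS true}) := by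
        ext w
        constructor
        · rintro ⟨hw, x, hx, rfl⟩
          exact ⟨x, ⟨hw, hx⟩, rfl⟩
        · rintro ⟨x, ⟨hw, hx⟩, rfl⟩
          exact ⟨hw, x, hx, rfl⟩
      rw [this]
      exact hpart true
    · have : C \ S = (C ∩ {w | Multiplicative.toAdd (ES w.1) = n}ᶜ) ∪
          e '' (e ⁻¹' C ∩ {x | (x z).1 ∈ XS false}) := by
        ext w
        constructor
        · rintro ⟨hw, hwS⟩
          by_cases hr : w ∈ range e
          · obtain ⟨x, rfl⟩ := hr
            right
            refine ⟨x, ⟨hw, ?_⟩, rfl⟩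
            obtain ⟨k, hk⟩ := (x z).2
            cases k
            · exact hk
            · exact (hwS ⟨x, hk, rfl⟩).elim
          · left
            rw [hrange] at hr
            exact ⟨hw, hr⟩
        · rintro (⟨hw, hw2⟩ | ⟨x, ⟨hw, hx⟩, rfl⟩)
          · refine ⟨hw, fun hwS => hw2 ?_⟩
            rw [← hrange]
            obtain ⟨x, -, rfl⟩ := hwS
            exact ⟨x, rfl⟩
          · refine ⟨hw, ?_⟩
            rintro ⟨y, hy, hyx⟩
            have h1 := he.injective hyx
            subst h1
            exact Bool.noConfusion (XS_disj hx hy)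
      rw [this]
      exact (hC.isClosed.inter hclopen.2.isClosed_compl).union (hpart false)
  -- discontinuity
  let x₀ : Fin n → X Γ := fun _ => pX false ∅ countable_empty fun _ => false
  have h0 : g (e x₀) = 0 := by
    refine indicator_of_notMem ?_ _
    rintro ⟨y, hy, hyx⟩
    have h1 := he.injective hyx
    subst h1
    exact Bool.noConfusion (XS_disj (pr_mem countable_empty (fun _ => false) :
      pr false ∅ (fun _ => false) ∈ XS false) hy)
  have h1 := ((hg.comp he.continuous).tendsto x₀).comp
    (tendsto_pX (fun _ : Fin n => true) countable_empty x₀)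
  have h2 : (fun F : Finset (A Γ) => (g ∘ e) fun i => pX true (∅ ∪ (F : Set (A Γ)))
      (countable_empty.union F.countable_toSet) (x₀ i).1) = fun _ => 1 := by
    funext F
    refine indicator_of_mem (f := fun _ => (1 : ℝ)) ?_
    exact ⟨_, pr_mem (countable_empty.union F.countable_toSet) _, rfl⟩
  have h3 : Tendsto (fun _ : Finset (A Γ) => (1 : ℝ)) atTop (𝓝 ((g ∘ e) x₀)) := by
    rw [← h2]
    exact h1
  have h4 : (1 : ℝ) = (g ∘ e) x₀ := tendsto_nhds_unique tendsto_const_nhds h3
  have h5 : (g ∘ e) x₀ = 0 := h0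
  exact absurd (h4.trans h5) one_ne_zero

end Q175.MixCube
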