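import Mathlib
import Pool.Agent.Q175.Fill

/-!
# A regular space that is not completely regular

The space is obtained by a Jones machine from a plank `W × A`, where `W` is a well-ordered set
whose cofinality exceeds the number of finite subsets of `ω₁`, and `A` is the directed set of all
finite subsets of `ω₁`.
-/

open Set Filter Topology Cardinal
open Q175.O1

namespace Q175.PlankZ

/-- The directed set of all finite subsets of `ω₁`. -/
abbrev A : Type := Finset Om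

/-- A well-ordered set of size the successor of `#A`. -/
abbrev W : Type := (Order.succ #A).ord.ToType

theorem aleph0_le_A : ℵ₀ ≤ #A := by
  have : Infinite Om := inferInstance
  exact aleph0_le_mk A

theorem mk_W : #W = Order.succ #A := by simp

theorem mk_Iic_W (x : W) : #(Iic x) ≤ #A := by
  have h : #(Set.Iio x) < Order.succ #A := mk_Iio_toType_ord_lt x
  have h1 : #(Set.Iio x) ≤ #A := Order.lt_succ_iff.1 h
  have h2 : Set.Iic x = insert x (Set.Iio x) := by
    ext y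
    simp [le_iff_eq_or_lt]
  rw [h2]
  calc #(insert x (Set.Iio x) : Set W) ≤ #(Set.Iio x) + 1 := mk_insert_le
    _ ≤ #A + 1 := by gcongr
    _ = #A := add_one_eq aleph0_le_A

/-- Small families in `W` are bounded. -/
theorem exists_bound_W {J : Type} (hJ : #J ≤ #A) (v : J → W) : ∃ w, ∀ j, v j < w := by
  by_contra hcon
  push Not at hcon
  have h1 : (univ : Set W) ⊆ ⋃ j, Iic (v j) := by
    intro w _
    obtain ⟨j, hj⟩ := hcon w
    exact mem_iUnion.2 ⟨j, hj⟩
  have h2 : #W ≤ #A := by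
    calc #W = #(univ : Set W) := mk_univ.symm
      _ ≤ #(⋃ j, Iic (v j)) := mk_le_mk_of_subset h1
      _ ≤ Cardinal.sum fun j => #(Iic (v j)) := mk_iUnion_le_sum_mk
      _ ≤ Cardinal.sum fun _ : J => #A := Cardinal.sum_le_sum _ _ fun j => mk_Iic_W (v j)
      _ = #J * #A := by simp
      _ ≤ #A * #A := by gcongr
      _ = #A := mul_eq_self aleph0_le_A
  rw [mk_W] at h2
  exact absurd h2 (not_le.2 (Order.lt_succ _))

instance : Nonempty W := by
  obtain ⟨w, _⟩ := exists_bound_W (J := Empty) (by simp) (fun j => j.elim)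
  exact ⟨w⟩

instance : NoMaxOrder W := ⟨fun a => by
  obtain ⟨b, hb⟩ := exists_bound_W (J := Unit)
    (by rw [mk_fintype]; exact_mod_cast (one_le_aleph0.trans aleph0_le_A)) fun _ => a
  exact ⟨b, hb ()⟩⟩

/-- The points of the space. -/
inductive Z : Type
  | top : Z
  | k : ℕ → W → Z
  | a : ℕ → A → Z
  | q : ℕ → W → A → Z

/-- The level of a point. -/
def lev : Z → ℕ
  | .top => 0
  | .k j _ => j
  | .a j _ => j
  | .q n _ _ => n

/-- The condition for openness. -/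
def Op (U : Set Z) : Prop :=
  (Z.top ∈ U → ∃ m, ∀ z, m ≤ lev z → z ∈ U) ∧
  (∀ j w, Z.k j w ∈ U → ∃ c : A, ∀ n, (n + 1) / 2 = j → ∀ b, c ⊆ b → Z.q n w b ∈ U) ∧
  (∀ j b, Z.a j b ∈ U → ∃ v : W, ∀ n, n / 2 = j → ∀ w, v ≤ w → Z.q n w b ∈ U)

instance : TopologicalSpace Z where
  IsOpen := Op
  isOpen_univ := ⟨fun _ => ⟨0, fun _ _ => trivial⟩, fun _ _ _ => ⟨∅, fun _ _ _ _ => trivial⟩,
    fun _ _ _ => ⟨Classical.arbitrary _, fun _ _ _ _ => trivial⟩⟩
  isOpen_inter := by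
    classical
    rintro s t ⟨hs1, hs2, hs3⟩ ⟨ht1, ht2, ht3⟩
    refine ⟨fun h => ?_, fun j w h => ?_, fun j b h => ?_⟩
    · obtain ⟨m, hm⟩ := hs1 h.1
      obtain ⟨m', hm'⟩ := ht1 h.2
      exact ⟨max m m', fun z hz => ⟨hm z ((le_max_left _ _).trans hz),
        hm' z ((le_max_right _ _).trans hz)⟩⟩
    · obtain ⟨c, hc⟩ := hs2 j w h.1
      obtain ⟨c', hc'⟩ := ht2 j w h.2
      exact ⟨c ∪ c', fun n hn b hb => ⟨hc n hn b (Finset.union_subset_left hb),
        hc' n hn b (Finset.union_subset_right hb)⟩⟩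
    · obtain ⟨v, hv⟩ := hs3 j b h.1
      obtain ⟨v', hv'⟩ := ht3 j b h.2
      exact ⟨max v v', fun n hn w hw => ⟨hv n hn w ((le_max_left _ _).trans hw),
        hv' n hn w ((le_max_right _ _).trans hw)⟩⟩
  isOpen_sUnion := by
    intro S hS
    refine ⟨?_, ?_, ?_⟩
    · rintro ⟨U, hU, h⟩
      obtain ⟨m, hm⟩ := (hS U hU).1 h
      exact ⟨m, fun z hz => ⟨U, hU, hm z hz⟩⟩
    · rintro j w ⟨U, hU, h⟩
      obtain ⟨c, hc⟩ := (hS U hU).2.1 j w h
      exact ⟨c, fun n hn b hb => ⟨U, hU, hc n hn b hb⟩⟩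
    · rintro j b ⟨U, hU, h⟩
      obtain ⟨v, hv⟩ := (hS U hU).2.2 j b h
      exact ⟨v, fun n hn w hw => ⟨U, hU, hv n hn w hw⟩⟩

theorem isOpen_iff {U : Set Z} : IsOpen U ↔ Op U := Iff.rfl

theorem exists_notMem (b : A) : ∃ i : Om, i ∉ b := Infinite.exists_notMem_finset b

/-- The basic neighbourhood of `k j w`. -/
def nk (j : ℕ) (w : W) (c : A) : Set Z :=
  {z | z = Z.k j w ∨ ∃ n b, (n + 1) / 2 = j ∧ c ⊆ b ∧ z = Z.q n w b}

/-- The basic neighbourhood of `a j b`. -/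
def na (j : ℕ) (b : A) (v : W) : Set Z :=
  {z | z = Z.a j b ∨ ∃ n w, n / 2 = j ∧ v ≤ w ∧ z = Z.q n w b}

theorem isOpen_nk (j : ℕ) (w : W) (c : A) : IsOpen (nk j w c) := by
  refine ⟨?_, ?_, ?_⟩
  · rintro (h | ⟨n, b, _, _, h⟩)
    · cases h
    · cases h
  · rintro j' w' (h | ⟨n, b, _, _, h⟩)
    · cases h
      exact ⟨c, fun n hn b hb => Or.inr ⟨n, b, hn, hb, rfl⟩⟩
    · cases h
  · rintro j' b' (h | ⟨n, b, _, _, h⟩)
    · cases h
    · cases h

theorem isClosed_nk (j : ℕ) (w : W) (c : A) : IsClosed (nk j w c) := by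
  rw [← isOpen_compl_iff]
  refine ⟨fun _ => ⟨2 * j + 1, ?_⟩, ?_, ?_⟩
  · rintro z hz (rfl | ⟨n, b, hn, _, rfl⟩)
    · simp only [lev] at hz
      omega
    · simp only [lev] at hz
      omega
  · intro j' w' h'
    refine ⟨∅, fun n hn b _ => ?_⟩
    rintro (h | ⟨n', b', hn', _, h⟩)
    · cases h
    · cases h
      exact h' (Or.inl (by rw [← hn, hn']))
  · intro j' b' _
    obtain ⟨v, hv⟩ := exists_gt w
    refine ⟨v, fun n _ w' hw' => ?_⟩
    rintro (h | ⟨n', b'', _, _, h⟩)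
    · cases h
    · cases h
      exact absurd hv (not_lt.2 hw')

theorem isOpen_na (j : ℕ) (b : A) (v : W) : IsOpen (na j b v) := by
  refine ⟨?_, ?_, ?_⟩
  · rintro (h | ⟨n, w, _, _, h⟩)
    · cases h
    · cases h
  · rintro j' w' (h | ⟨n, w, _, _, h⟩)
    · cases h
    · cases h
  · rintro j' b' (h | ⟨n, w, _, _, h⟩)
    · cases h
      exact ⟨v, fun n hn w hw => Or.inr ⟨n, w, hn, hw, rfl⟩⟩
    · cases h

theorem isClosed_na (j : ℕ) (b : A) (v : W) : IsClosed (na j b v) := by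
  rw [← isOpen_compl_iff]
  refine ⟨fun _ => ⟨2 * j + 2, ?_⟩, ?_, ?_⟩
  · rintro z hz (rfl | ⟨n, w, hn, _, rfl⟩)
    · simp only [lev] at hz
      omega
    · simp only [lev] at hz
      omega
  · intro j' w' _
    obtain ⟨i, hi⟩ := exists_notMem b
    refine ⟨{i}, fun n _ b' hb' => ?_⟩
    rintro (h | ⟨n', w'', _, _, h⟩)
    · cases h
    · cases h
      exact hi (hb' (Finset.mem_singleton_self i))
  · intro j' b' h'
    refine ⟨v, fun n hn w _ => ?_⟩
    rintro (h | ⟨n', w', hn', _, h⟩)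
    · cases h
    · cases h
      exact h' (Or.inl (by rw [← hn, hn']))

theorem isClopen_singleton_q (n : ℕ) (w : W) (b : A) : IsClopen ({Z.q n w b} : Set Z) := by
  constructor
  · rw [← isOpen_compl_iff]
    refine ⟨fun _ => ⟨n + 1, ?_⟩, ?_, ?_⟩
    · rintro z hz rfl
      simp only [lev] at hz
      omega
    · intro j w' _
      obtain ⟨i, hi⟩ := exists_notMem b
      refine ⟨{i}, fun n' _ b' hb' h => ?_⟩
      cases h
      exact hi (hb' (Finset.mem_singleton_self i))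
    · intro j b' _
      obtain ⟨v, hv⟩ := exists_gt w
      refine ⟨v, fun n' _ w' hw' h => ?_⟩
      cases h
      exact absurd hv (not_lt.2 hw')
  · refine ⟨fun h => ?_, fun j w h => ?_, fun j b h => ?_⟩ <;> cases h

/-- Points other than the top have a clopen base. -/
theorem exists_isClopen {z : Z} (hz : z ≠ Z.top) {U : Set Z} (hU : IsOpen U) (hzU : z ∈ U) :
    ∃ V, IsClopen V ∧ z ∈ V ∧ V ⊆ U := by
  cases z with
  | top => exact absurd rfl hz
  | k j w =>
      obtain ⟨c, hc⟩ := hU.2.1 j w hzU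
      refine ⟨nk j w c, ⟨isClosed_nk j w c, isOpen_nk j w c⟩, Or.inl rfl, ?_⟩
      rintro z (rfl | ⟨n, b, hn, hb, rfl⟩)
      · exact hzU
      · exact hc n hn b hb
  | a j b =>
      obtain ⟨v, hv⟩ := hU.2.2 j b hzU
      refine ⟨na j b v, ⟨isClosed_na j b v, isOpen_na j b v⟩, Or.inl rfl, ?_⟩
      rintro z (rfl | ⟨n, w, hn, hw, rfl⟩)
      · exact hzU
      · exact hv n hn w hw
  | q n w b =>
      exact ⟨{Z.q n w b}, isClopen_singleton_q n w b, rfl, singleton_subset_iff.2 hzU⟩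

/-- The open sets around the top. -/
def up (m : ℕ) : Set Z := {z | z = Z.top ∨ m + 1 ≤ lev z}

theorem isOpen_up (m : ℕ) : IsOpen (up m) := by
  refine ⟨fun _ => ⟨m + 1, fun z hz => Or.inr hz⟩, ?_, ?_⟩
  · rintro j w (h | h)
    · cases h
    · refine ⟨∅, fun n hn b _ => Or.inr ?_⟩
      simp only [lev] at h ⊢
      omega
  · rintro j b (h | h)
    · cases h
    · refine ⟨Classical.arbitrary _, fun n hn w _ => Or.inr ?_⟩
      simp only [lev] at h ⊢
      omega

/-- The closed neighbourhoods of the top. -/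
def upc (m : ℕ) : Set Z := {z | z = Z.top ∨ (∃ j w, m ≤ j ∧ z = Z.k j w) ∨
  (∃ j b, m ≤ j ∧ z = Z.a j b) ∨ ∃ n w b, 2 * m ≤ n ∧ z = Z.q n w b}

theorem isClosed_upc (m : ℕ) : IsClosed (upc m) := by
  rw [← isOpen_compl_iff]
  refine ⟨fun h => absurd (Or.inl rfl) h, ?_, ?_⟩
  · intro j w hjw
    have hj : j < m := by
      by_contra h
      exact hjw (Or.inr (Or.inl ⟨j, w, not_lt.1 h, rfl⟩))
    refine ⟨∅, fun n hn b _ => ?_⟩
    rintro (h | ⟨_, _, _, h⟩ | ⟨_, _, _, h⟩ | ⟨n', w', b', hn', h⟩)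
    · cases h
    · cases h
    · cases h
    · cases h
      omega
  · intro j b hjb
    have hj : j < m := by
      by_contra h
      exact hjb (Or.inr (Or.inr (Or.inl ⟨j, b, not_lt.1 h, rfl⟩)))
    refine ⟨Classical.arbitrary _, fun n hn w _ => ?_⟩
    rintro (h | ⟨_, _, _, h⟩ | ⟨_, _, _, h⟩ | ⟨n', w', b', hn', h⟩)
    · cases h
    · cases h
    · cases h
    · cases h
      omega

instance : T1Space Z := by
  refine ⟨fun z => ?_⟩
  cases z with
  | top =>
      rw [← isOpen_compl_iff]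
      exact ⟨fun h => absurd rfl h, fun _ _ _ => ⟨∅, fun _ _ _ _ h => by cases h⟩,
        fun _ _ _ => ⟨Classical.arbitrary _, fun _ _ _ _ h => by cases h⟩⟩
  | k j w =>
      rw [← isOpen_compl_iff]
      refine ⟨fun _ => ⟨j + 1, ?_⟩, fun _ _ _ => ⟨∅, fun _ _ _ _ h => by cases h⟩,
        fun _ _ _ => ⟨Classical.arbitrary _, fun _ _ _ _ h => by cases h⟩⟩
      rintro z hz rfl
      simp only [lev] at hz
      omega
  | a j b =>
      rw [← isOpen_compl_iff]
      refine ⟨fun _ => ⟨j + 1, ?_⟩, fun _ _ _ => ⟨∅, fun _ _ _ _ h => by cases h⟩,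
        fun _ _ _ => ⟨Classical.arbitrary _, fun _ _ _ _ h => by cases h⟩⟩
      rintro z hz rfl
      simp only [lev] at hz
      omega
  | q n w b => exact (isClopen_singleton_q n w b).1

instance : RegularSpace Z := by
  refine RegularSpace.of_exists_mem_nhds_isClosed_subset fun z s hs => ?_
  obtain ⟨U, hUs, hU, hz⟩ := mem_nhds_iff.1 hs
  by_cases ht : z = Z.top
  · subst ht
    obtain ⟨m, hm⟩ := hU.1 hz
    refine ⟨upc m, mem_of_superset ((isOpen_up (2 * m)).mem_nhds (Or.inl rfl)) ?_,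
      isClosed_upc m, ?_⟩
    · rintro z (rfl | h)
      · exact Or.inl rfl
      · cases z with
        | top => exact Or.inl rfl
        | k j w =>
            simp only [lev] at h
            exact Or.inr (Or.inl ⟨j, w, by omega, rfl⟩)
        | a j b =>
            simp only [lev] at h
            exact Or.inr (Or.inr (Or.inl ⟨j, b, by omega, rfl⟩))
        | q n w b =>
            simp only [lev] at h
            exact Or.inr (Or.inr (Or.inr ⟨n, w, b, by omega, rfl⟩))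
    · rintro z (rfl | ⟨j, w, hj, rfl⟩ | ⟨j, b, hj, rfl⟩ | ⟨n, w, b, hn, rfl⟩)
      · exact hUs hz
      · exact hUs (hm _ hj)
      · exact hUs (hm _ hj)
      · refine hUs (hm _ ?_)
        simp only [lev]
        omega
  · obtain ⟨V, hV, hzV, hVU⟩ := exists_isClopen ht hU hz
    exact ⟨V, hV.2.mem_nhds hzV, hV.1, hVU.trans hUs⟩

/-! ### Continuous functions -/

section Functions

variable {f : Z → ℝ} (hf : Continuous f)

include hf

theorem near (z : Z) {ε : ℝ} (hε : 0 < ε) : IsOpen {y | |f y - f z| < ε} :=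
  isOpen_lt ((hf.sub continuous_const).abs) continuous_const

theorem near_top {ε : ℝ} (hε : 0 < ε) : ∃ m, ∀ z, m ≤ lev z → |f z - f Z.top| < ε :=
  (near hf Z.top hε).1 (by simpa using hε)

theorem near_k (j : ℕ) (w : W) {ε : ℝ} (hε : 0 < ε) :
    ∃ c : A, ∀ n, (n + 1) / 2 = j → ∀ b, c ⊆ b → |f (Z.q n w b) - f (Z.k j w)| < ε :=
  (near hf (Z.k j w) hε).2.1 j w (by simpa using hε)

theorem near_a (j : ℕ) (b : A) {ε : ℝ} (hε : 0 < ε) :
    ∃ v : W, ∀ n, n / 2 = j → ∀ w, v ≤ w → |f (Z.q n w b) - f (Z.a j b)| < ε :=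
  (near hf (Z.a j b) hε).2.2 j b (by simpa using hε)

theorem eq_a (j : ℕ) : ∃ v : W, ∀ w, v ≤ w → ∀ n, n / 2 = j → ∀ b,
    f (Z.q n w b) = f (Z.a j b) := by
  choose v hv using fun (p : A × ℕ) => near_a hf j p.1 (ε := 1 / ((p.2 : ℝ) + 1)) (by positivity)
  obtain ⟨u, hu⟩ := exists_bound_W (J := A × ℕ) (by
    rw [mk_prod, lift_id, lift_id, mk_nat]
    calc #A * ℵ₀ ≤ #A * #A := by
          gcongr
          exact aleph0_le_A
      _ = #A := mul_eq_self aleph0_le_A
      _ ≤ #A := le_rfl) v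
  refine ⟨u, fun w hw n hn b => ?_⟩
  by_contra hne
  have hpos : 0 < |f (Z.q n w b) - f (Z.a j b)| := abs_pos.2 (sub_ne_zero.2 hne)
  obtain ⟨N, hN⟩ := exists_nat_one_div_lt hpos
  have h1 := hv (b, N) n hn w ((hu (b, N)).le.trans hw)
  exact absurd h1 (not_lt.2 hN.le)

theorem step_ka {r : ℝ} (j : ℕ) (h : ∃ w₀, ∀ w, w₀ ≤ w → f (Z.k j w) = r) {ε : ℝ} (hε : 0 < ε) :
    ∃ c : A, ∀ b, c ⊆ b → |f (Z.a j b) - r| < ε := by
  obtain ⟨w₀, hw₀⟩ := h
  obtain ⟨v, hv⟩ := eq_a hf j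
  obtain ⟨c, hc⟩ := near_k hf j (max w₀ v) hε
  refine ⟨c, fun b hb => ?_⟩
  have h1 := hc (2 * j) (by omega) b hb
  rwa [hv _ (le_max_right _ _) (2 * j) (by omega) b, hw₀ _ (le_max_left _ _)] at h1

theorem step_ak {r : ℝ} (j : ℕ) (h : ∀ ε : ℝ, 0 < ε → ∃ c : A, ∀ b, c ⊆ b →
    |f (Z.a j b) - r| < ε) : ∃ w₀, ∀ w, w₀ ≤ w → f (Z.k (j + 1) w) = r := by
  classical
  obtain ⟨v, hv⟩ := eq_a hf j
  refine ⟨v, fun w hw => ?_⟩
  by_contra hne
  have hpos : 0 < |f (Z.k (j + 1) w) - r| := abs_pos.2 (sub_ne_zero.2 hne)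
  obtain ⟨c, hc⟩ := near_k hf (j + 1) w (half_pos hpos)
  obtain ⟨c', hc'⟩ := h _ (half_pos hpos)
  have h1 := hc (2 * j + 1) (by omega) (c ∪ c') Finset.subset_union_left
  have h2 := hc' (c ∪ c') Finset.subset_union_right
  rw [hv w hw (2 * j + 1) (by omega)] at h1
  have h3 : |f (Z.k (j + 1) w) - r| ≤
      |f (Z.a j (c ∪ c')) - f (Z.k (j + 1) w)| + |f (Z.a j (c ∪ c')) - r| := by
    rw [abs_sub_comm (f (Z.a j (c ∪ c'))) (f (Z.k (j + 1) w))]
    exact abs_sub_le _ _ _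
  linarith

theorem level {r : ℝ} (h : ∀ w, f (Z.k 0 w) = r) (j : ℕ) :
    ∃ w₀, ∀ w, w₀ ≤ w → f (Z.k j w) = r := by
  induction j with
  | zero => exact ⟨Classical.arbitrary _, fun w _ => h w⟩
  | succ j ih => exact step_ak hf j fun ε hε => step_ka hf j ih hε

theorem top_eq {r : ℝ} (h : ∀ w, f (Z.k 0 w) = r) : f Z.top = r := by
  by_contra hne
  have hpos : 0 < |r - f Z.top| := abs_pos.2 (sub_ne_zero.2 (Ne.symm hne))
  obtain ⟨m, hm⟩ := near_top hf hpos
  obtain ⟨w₀, hw₀⟩ := level hf h m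
  have h1 := hm (Z.k m w₀) le_rfl
  rw [hw₀ w₀ le_rfl] at h1
  exact lt_irrefl _ h1

end Functions

theorem isClosed_k_zero : IsClosed (range (Z.k 0)) := by
  rw [← isOpen_compl_iff]
  refine ⟨fun _ => ⟨1, ?_⟩, ?_, ?_⟩
  · rintro z hz ⟨w, rfl⟩
    simp only [lev] at hz
    omega
  · rintro j w _
    refine ⟨∅, ?_⟩
    rintro n _ b _ ⟨w', h⟩
    cases h
  · rintro j b _
    refine ⟨Classical.arbitrary _, ?_⟩
    rintro n _ w _ ⟨w', h⟩
    cases h

/-- The space `Z` is not completely regular. -/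
theorem not_completelyRegular : ¬ CompletelyRegularSpace Z := by
  intro h
  obtain ⟨f, hf, h0, h1⟩ := h.completely_regular Z.top (range (Z.k 0)) isClosed_k_zero (by
    rintro ⟨w, h⟩
    cases h)
  have h2 : Continuous fun z => (f z : ℝ) := continuous_subtype_val.comp hf
  have h3 : (f Z.top : ℝ) = 1 := top_eq h2 fun w => by
    have := h1 (mem_range_self w)
    rw [this]
    rfl
  rw [h0] at h3
  exact zero_ne_one h3

/-- A space in which every point has a clopen base is completely regular. -/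
theorem completelyRegular_of_clopen {X : Type*} [TopologicalSpace X]
    (h : ∀ (x : X) (U : Set X), U ∈ 𝓝 x → ∃ C, IsClopen C ∧ x ∈ C ∧ C ⊆ U) :
    CompletelyRegularSpace X := by
  classical
  refine ⟨fun x K hK hx => ?_⟩
  obtain ⟨C, hC, hxC, hCK⟩ := h x Kᶜ (hK.isOpen_compl.mem_nhds hx)
  refine ⟨fun y => if y ∈ C then 0 else 1, ?_, ?_, ?_⟩
  · refine continuous_const.if (fun a ha => ?_) continuous_const
    have : frontier {y | y ∈ C} = ∅ := hC.frontier_eq
    rw [this] at ha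
    exact absurd ha (notMem_empty a)
  · simp [hxC]
  · intro y hy
    have : y ∉ C := fun h => hCK h hy
    simp [this]

end Q175.PlankZ
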