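import Mathlib
import Pool.Agent.Q175.Cells

/-!
# A recursion of length continuum
-/

open Set Filter Topology MeasureTheory Cardinal
open scoped ENNReal

namespace Q175.Cells

/-- The invariants of the recursion. -/
structure Inv (P N : Set C) : Prop where
  okp : ∀ p ∈ P, OKP p
  okn : ∀ n ∈ N, OKN n
  infp : ∀ p ∈ P, {k | p k = true}.Infinite
  infn : ∀ n ∈ N, {k | n k = false}.Infinite
  pair : ∀ p ∈ P, ∀ n ∈ N, ¬ Sub p n

theorem mk_C : #C = 𝔠 := by simp

/-- Free typical members. -/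
theorem exists_free {P N : Set C} (h : Inv P N) (hP : #P < 𝔠) (hN : #N < 𝔠) {B : Set C}
    (hB : MeasurableSet B) (hpos : 0 < μ B) :
    ∃ y ∈ B, Typ y ∧ (∀ p ∈ P, ¬ Sub p y) ∧ ∀ n ∈ N, ¬ Sub y n := by
  classical
  have hae : μ {x | ¬ Typ x} = 0 := ae_iff.1 ae_typ
  set M := toMeasurable μ {x | ¬ Typ x} with hM
  have hM0 : μ M = 0 := by rw [hM, measure_toMeasurable, hae]
  have hsub : {x | ¬ Typ x} ⊆ M := subset_toMeasurable _ _
  have hpos' : 0 < μ (B \ M) := by rwa [measure_sdiff_null hM0]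
  obtain ⟨w, g, hg, hgB⟩ := exists_many (hB.diff (measurableSet_toMeasurable _ _)) hpos'
  have htyp : ∀ γ, Typ (add w (xb (g γ))) := by
    intro γ
    by_contra hn
    exact (hgB γ).2 (hsub hn)
  by_contra hcon
  push Not at hcon
  have h1 : ∀ γ, (∃ p ∈ P, Sub p (add w (xb (g γ)))) ∨ ∃ n ∈ N, Sub (add w (xb (g γ))) n := by
    intro γ
    by_cases hp : ∃ p ∈ P, Sub p (add w (xb (g γ)))
    · exact Or.inl hp
    · push Not at hp
      exact Or.inr (hcon _ (hgB γ).1 (htyp γ) hp)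
  have h2 : ∀ γ, ∃ z : P ⊕ N, (∀ p, z = Sum.inl p → Sub p.1 (add w (xb (g γ)))) ∧
      ∀ n, z = Sum.inr n → Sub (add w (xb (g γ))) n.1 := by
    intro γ
    rcases h1 γ with ⟨p, hp, hs⟩ | ⟨n, hn, hs⟩
    · refine ⟨Sum.inl ⟨p, hp⟩, ?_, ?_⟩
      · intro p' h'
        cases h'
        exact hs
      · intro n' h'
        cases h'
    · refine ⟨Sum.inr ⟨n, hn⟩, ?_, ?_⟩
      · intro p' h'
        cases h'
      · intro n' h'
        cases h'
        exact hs
  choose z hz1 hz2 using h2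
  have hinj : Function.Injective z := by
    intro γ γ' hγ
    apply hg
    rcases hz : z γ with p | n
    · exact h.okp p.1 p.2 w _ _ (htyp γ) (htyp γ') (hz1 γ p hz) (hz1 γ' p (hγ ▸ hz))
    · exact h.okn n.1 n.2 w _ _ (htyp γ) (htyp γ') (hz2 γ n hz) (hz2 γ' n (hγ ▸ hz))
  have h3 : #C ≤ #(P ⊕ N : Type) := mk_le_of_injective hinj
  rw [mk_C, mk_sum, lift_id, lift_id] at h3
  exact absurd (h3.trans_lt (add_lt_of_lt aleph0_le_continuum hP hN)) (lt_irrefl _)

/-- The tasks. -/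
abbrev T : Type := {L : Set (C × C) // MeasurableSet L} ⊕ {A : Set C // MeasurableSet A}

/-- A task is fulfilled by `P`, `N`. -/
def Done (P N : Set C) : T → Prop
  | Sum.inl L => InjOn Prod.fst L.1 → (∀ q ∈ L.1, ¬ (Sub q.1 q.2 ∧ Sub q.2 q.1)) →
      0 < μ (Prod.fst '' L.1) → ∃ q ∈ L.1, (q.1 ∈ N ∧ ∃ p ∈ P, Sub p q.2) ∨
        (q.1 ∈ P ∧ ∃ n ∈ N, Sub q.2 n)
  | Sum.inr A => 0 < μ A.1 → ∃ y ∈ A.1, y ∈ P

theorem Inv.insert_p {P N : Set C} (h : Inv P N) {y : C} (h1 : OKP y)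
    (h2 : {k | y k = true}.Infinite) (h3 : ∀ n ∈ N, ¬ Sub y n) : Inv (insert y P) N where
  okp := by
    rintro p (rfl | hp)
    · exact h1
    · exact h.okp p hp
  okn := h.okn
  infp := by
    rintro p (rfl | hp)
    · exact h2
    · exact h.infp p hp
  infn := h.infn
  pair := by
    rintro p (rfl | hp)
    · exact h3
    · exact h.pair p hp

theorem Inv.insert_n {P N : Set C} (h : Inv P N) {y : C} (h1 : OKN y)
    (h2 : {k | y k = false}.Infinite) (h3 : ∀ p ∈ P, ¬ Sub p y) : Inv P (insert y N) where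
  okp := h.okp
  okn := by
    rintro p (rfl | hp)
    · exact h1
    · exact h.okn p hp
  infp := h.infp
  infn := by
    rintro p (rfl | hp)
    · exact h2
    · exact h.infn p hp
  pair := by
    rintro p hp n (rfl | hn)
    · exact h3 p hp
    · exact h.pair p hp n hn

/-- One step of the recursion. -/
theorem step {P N : Set C} (h : Inv P N) (hP : #P < 𝔠) (hN : #N < 𝔠) (t : T) :
    ∃ P' N' : Set C, P'.Finite ∧ N'.Finite ∧ Inv (P' ∪ P) (N' ∪ N) ∧ Done (P' ∪ P) (N' ∪ N) t := by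
  classical
  rcases t with L | A
  · by_cases hL : InjOn Prod.fst L.1 ∧ (∀ q ∈ L.1, ¬ (Sub q.1 q.2 ∧ Sub q.2 q.1)) ∧
      0 < μ (Prod.fst '' L.1)
    · obtain ⟨hinj, hne, hpos⟩ := hL
      have hmeas : MeasurableSet (Prod.fst '' L.1) :=
        L.2.image_of_continuousOn_injOn continuous_fst.continuousOn hinj
      obtain ⟨y, ⟨q, hq, rfl⟩, hty, hyP, hyN⟩ := exists_free h hP hN hmeas hpos
      -- the ways to finish
      by_cases h1 : ∃ p ∈ P, Sub p q.2
      · obtain ⟨p, hp, hpq⟩ := h1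
        refine ⟨∅, {q.1}, finite_empty, finite_singleton _, ?_, fun _ _ _ => ⟨q, hq, Or.inl ⟨Or.inl rfl,
          p, Or.inr hp, hpq⟩⟩⟩
        rw [empty_union, singleton_union]
        exact h.insert_n (okn_of_typ hty) (coinfinite_of_typ hty) hyP
      by_cases h2 : ∃ n ∈ N, Sub q.2 n
      · obtain ⟨n, hn, hqn⟩ := h2
        refine ⟨{q.1}, ∅, finite_singleton _, finite_empty, ?_, fun _ _ _ => ⟨q, hq, Or.inr ⟨Or.inl rfl,
          n, Or.inr hn, hqn⟩⟩⟩
        rw [empty_union, singleton_union]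
        exact h.insert_p (okp_of_typ hty) (infinite_of_typ hty) hyN
      push Not at h1 h2
      have way1 : OKP q.2 → {k | q.2 k = true}.Infinite → ¬ Sub q.2 q.1 →
          ∃ P' N' : Set C, P'.Finite ∧ N'.Finite ∧ Inv (P' ∪ P) (N' ∪ N) ∧
            Done (P' ∪ P) (N' ∪ N) (Sum.inl L) := by
        intro ha hb hc
        refine ⟨{q.2}, {q.1}, finite_singleton _, finite_singleton _, ?_, fun _ _ _ =>
          ⟨q, hq, Or.inl ⟨Or.inl rfl, q.2, Or.inl rfl, Sub.refl _⟩⟩⟩
        rw [singleton_union, singleton_union]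
        refine (h.insert_p ha hb h2).insert_n (okn_of_typ hty) (coinfinite_of_typ hty) ?_
        rintro p (rfl | hp)
        · exact hc
        · exact hyP p hp
      have way2 : OKN q.2 → {k | q.2 k = false}.Infinite → ¬ Sub q.1 q.2 →
          ∃ P' N' : Set C, P'.Finite ∧ N'.Finite ∧ Inv (P' ∪ P) (N' ∪ N) ∧
            Done (P' ∪ P) (N' ∪ N) (Sum.inl L) := by
        intro ha hb hc
        refine ⟨{q.1}, {q.2}, finite_singleton _, finite_singleton _, ?_, fun _ _ _ =>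
          ⟨q, hq, Or.inr ⟨Or.inl rfl, q.2, Or.inl rfl, Sub.refl _⟩⟩⟩
        rw [singleton_union, singleton_union]
        refine (h.insert_p (okp_of_typ hty) (infinite_of_typ hty) hyN).insert_n ha hb ?_
        rintro p (rfl | hp)
        · exact hc
        · exact h1 p hp
      rcases trichotomy q.2 with h3 | h3 | h3
      · exact way1 (okp_of_large h3) (infinite_of_large h3) (not_sub_of_large h3 hty)
      · exact way2 (okn_of_small h3) (coinfinite_of_small h3) (not_sub_of_small h3 hty)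
      · by_cases h4 : Sub q.1 q.2
        · exact way1 (okp_of_typ h3) (infinite_of_typ h3) fun h5 => hne q hq ⟨h4, h5⟩
        · exact way2 (okn_of_typ h3) (coinfinite_of_typ h3) h4
    · refine ⟨∅, ∅, finite_empty, finite_empty, by rwa [empty_union, empty_union], ?_⟩
      intro h1 h2 h3
      exact absurd ⟨h1, h2, h3⟩ hL
  · by_cases hA : 0 < μ A.1
    · obtain ⟨y, hy, hty, hyP, hyN⟩ := exists_free h hP hN A.2 hA
      refine ⟨{y}, ∅, finite_singleton _, finite_empty, ?_, fun _ => ⟨y, hy, Or.inl rfl⟩⟩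
      rw [empty_union, singleton_union]
      exact h.insert_p (okp_of_typ hty) (infinite_of_typ hty) hyN
    · refine ⟨∅, ∅, finite_empty, finite_empty, by rwa [empty_union, empty_union], ?_⟩
      intro h1
      exact absurd h1 hA

theorem Done.mono {P P' N N' : Set C} (hP : P ⊆ P') (hN : N ⊆ N') {t : T} (h : Done P N t) :
    Done P' N' t := by
  rcases t with L | A
  · intro h1 h2 h3
    obtain ⟨q, hq, ⟨h4, p, hp, h5⟩ | ⟨h4, n, hn, h5⟩⟩ := h h1 h2 h3
    · exact ⟨q, hq, Or.inl ⟨hN h4, p, hP hp, h5⟩⟩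
    · exact ⟨q, hq, Or.inr ⟨hP h4, n, hN hn, h5⟩⟩
  · intro h1
    obtain ⟨y, hy, hyP⟩ := h h1
    exact ⟨y, hy, hP hyP⟩

/-- The index set of the recursion. -/
abbrev I : Type := (𝔠 : Cardinal.{0}).ord.ToType

theorem mk_T_le : #T ≤ #I := by
  have h1 : #I = 𝔠 := by simp
  rw [h1, mk_sum, lift_id, lift_id]
  have h2 : #{L : Set (C × C) // MeasurableSet L} ≤ 𝔠 := by
    obtain ⟨b, hb, hgen⟩ := MeasurableSpace.CountablyGenerated.isCountablyGenerated (α := C × C)
    have := MeasurableSpace.cardinal_measurableSet_le_continuum (s := b)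
      (hb.le_aleph0.trans aleph0_le_continuum)
    rw [← hgen] at this
    exact this
  have h3 : #{L : Set C // MeasurableSet L} ≤ 𝔠 := by
    obtain ⟨b, hb, hgen⟩ := MeasurableSpace.CountablyGenerated.isCountablyGenerated (α := C)
    have := MeasurableSpace.cardinal_measurableSet_le_continuum (s := b)
      (hb.le_aleph0.trans aleph0_le_continuum)
    rw [← hgen] at this
    exact this
  exact (add_le_add h2 h3).trans (by simp)

/-- recursion along a well-order -/
theorem exists_rec {R : Type} (Q : (a : I) → ((b : I) → b < a → R) → R → Prop)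
    (h : ∀ a f, ∃ t, Q a f t) : ∃ D : I → R, ∀ a, Q a (fun b _ => D b) (D a) := by
  classical
  let F : (a : I) → ((b : I) → b < a → R) → R := fun a f => Classical.choose (h a f)
  have hF : ∀ a f, Q a f (F a f) := fun a f => Classical.choose_spec (h a f)
  let wf : WellFounded (fun x y : I => x < y) := wellFounded_lt
  refine ⟨wf.fix F, fun a => ?_⟩
  have h1 := hF a (fun b _ => wf.fix F b)
  rw [← wf.fix_eq F a] at h1
  exact h1

theorem mk_union_lt {f : I → Set C} (hf : ∀ j, (f j).Finite) (i : I) :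
    #(⋃ (j) (_ : j < i), f j : Set C) < 𝔠 := by
  have h1 : #(Iio i) < 𝔠 := by
    have := mk_Iio_toType_ord_lt i
    simpa using this
  have h2 : (⋃ (j) (_ : j < i), f j : Set C) = ⋃ j : Iio i, f j := by
    ext x
    simp
  rw [h2]
  calc #(⋃ j : Iio i, f j : Set C) ≤ Cardinal.sum fun j : Iio i => #(f j) := mk_iUnion_le_sum_mk
    _ ≤ Cardinal.sum fun _ : Iio i => ℵ₀ :=
        Cardinal.sum_le_sum _ _ fun j => (hf j).lt_aleph0.le
    _ = #(Iio i) * ℵ₀ := by simp
    _ < 𝔠 := mul_lt_of_lt aleph0_le_continuum h1 aleph0_lt_continuum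

/-- The result of the recursion. -/
theorem exists_PN : ∃ P N : Set C, Inv P N ∧ ∀ t, Done P N t := by
  classical
  have : Nonempty T := ⟨Sum.inr ⟨∅, MeasurableSet.empty⟩⟩
  obtain ⟨e⟩ := Cardinal.le_def _ _ |>.1 mk_T_le
  have hsurj : Function.Surjective (Function.invFun e) := Function.invFun_surjective e.injective
  let tk : I → T := Function.invFun e
  obtain ⟨F, hF⟩ := exists_rec (R := Set C × Set C) (fun i f t =>
    t.1.Finite ∧ t.2.Finite ∧ (Inv (⋃ (j) (h : j < i), (f j h).1) (⋃ (j) (h : j < i), (f j h).2) →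
      #(⋃ (j) (h : j < i), (f j h).1 : Set C) < 𝔠 → #(⋃ (j) (h : j < i), (f j h).2 : Set C) < 𝔠 →
      Inv (t.1 ∪ ⋃ (j) (h : j < i), (f j h).1) (t.2 ∪ ⋃ (j) (h : j < i), (f j h).2) ∧
      Done (t.1 ∪ ⋃ (j) (h : j < i), (f j h).1) (t.2 ∪ ⋃ (j) (h : j < i), (f j h).2) (tk i))) (by
    intro i f
    by_cases hc : Inv (⋃ (j) (h : j < i), (f j h).1) (⋃ (j) (h : j < i), (f j h).2) ∧
      #(⋃ (j) (h : j < i), (f j h).1 : Set C) < 𝔠 ∧ #(⋃ (j) (h : j < i), (f j h).2 : Set C) < 𝔠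
    · obtain ⟨P', N', h1, h2, h3, h4⟩ := step hc.1 hc.2.1 hc.2.2 (tk i)
      exact ⟨(P', N'), h1, h2, fun _ _ _ => ⟨h3, h4⟩⟩
    · exact ⟨(∅, ∅), finite_empty, finite_empty, fun h1 h2 h3 => absurd ⟨h1, h2, h3⟩ hc⟩)
  let Pl : I → Set C := fun i => ⋃ (j) (_ : j < i), (F j).1
  let Nl : I → Set C := fun i => ⋃ (j) (_ : j < i), (F j).2
  have hcP : ∀ i, #(Pl i) < 𝔠 := mk_union_lt fun j => (hF j).1
  have hcN : ∀ i, #(Nl i) < 𝔠 := mk_union_lt fun j => (hF j).2.1
  have hstep : ∀ i, Inv (Pl i) (Nl i) →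
      Inv ((F i).1 ∪ Pl i) ((F i).2 ∪ Nl i) ∧ Done ((F i).1 ∪ Pl i) ((F i).2 ∪ Nl i) (tk i) :=
    fun i hi => (hF i).2.2 hi (hcP i) (hcN i)
  have hPle : ∀ {j m : I}, j ≤ m → (F j).1 ⊆ (F m).1 ∪ Pl m := by
    intro j m h
    rcases h.eq_or_lt with rfl | h
    · exact subset_union_left
    · intro x hx
      exact Or.inr (mem_iUnion₂.2 ⟨j, h, hx⟩)
  have hNle : ∀ {j m : I}, j ≤ m → (F j).2 ⊆ (F m).2 ∪ Nl m := by
    intro j m h
    rcases h.eq_or_lt with rfl | h
    · exact subset_union_left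
    · intro x hx
      exact Or.inr (mem_iUnion₂.2 ⟨j, h, hx⟩)
  have hall : ∀ i, Inv (Pl i) (Nl i) := by
    intro i
    induction i using WellFoundedLT.induction with
    | ind i ih =>
      have key : ∀ m < i, Inv ((F m).1 ∪ Pl m) ((F m).2 ∪ Nl m) := fun m hm =>
        (hstep m (ih m hm)).1
      refine ⟨?_, ?_, ?_, ?_, ?_⟩
      · intro p hp
        obtain ⟨j, hj, hpj⟩ := mem_iUnion₂.1 hp
        exact (key j hj).okp p (Or.inl hpj)
      · intro p hp
        obtain ⟨j, hj, hpj⟩ := mem_iUnion₂.1 hp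
        exact (key j hj).okn p (Or.inl hpj)
      · intro p hp
        obtain ⟨j, hj, hpj⟩ := mem_iUnion₂.1 hp
        exact (key j hj).infp p (Or.inl hpj)
      · intro p hp
        obtain ⟨j, hj, hpj⟩ := mem_iUnion₂.1 hp
        exact (key j hj).infn p (Or.inl hpj)
      · intro p hp n hn
        obtain ⟨j, hj, hpj⟩ := mem_iUnion₂.1 hp
        obtain ⟨k, hk, hnk⟩ := mem_iUnion₂.1 hn
        exact (key (max j k) (max_lt hj hk)).pair p (hPle (le_max_left _ _) hpj) n
          (hNle (le_max_right _ _) hnk)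
  have key : ∀ m, Inv ((F m).1 ∪ Pl m) ((F m).2 ∪ Nl m) := fun m => (hstep m (hall m)).1
  refine ⟨⋃ j, (F j).1, ⋃ j, (F j).2, ⟨?_, ?_, ?_, ?_, ?_⟩, ?_⟩
  · intro p hp
    obtain ⟨j, hpj⟩ := mem_iUnion.1 hp
    exact (key j).okp p (Or.inl hpj)
  · intro p hp
    obtain ⟨j, hpj⟩ := mem_iUnion.1 hp
    exact (key j).okn p (Or.inl hpj)
  · intro p hp
    obtain ⟨j, hpj⟩ := mem_iUnion.1 hp
    exact (key j).infp p (Or.inl hpj)
  · intro p hp
    obtain ⟨j, hpj⟩ := mem_iUnion.1 hp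
    exact (key j).infn p (Or.inl hpj)
  · intro p hp n hn
    obtain ⟨j, hpj⟩ := mem_iUnion.1 hp
    obtain ⟨k, hnk⟩ := mem_iUnion.1 hn
    exact (key (max j k)).pair p (hPle (le_max_left _ _) hpj) n (hNle (le_max_right _ _) hnk)
  · intro t
    obtain ⟨i, rfl⟩ := hsurj t
    refine Done.mono ?_ ?_ (hstep i (hall i)).2
    · exact union_subset (subset_iUnion (fun j => (F j).1) i)
        (iUnion₂_subset fun j _ => subset_iUnion (fun j => (F j).1) j)
    · exact union_subset (subset_iUnion (fun j => (F j).2) i)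
        (iUnion₂_subset fun j _ => subset_iUnion (fun j => (F j).2) j)

end Q175.Cells
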