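import Mathlib

/-!
# Families of retractions indexed by directed posets
-/

open Set Filter Topology

namespace Q175.Skel

universe u v w

variable {K : Type u} [TopologicalSpace K]

/-- A family of commuting (along the order) retractions, indexed by an up-directed poset in which
increasing sequences have suprema, and continuous along increasing sequences. -/
structure PreSkel {Λ : Type v} [PartialOrder Λ] (R : Λ → K → K) : Prop where
  ne : Nonempty Λ
  dir : ∀ s t : Λ, ∃ u, s ≤ u ∧ t ≤ u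
  sup : ∀ u : ℕ → Λ, Monotone u → ∃ t, IsLUB (range u) t
  cont : ∀ s, Continuous (R s)
  comp₁ : ∀ s t, s ≤ t → ∀ x, R s (R t x) = R s x
  comp₂ : ∀ s t, s ≤ t → ∀ x, R t (R s x) = R s x
  lim : ∀ u : ℕ → Λ, Monotone u → ∀ t, IsLUB (range u) t → ∀ x,
    Tendsto (fun n => R (u n) x) atTop (𝓝 (R t x))

/-- recursion along a well-founded relation -/
theorem exists_rec {α : Type u} {β : Type v} {lt : α → α → Prop} (wf : WellFounded lt)
    (Q : (a : α) → ((b : α) → lt b a → β) → β → Prop)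
    (h : ∀ a f, ∃ t, Q a f t) : ∃ D : α → β, ∀ a, Q a (fun b _ => D b) (D a) := by
  classical
  let F : (a : α) → ((b : α) → lt b a → β) → β := fun a f => Classical.choose (h a f)
  have hF : ∀ a f, Q a f (F a f) := fun a f => Classical.choose_spec (h a f)
  refine ⟨wf.fix F, fun a => ?_⟩
  have h1 := hF a (fun b _ => wf.fix F b)
  rw [← wf.fix_eq F a] at h1
  exact h1

namespace PreSkel

variable {Λ : Type v} [PartialOrder Λ] {R : Λ → K → K}

/-- Sequences are bounded. -/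
theorem ub (h : PreSkel R) (s : ℕ → Λ) : ∃ u, ∀ n, s n ≤ u := by
  choose f hf1 hf2 using h.dir
  let t : ℕ → Λ := fun n => Nat.rec (s 0) (fun k a => f a (s (k + 1))) n
  have ht : ∀ n, t (n + 1) = f (t n) (s (n + 1)) := fun n => rfl
  have hmono : Monotone t := monotone_nat_of_le_succ fun n => by
    rw [ht]
    exact hf1 _ _
  obtain ⟨u, hu⟩ := h.sup t hmono
  refine ⟨u, fun n => le_trans ?_ (hu.1 ⟨n, rfl⟩)⟩
  cases n with
  | zero => exact le_rfl
  | succ n => rw [ht]; exact hf2 _ _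

theorem eps [CompactSpace K] [T2Space K] (h : PreSkel R) {M : Type w} [MetricSpace M] {ρ : K → M}
    (hρ : Continuous ρ) {ε : ℝ} (hε : 0 < ε) :
    ∃ s, ∀ s', s ≤ s' → ∀ x ∈ closure (⋃ s, range (R s)), dist (ρ (R s' x)) (ρ x) ≤ ε := by
  by_contra hcon
  push Not at hcon
  have key : ∀ s, ∃ s', s ≤ s' ∧ ∃ v, s' ≤ v ∧ ∃ x, R v x = x ∧
      ε < dist (ρ (R s' x)) (ρ x) := by
    intro s
    obtain ⟨s', hs', x, hx, hd⟩ := hcon s
    have hopen : IsOpen {x | ε < dist (ρ (R s' x)) (ρ x)} :=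
      isOpen_lt continuous_const ((hρ.comp (h.cont s')).dist hρ)
    obtain ⟨x', hx', hx''⟩ := mem_closure_iff.1 hx _ hopen hd
    obtain ⟨v₀, z, rfl⟩ := mem_iUnion.1 hx''
    obtain ⟨v, hv1, hv2⟩ := h.dir s' v₀
    exact ⟨s', hs', v, hv1, R v₀ z, h.comp₂ _ _ hv2 _, hx'⟩
  choose f hf v hv x hx hd using key
  obtain ⟨i₀⟩ := h.ne
  let W : ℕ → Λ := fun n => Nat.rec i₀ (fun _ a => v a) n
  have hW : ∀ n, W (n + 1) = v (W n) := fun n => rfl
  have hWf : ∀ n, f (W n) ≤ W (n + 1) := fun n => hv (W n)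
  have hmono : Monotone fun n => f (W n) := monotone_nat_of_le_succ fun n =>
    (hWf n).trans (hf (W (n + 1)))
  obtain ⟨u, hu⟩ := h.sup _ hmono
  have hle : ∀ n, f (W n) ≤ u := fun n => hu.1 ⟨n, rfl⟩
  have hle' : ∀ n, v (W n) ≤ u := fun n => (hf (W (n + 1))).trans (hle (n + 1))
  have hxu : ∀ n, R u (x (W n)) = x (W n) := by
    intro n
    have h1 := h.comp₂ _ _ (hle' n) (x (W n))
    rwa [hx] at h1
  let U : Ultrafilter ℕ := hyperfilter ℕ
  have hU : (U : Filter ℕ) ≤ atTop := Nat.hyperfilter_le_atTop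
  obtain ⟨a, -, ha⟩ := isCompact_univ.ultrafilter_le_nhds (U.map fun n => x (W n)) (by simp)
  obtain ⟨b, -, hb⟩ := isCompact_univ.ultrafilter_le_nhds
    (U.map fun n => R (f (W n)) (x (W n))) (by simp)
  have ha' : Tendsto (fun n => x (W n)) U (𝓝 a) := ha
  have hb' : Tendsto (fun n => R (f (W n)) (x (W n))) U (𝓝 b) := hb
  have hab : ∀ m, R (f (W m)) a = R (f (W m)) b := by
    intro m
    have h1 : Tendsto (fun n => R (f (W m)) (x (W n))) U (𝓝 (R (f (W m)) a)) :=
      ((h.cont _).tendsto a).comp ha'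
    have h2 : Tendsto (fun n => R (f (W m)) (R (f (W n)) (x (W n)))) U (𝓝 (R (f (W m)) b)) :=
      ((h.cont _).tendsto b).comp hb'
    refine tendsto_nhds_unique h1 (h2.congr' ?_)
    filter_upwards [hU (eventually_ge_atTop m)] with n hn
    exact h.comp₁ _ _ (hmono hn) _
  have hau : R u a = a := by
    have h1 : Tendsto (fun n => R u (x (W n))) U (𝓝 (R u a)) := ((h.cont _).tendsto a).comp ha'
    refine tendsto_nhds_unique h1 (ha'.congr fun n => (hxu n).symm)
  have hbu : R u b = b := by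
    have h1 : Tendsto (fun n => R u (R (f (W n)) (x (W n)))) U (𝓝 (R u b)) :=
      ((h.cont _).tendsto b).comp hb'
    refine tendsto_nhds_unique h1 (hb'.congr fun n => (h.comp₂ _ _ (hle n) _).symm)
  have heq : a = b := by
    have h1 := h.lim _ hmono u hu a
    have h2 := h.lim _ hmono u hu b
    rw [hau] at h1
    rw [hbu] at h2
    exact tendsto_nhds_unique h1 (h2.congr fun m => (hab m).symm)
  have h3 : Tendsto (fun n => dist (ρ (R (f (W n)) (x (W n)))) (ρ (x (W n)))) U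
      (𝓝 (dist (ρ b) (ρ a))) :=
    ((hρ.tendsto b).comp hb').dist ((hρ.tendsto a).comp ha')
  rw [heq, dist_self] at h3
  have h4 : ε ≤ 0 := ge_of_tendsto h3 (Eventually.of_forall fun n => (hd (W n)).le)
  exact absurd (hε.trans_le h4) (lt_irrefl _)

/-- Each map into a metric space depends, on the closure of the union of the ranges, on a single
retraction only. -/
theorem factor [CompactSpace K] [T2Space K] (h : PreSkel R) {M : Type w} [MetricSpace M]
    {ρ : K → M} (hρ : Continuous ρ) :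
    ∃ s, ∀ x ∈ closure (⋃ s, range (R s)), ρ (R s x) = ρ x := by
  have h1 : ∀ n : ℕ, ∃ s, ∀ s', s ≤ s' → ∀ x ∈ closure (⋃ s, range (R s)),
      dist (ρ (R s' x)) (ρ x) ≤ 1 / ((n : ℝ) + 1) := fun n => h.eps hρ Nat.one_div_pos_of_nat
  choose s hs using h1
  obtain ⟨u, hu⟩ := h.ub s
  refine ⟨u, fun x hx => ?_⟩
  have h2 : dist (ρ (R u x)) (ρ x) ≤ 0 :=
    ge_of_tendsto' tendsto_one_div_add_atTop_nhds_zero_nat fun n => hs n u (hu n) x hx
  exact dist_le_zero.1 h2

end PreSkel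

/-! ### Monotone indexing by finite sets and countable sets -/

section Index

set_option linter.unusedSectionVars false

variable {Γ : Type v} [PartialOrder Γ]

theorem exists_phi (hne : Nonempty Γ) (hdir : ∀ s t : Γ, ∃ u, s ≤ u ∧ t ≤ u) (γ : K → Γ) :
    ∃ φ : Finset K → Γ, Monotone φ ∧ ∀ a : Finset K, ∀ d ∈ a, γ d ≤ φ a := by
  classical
  have : IsDirectedOrder Γ := ⟨fun s t => hdir s t⟩
  obtain ⟨φ, hφ⟩ := exists_rec (lt := fun a b : Finset K => a ⊂ b) (IsWellFounded.wf)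
    (fun a (f : (b : Finset K) → b ⊂ a → Γ) t => (∀ b hb, f b hb ≤ t) ∧ ∀ d ∈ a, γ d ≤ t) (by
    intro a f
    obtain ⟨M, hM⟩ := Finset.exists_le ((a.ssubsets.attach.image
      fun b : {x // x ∈ a.ssubsets} => f b.1 (Finset.mem_ssubsets.1 b.2)) ∪ a.image γ)
    refine ⟨M, fun b hb => hM _ (Finset.mem_union_left _ ?_),
      fun d hd => hM _ (Finset.mem_union_right _ (Finset.mem_image_of_mem γ hd))⟩
    exact Finset.mem_image.2 ⟨⟨b, Finset.mem_ssubsets.2 hb⟩, Finset.mem_attach _ _, rfl⟩)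
  refine ⟨φ, fun a b hab => ?_, fun a d hd => (hφ a).2 d hd⟩
  rcases eq_or_ne a b with rfl | hne
  · exact le_rfl
  · exact (hφ b).1 a (hab.ssubset_of_ne hne)

/-- The supremum of the values of `φ` at the finite subsets of `A`. -/
noncomputable def S (φ : Finset K → Γ) (A : Set K) : Γ := by
  classical
  exact if h : ∃ t, IsLUB {g | ∃ b : Finset K, (b : Set K) ⊆ A ∧ φ b = g} t then h.choose
    else φ ∅

variable {φ : Finset K → Γ}

theorem exists_seq (hφ : Monotone φ) {A : Set K} (hA : A.Countable) :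
    ∃ a : ℕ → Finset K, Monotone (fun n => φ (a n)) ∧ (∀ n, (a n : Set K) ⊆ A) ∧
      ∀ b : Finset K, (b : Set K) ⊆ A → ∃ n, b ⊆ a n := by
  classical
  rcases A.eq_empty_or_nonempty with rfl | hne
  · refine ⟨fun _ => ∅, monotone_const, by simp, fun b hb => ⟨0, ?_⟩⟩
    intro x hx
    exact absurd (hb hx) (notMem_empty x)
  · obtain ⟨f, rfl⟩ := hA.exists_eq_range hne
    have hmono : Monotone fun n => (Finset.range n).image f := fun m n hmn =>
      Finset.image_subset_image (Finset.range_mono hmn)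
    refine ⟨fun n => (Finset.range n).image f, hφ.comp hmono, ?_, ?_⟩
    · intro n x hx
      rw [Finset.coe_image] at hx
      obtain ⟨k, _, rfl⟩ := hx
      exact ⟨k, rfl⟩
    · intro b hb
      have h1 : ∀ x, ∃ k, x ∈ b → f k = x := by
        intro x
        by_cases hx : x ∈ b
        · obtain ⟨k, hk⟩ := hb hx
          exact ⟨k, fun _ => hk⟩
        · exact ⟨0, fun h => absurd h hx⟩
      choose k hk using h1
      refine ⟨b.sup k + 1, fun x hx => Finset.mem_image.2 ⟨k x, ?_, hk x hx⟩⟩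
      exact Finset.mem_range.2 (Nat.lt_succ_of_le (Finset.le_sup hx))

theorem S_spec (hφ : Monotone φ)
    (hsup : ∀ u : ℕ → Γ, Monotone u → ∃ t, IsLUB (range u) t) {A : Set K} (hA : A.Countable) :
    IsLUB {g | ∃ b : Finset K, (b : Set K) ⊆ A ∧ φ b = g} (S φ A) := by
  classical
  have h : ∃ t, IsLUB {g | ∃ b : Finset K, (b : Set K) ⊆ A ∧ φ b = g} t := by
    obtain ⟨a, ha, haA, hab⟩ := exists_seq hφ hA
    obtain ⟨t, ht⟩ := hsup _ ha
    refine ⟨t, ?_, ?_⟩
    · rintro g ⟨b, hb, rfl⟩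
      obtain ⟨n, hn⟩ := hab b hb
      exact (hφ hn).trans (ht.1 ⟨n, rfl⟩)
    · intro t' ht'
      refine ht.2 ?_
      rintro _ ⟨n, rfl⟩
      exact ht' ⟨a n, haA n, rfl⟩
  unfold S
  rw [dif_pos h]
  exact h.choose_spec

theorem S_lub (hφ : Monotone φ)
    (hsup : ∀ u : ℕ → Γ, Monotone u → ∃ t, IsLUB (range u) t) {A : Set K} (hA : A.Countable) :
    ∃ a : ℕ → Finset K, Monotone (fun n => φ (a n)) ∧ (∀ n, (a n : Set K) ⊆ A) ∧
      IsLUB (range fun n => φ (a n)) (S φ A) := by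
  obtain ⟨a, ha, haA, hab⟩ := exists_seq hφ hA
  have h := S_spec hφ hsup hA
  refine ⟨a, ha, haA, ?_, ?_⟩
  · rintro _ ⟨n, rfl⟩
    exact h.1 ⟨a n, haA n, rfl⟩
  · intro t ht
    refine h.2 ?_
    rintro g ⟨b, hb, rfl⟩
    obtain ⟨n, hn⟩ := hab b hb
    exact (hφ hn).trans (ht ⟨n, rfl⟩)

theorem le_S (hφ : Monotone φ)
    (hsup : ∀ u : ℕ → Γ, Monotone u → ∃ t, IsLUB (range u) t) {A : Set K} (hA : A.Countable)
    {b : Finset K} (hb : (b : Set K) ⊆ A) : φ b ≤ S φ A :=
  (S_spec hφ hsup hA).1 ⟨b, hb, rfl⟩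

theorem S_mono (hφ : Monotone φ)
    (hsup : ∀ u : ℕ → Γ, Monotone u → ∃ t, IsLUB (range u) t) {A B : Set K} (hB : B.Countable)
    (hAB : A ⊆ B) : S φ A ≤ S φ B := by
  refine (S_spec hφ hsup (hB.mono hAB)).2 ?_
  rintro g ⟨b, hb, rfl⟩
  exact le_S hφ hsup hB (hb.trans hAB)

theorem S_iUnion (hφ : Monotone φ)
    (hsup : ∀ u : ℕ → Γ, Monotone u → ∃ t, IsLUB (range u) t) {A : ℕ → Set K}
    (hA : ∀ n, (A n).Countable) (hmono : Monotone A) :
    IsLUB (range fun n => S φ (A n)) (S φ (⋃ n, A n)) := by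
  have hc : (⋃ n, A n).Countable := countable_iUnion hA
  refine ⟨?_, ?_⟩
  · rintro _ ⟨n, rfl⟩
    exact S_mono hφ hsup hc (subset_iUnion A n)
  · intro t ht
    refine (S_spec hφ hsup hc).2 ?_
    rintro g ⟨b, hb, rfl⟩
    have hdir : Directed (· ⊆ ·) A := hmono.directed_le
    obtain ⟨n, hn⟩ := hdir.exists_mem_subset_of_finset_subset_biUnion hb
    exact (le_S hφ hsup (hA n) hn).trans (ht ⟨n, rfl⟩)

end Index

end Q175.Skel
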